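import Mathlib

set_option autoImplicit false

/-!
# The mean value of `x (1 - x)` over the reduced fractions with a given denominator

`chi d = μ (rad d) rad d / d ^ 2` is the multiplicative function such that the sum of `x (1 - x)` over the reduced fractions
`x` with denominator `d` in `[0, 1)` is `φ d (1 - chi d) / 6`.
-/

namespace Pool.Agent.U68.HX

open Finset

/-- `(-1) ^ ω(d) * rad d / d ^ 2` -/
def chi (d : ℕ) : ℚ := (∏ p ∈ d.primeFactors, (-(p : ℚ))) / (d : ℚ) ^ 2

theorem chi_one : chi 1 = 1 := by simp [chi]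

theorem chi_mul {m k : ℕ} (h : Nat.Coprime m k) : chi (m * k) = chi m * chi k := by
  unfold chi
  rw [Nat.Coprime.primeFactors_mul h, Finset.prod_union h.disjoint_primeFactors]
  push_cast
  rw [mul_pow, mul_div_mul_comm]

theorem chi_prime_pow {p k : ℕ} (hp : p.Prime) (hk : k ≠ 0) :
    chi (p ^ k) = -(p : ℚ) / ((p : ℚ) ^ k) ^ 2 := by
  unfold chi
  rw [Nat.primeFactors_prime_pow hk hp]
  simp

theorem chi_prime_pow_neg {p k : ℕ} (hp : p.Prime) (hk : k ≠ 0) : chi (p ^ k) < 0 := by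
  rw [chi_prime_pow hp hk]
  have : (0 : ℚ) < p := by exact_mod_cast hp.pos
  exact div_neg_of_neg_of_pos (by linarith) (by positivity)

theorem chi_prime {p : ℕ} (hp : p.Prime) : chi p = -1 / p := by
  have h := chi_prime_pow hp one_ne_zero
  rw [pow_one, pow_one] at h
  rw [h]
  have : (p : ℚ) ≠ 0 := by exact_mod_cast hp.ne_zero
  field_simp

theorem abs_chi_le (d : ℕ) : |chi d| ≤ 1 / d := by
  rcases Nat.eq_zero_or_pos d with rfl | hd
  · simp [chi]
  have hd' : (0 : ℚ) < d := by exact_mod_cast hd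
  unfold chi
  rw [abs_div, abs_of_pos (by positivity : (0 : ℚ) < (d : ℚ) ^ 2), Finset.abs_prod]
  have h1 : ∏ p ∈ d.primeFactors, |(-(p : ℚ))| = ((∏ p ∈ d.primeFactors, p : ℕ) : ℚ) := by
    push_cast
    apply Finset.prod_congr rfl
    intro p _
    rw [abs_neg, Nat.abs_cast]
  have h2 : ∏ p ∈ d.primeFactors, p ≤ d := Nat.le_of_dvd hd (Nat.prod_primeFactors_dvd d)
  rw [h1, div_le_div_iff₀ (by positivity) hd']
  have h3 : ((∏ p ∈ d.primeFactors, p : ℕ) : ℚ) ≤ d := by exact_mod_cast h2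
  nlinarith

theorem chi_le (d : ℕ) : chi d ≤ 1 / d := (le_abs_self _).trans (abs_chi_le d)

theorem neg_le_chi (d : ℕ) : -(1 / d) ≤ chi d := by
  have := neg_abs_le (chi d)
  linarith [abs_chi_le d]

theorem one_div_le {d : ℕ} {m : ℕ} (hm : 0 < m) (h : m ≤ d) : (1 : ℚ) / d ≤ 1 / m := by
  have h1 : (0 : ℚ) < m := by exact_mod_cast hm
  apply one_div_le_one_div_of_le h1
  exact_mod_cast h

theorem chi_le_of_le {d m : ℕ} (hm : 0 < m) (h : m ≤ d) : chi d ≤ 1 / m :=
  (chi_le d).trans (one_div_le hm h)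

theorem le_chi_of_le {d m : ℕ} (hm : 0 < m) (h : m ≤ d) : -(1 / m : ℚ) ≤ chi d := by
  have h1 := neg_le_chi d
  have h2 := one_div_le hm h
  linarith

theorem chi_nonpos_of_isPrimePow {d : ℕ} (h : IsPrimePow d) : chi d ≤ 0 := by
  obtain ⟨p, k, hp, hk, rfl⟩ := h
  exact (chi_prime_pow_neg hp.nat_prime hk.ne').le

theorem chi_two : chi 2 = -1 / 2 := by
  have := chi_prime Nat.prime_two
  simpa using this

theorem chi_three : chi 3 = -1 / 3 := by
  have := chi_prime Nat.prime_three
  simpa using this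

theorem chi_four : chi 4 = -1 / 8 := by
  have h := chi_prime_pow Nat.prime_two two_ne_zero
  norm_num at h
  rw [h]
  norm_num

theorem chi_nine : chi 9 = -1 / 27 := by
  have h := chi_prime_pow Nat.prime_three two_ne_zero
  norm_num at h
  rw [h]
  norm_num

theorem pp (p k : ℕ) (hp : p.Prime) (hk : 0 < k) : IsPrimePow (p ^ k) :=
  ⟨p, k, hp.prime, hk, rfl⟩

theorem pp_prime {p : ℕ} (hp : p.Prime) : IsPrimePow p := hp.isPrimePow

theorem chi_le_sixth {d : ℕ} (h : 2 ≤ d) : chi d ≤ 1 / 6 := by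
  by_cases h6 : 6 ≤ d
  · simpa using chi_le_of_le (by norm_num) h6
  · have : chi d ≤ 0 := by
      apply chi_nonpos_of_isPrimePow
      have : d = 2 ∨ d = 3 ∨ d = 4 ∨ d = 5 := by omega
      rcases this with rfl | rfl | rfl | rfl
      · exact pp_prime (by norm_num)
      · exact pp_prime (by norm_num)
      · exact pp 2 2 (by norm_num) (by norm_num)
      · exact pp_prime (by norm_num)
    linarith

theorem chi_le_tenth {d : ℕ} (h : 2 ≤ d) (hd : d ≠ 6) : chi d ≤ 1 / 10 := by
  by_cases h6 : 10 ≤ d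
  · simpa using chi_le_of_le (by norm_num) h6
  · have : chi d ≤ 0 := by
      apply chi_nonpos_of_isPrimePow
      have : d = 2 ∨ d = 3 ∨ d = 4 ∨ d = 5 ∨ d = 7 ∨ d = 8 ∨ d = 9 := by omega
      rcases this with rfl | rfl | rfl | rfl | rfl | rfl | rfl
      · exact pp_prime (by norm_num)
      · exact pp_prime (by norm_num)
      · exact pp 2 2 (by norm_num) (by norm_num)
      · exact pp_prime (by norm_num)
      · exact pp_prime (by norm_num)
      · exact pp 2 3 (by norm_num) (by norm_num)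
      · exact pp 3 2 (by norm_num) (by norm_num)
    linarith

theorem neg_half_le_chi {d : ℕ} (h : 2 ≤ d) : -(1 / 2 : ℚ) ≤ chi d := by
  simpa using le_chi_of_le (by norm_num) h

theorem odd_le {d : ℕ} (hd : Odd d) (h : 2 ≤ d) : chi d ≤ 1 / 15 := by
  obtain ⟨e, he⟩ := hd
  by_cases h6 : 15 ≤ d
  · simpa using chi_le_of_le (by norm_num) h6
  · have : chi d ≤ 0 := by
      apply chi_nonpos_of_isPrimePow
      have : d = 3 ∨ d = 5 ∨ d = 7 ∨ d = 9 ∨ d = 11 ∨ d = 13 := by omega
      rcases this with rfl | rfl | rfl | rfl | rfl | rfl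
      · exact pp_prime (by norm_num)
      · exact pp_prime (by norm_num)
      · exact pp_prime (by norm_num)
      · exact pp 3 2 (by norm_num) (by norm_num)
      · exact pp_prime (by norm_num)
      · exact pp_prime (by norm_num)
    linarith

theorem odd_ge {d : ℕ} (hd : Odd d) (h : 2 ≤ d) : -(1 / 3 : ℚ) ≤ chi d := by
  obtain ⟨e, he⟩ := hd
  simpa using le_chi_of_le (m := 3) (by norm_num) (by omega)

theorem odd_ge_fifth {d : ℕ} (hd : Odd d) (h : 2 ≤ d) (h3 : d ≠ 3) : -(1 / 5 : ℚ) ≤ chi d := by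
  obtain ⟨e, he⟩ := hd
  simpa using le_chi_of_le (m := 5) (by norm_num) (by omega)

theorem odd_three {d : ℕ} (hd : Odd d) (h : 3 ∣ d) (h3 : d ≠ 3) : -(1 / 15 : ℚ) ≤ chi d := by
  obtain ⟨e, he⟩ := hd
  by_cases h9 : d = 9
  · rw [h9, chi_nine]
    norm_num
  · simpa using le_chi_of_le (m := 15) (by norm_num) (by omega)

theorem coprime_six {d : ℕ} (h2 : ¬ 2 ∣ d) (h3 : ¬ 3 ∣ d) (h : 2 ≤ d) : chi d ≤ 1 / 35 := by
  by_cases h6 : 35 ≤ d
  · simpa using chi_le_of_le (by norm_num) h6
  · have : chi d ≤ 0 := by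
      apply chi_nonpos_of_isPrimePow
      have : d = 5 ∨ d = 7 ∨ d = 11 ∨ d = 13 ∨ d = 17 ∨ d = 19 ∨ d = 23 ∨ d = 25 ∨ d = 29 ∨
        d = 31 := by omega
      rcases this with rfl | rfl | rfl | rfl | rfl | rfl | rfl | rfl | rfl | rfl
      · exact pp_prime (by norm_num)
      · exact pp_prime (by norm_num)
      · exact pp_prime (by norm_num)
      · exact pp_prime (by norm_num)
      · exact pp_prime (by norm_num)
      · exact pp_prime (by norm_num)
      · exact pp_prime (by norm_num)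
      · exact pp 5 2 (by norm_num) (by norm_num)
      · exact pp_prime (by norm_num)
      · exact pp_prime (by norm_num)
    linarith

theorem four_ge {d : ℕ} (h : 4 ∣ d) (hd : 2 ≤ d) : -(1 / 8 : ℚ) ≤ chi d := by
  by_cases h4 : d = 4
  · rw [h4, chi_four]
    norm_num
  · simpa using le_chi_of_le (m := 8) (by norm_num) (by omega)

theorem chi_two_mul {d : ℕ} (hd : Odd d) : chi (2 * d) = -chi d / 2 := by
  rw [chi_mul (by rwa [Nat.coprime_two_left]), chi_two]
  ring

theorem chi_three_mul {d : ℕ} (hd : ¬ 3 ∣ d) : chi (3 * d) = -chi d / 3 := by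
  rw [chi_mul ((Nat.Prime.coprime_iff_not_dvd Nat.prime_three).mpr hd), chi_three]
  ring

/-! ## The divisor sum -/

/-- `φ d * chi d` as an arithmetic function -/
def phichi : ArithmeticFunction ℚ := ⟨fun d => (Nat.totient d : ℚ) * chi d, by simp⟩

/-- `1 / n` as an arithmetic function -/
def invfun : ArithmeticFunction ℚ := ⟨fun d => 1 / (d : ℚ), by simp⟩

theorem phichi_apply (d : ℕ) : phichi d = (Nat.totient d : ℚ) * chi d := rfl

theorem invfun_apply (d : ℕ) : invfun d = 1 / (d : ℚ) := rfl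

theorem phichi_mult : phichi.IsMultiplicative := by
  refine ⟨?_, ?_⟩
  · rw [phichi_apply, chi_one]
    simp
  · intro m k h
    rw [phichi_apply, phichi_apply, phichi_apply, chi_mul h, Nat.totient_mul h]
    push_cast
    ring

theorem invfun_mult : invfun.IsMultiplicative := by
  refine ⟨?_, ?_⟩
  · rw [invfun_apply]
    simp
  · intro m k _
    rw [invfun_apply, invfun_apply, invfun_apply]
    push_cast
    rw [one_div_mul_one_div]

theorem phichi_prime_pow {p k : ℕ} (hp : p.Prime) :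
    phichi (p ^ (k + 1)) = -((p : ℚ) - 1) / (p : ℚ) ^ (k + 1) := by
  have hp0 : (p : ℚ) ≠ 0 := by exact_mod_cast hp.ne_zero
  rw [phichi_apply, chi_prime_pow hp (Nat.succ_ne_zero k), Nat.totient_prime_pow_succ hp]
  have h1 : ((p ^ k * (p - 1) : ℕ) : ℚ) = (p : ℚ) ^ k * ((p : ℚ) - 1) := by
    rw [Nat.cast_mul, Nat.cast_sub hp.one_le]
    push_cast
    ring
  have h2 : (p : ℚ) ^ (k + 1) = (p : ℚ) ^ k * p := pow_succ _ _
  have h3 : (p : ℚ) ^ k ≠ 0 := pow_ne_zero _ hp0
  rw [h1, Nat.succ_eq_add_one, h2]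
  field_simp

theorem sum_phichi_prime_pow {p : ℕ} (hp : p.Prime) (k : ℕ) :
    ∑ i ∈ range (k + 1), phichi (p ^ i) = 1 / (p : ℚ) ^ k := by
  have hp0 : (p : ℚ) ≠ 0 := by exact_mod_cast hp.ne_zero
  induction k with
  | zero =>
    rw [Finset.sum_range_one, pow_zero, pow_zero, phichi_apply, chi_one]
    simp
  | succ k ih =>
    rw [Finset.sum_range_succ, ih, phichi_prime_pow hp]
    field_simp
    ring

theorem sum_phichi (n : ℕ) :
    ∑ d ∈ n.divisors, (Nat.totient d : ℚ) * chi d = 1 / n := by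
  have key : phichi * (ArithmeticFunction.zeta : ArithmeticFunction ℚ) = invfun := by
    rw [(phichi_mult.mul ArithmeticFunction.isMultiplicative_zeta.natCast).eq_iff_eq_on_prime_powers
      _ _ invfun_mult]
    intro p k hp
    rw [ArithmeticFunction.coe_mul_zeta_apply, invfun_apply, Nat.divisors_prime_pow hp,
      Finset.sum_map]
    simp only [Function.Embedding.coeFn_mk]
    rw [sum_phichi_prime_pow hp]
    push_cast
    rfl
  have h := congrArg (fun f => f n) key
  simp only [ArithmeticFunction.coe_mul_zeta_apply] at h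
  exact h

end Pool.Agent.U68.HX
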