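import Pool.Agent.U15.DP.Avg
import Pool.Agent.U68.HX.Chi

set_option autoImplicit false

/-!
# The sum of `x (1 - x)` over the units

For `z` in `ZMod n` of additive order `d` the sum of `Q (u z)`, `Q z = {z / n} (1 - {z / n})`, over the units `u` is
`φ n (1 - chi d) / 6`.
-/

namespace Pool.Agent.U68.HX

open Finset Pool.Agent.U15.DP

/-- `{x} (1 - {x})` -/
def qd (x : ℚ) : ℚ := Int.fract x * (1 - Int.fract x)

theorem qd_add_int (x : ℚ) (m : ℤ) : qd (x + m) = qd x := by
  unfold qd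
  rw [Int.fract_add_intCast]

theorem qd_fract (x : ℚ) : qd (Int.fract x) = qd x := by
  unfold qd
  rw [Int.fract_fract]

theorem qd_of_mem {x : ℚ} (h0 : 0 ≤ x) (h1 : x < 1) : qd x = x * (1 - x) := by
  unfold qd
  rw [Int.fract_eq_self.mpr ⟨h0, h1⟩]

theorem qd_neg (x : ℚ) : qd (-x) = qd x := by
  unfold qd
  by_cases h : Int.fract x = 0
  · rw [Int.fract_neg_eq_zero.mpr h, h]
  · rw [Int.fract_neg h]
    ring

/-- the sum over the reduced fractions with denominator `d` -/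
def Sd (d : ℕ) : ℚ := ∑ k ∈ range d, if Nat.Coprime d k then qd ((k : ℚ) / d) else 0

theorem sum_qd {m : ℕ} (hm : 0 < m) : ∑ k ∈ range m, qd ((k : ℚ) / m) = (m - 1 / (m : ℚ)) / 6 := by
  have hm' : (0 : ℚ) < m := by exact_mod_cast hm
  have h1 : ∀ k ∈ range m, qd ((k : ℚ) / m) = (k : ℚ) / m - (k : ℚ) ^ 2 / (m : ℚ) ^ 2 := by
    intro k hk
    rw [mem_range] at hk
    have hk' : (k : ℚ) < m := by exact_mod_cast hk
    rw [qd_of_mem (by positivity) (by rwa [div_lt_one hm'])]
    field_simp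
  rw [Finset.sum_congr rfl h1, Finset.sum_sub_distrib, ← Finset.sum_div, ← Finset.sum_div]
  have h2 : ∀ N : ℕ, ∑ k ∈ range N, (k : ℚ) = (N : ℚ) * (N - 1) / 2 := by
    intro N
    induction N with
    | zero => simp
    | succ N ih =>
      rw [Finset.sum_range_succ, ih]
      push_cast
      ring
  have h3 : ∀ N : ℕ, ∑ k ∈ range N, (k : ℚ) ^ 2 = (N : ℚ) * (N - 1) * (2 * N - 1) / 6 := by
    intro N
    induction N with
    | zero => simp
    | succ N ih =>
      rw [Finset.sum_range_succ, ih]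
      push_cast
      ring
  rw [h2, h3]
  field_simp
  ring

theorem sum_divisors_Sd {m : ℕ} (hm : 0 < m) :
    ∑ d ∈ m.divisors, Sd d = ∑ k ∈ range m, qd ((k : ℚ) / m) := by
  have hmaps : ∀ k ∈ range m, m / Nat.gcd m k ∈ m.divisors := by
    intro k _
    rw [Nat.mem_divisors]
    exact ⟨Nat.div_dvd_of_dvd (Nat.gcd_dvd_left m k), hm.ne'⟩
  rw [← Finset.sum_fiberwise_of_maps_to hmaps]
  apply Finset.sum_congr rfl
  intro d hd
  rw [Nat.mem_divisors] at hd
  obtain ⟨g, hg⟩ := hd.1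
  have hd0 : 0 < d := Nat.pos_of_ne_zero (by rintro rfl; simp at hg; omega)
  have hg0 : 0 < g := Nat.pos_of_ne_zero (by rintro rfl; simp at hg; omega)
  unfold Sd
  rw [← Finset.sum_filter]
  refine Finset.sum_bij (fun j _ => g * j) ?_ ?_ ?_ ?_
  · intro j hj
    rw [mem_filter, mem_range] at hj
    rw [mem_filter, mem_range, hg]
    refine ⟨?_, ?_⟩
    · rw [mul_comm d g]
      exact Nat.mul_lt_mul_of_pos_left hj.1 hg0
    · rw [mul_comm d g, Nat.gcd_mul_left, Nat.Coprime.gcd_eq_one hj.2, mul_one,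
        Nat.mul_div_cancel_left _ hg0]
  · intro j _ j' _ h
    exact Nat.eq_of_mul_eq_mul_left hg0 h
  · intro k hk
    rw [mem_filter, mem_range] at hk
    obtain ⟨hk1, hk2⟩ := hk
    have h1 : Nat.gcd m k = g := by
      have h2 := Nat.mul_div_cancel' (Nat.gcd_dvd_left m k)
      rw [hk2] at h2
      have h3 : d * Nat.gcd m k = d * g := by rw [← hg, mul_comm]; exact h2
      exact Nat.eq_of_mul_eq_mul_left hd0 h3
    obtain ⟨j, hj⟩ : g ∣ k := h1 ▸ Nat.gcd_dvd_right m k
    refine ⟨j, ?_, hj.symm⟩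
    rw [mem_filter, mem_range]
    refine ⟨?_, ?_⟩
    · have h2 : g * j < g * d := by rw [← hj, mul_comm g d, ← hg]; exact hk1
      exact lt_of_mul_lt_mul_left h2 (Nat.zero_le g)
    · have h2 : g * Nat.gcd d j = g * 1 := by
        rw [← Nat.gcd_mul_left, mul_one, mul_comm g d, ← hg, ← hj, h1]
      exact Nat.eq_of_mul_eq_mul_left hg0 h2
  · intro j hj
    rw [hg]
    have h1 : (d : ℚ) ≠ 0 := by exact_mod_cast hd0.ne'
    have h2 : (g : ℚ) ≠ 0 := by exact_mod_cast hg0.ne'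
    congr 1
    push_cast
    field_simp

theorem sum_div' {m : ℕ} (hm : 0 < m) (F : ℕ → ℚ) :
    ∑ d ∈ m.divisors, F d = ∑ d ∈ m.properDivisors, F d + F m := by
  rw [← Nat.insert_self_properDivisors hm.ne', Finset.sum_insert Nat.self_notMem_properDivisors,
    add_comm]

/-- the value of `Sd` -/
theorem Sd_eq (m : ℕ) (hm : 0 < m) : Sd m = (Nat.totient m : ℚ) * (1 - chi m) / 6 := by
  induction m using Nat.strong_induction_on with
  | _ m ih =>
    have h1 := sum_divisors_Sd hm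
    rw [sum_qd hm, sum_div' hm] at h1
    have h2 : ∑ d ∈ m.properDivisors, Sd d =
        ∑ d ∈ m.properDivisors, (Nat.totient d : ℚ) * (1 - chi d) / 6 := by
      apply Finset.sum_congr rfl
      intro d hd
      rw [Nat.mem_properDivisors] at hd
      exact ih d hd.2 (Nat.pos_of_dvd_of_pos hd.1 hm)
    have h3 : ∑ d ∈ m.divisors, (Nat.totient d : ℚ) * (1 - chi d) / 6 = (m - 1 / (m : ℚ)) / 6 := by
      rw [← Finset.sum_div]
      have h4 : ∑ d ∈ m.divisors, (Nat.totient d : ℚ) * (1 - chi d) =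
          ∑ d ∈ m.divisors, (Nat.totient d : ℚ) - ∑ d ∈ m.divisors, (Nat.totient d : ℚ) * chi d := by
        rw [← Finset.sum_sub_distrib]
        apply Finset.sum_congr rfl
        intro d _
        ring
      rw [h4, sum_phichi]
      congr 2
      have := Nat.sum_totient m
      exact_mod_cast this
    rw [sum_div' hm] at h3
    rw [h2] at h1
    linarith

section

variable {n : ℕ} [NeZero n]

/-- `{z / n} (1 - {z / n})` -/
def Q (z : ZMod n) : ℚ := fr z * (1 - fr z)

theorem Q_eq_qd (z : ZMod n) : Q z = qd (fr z) := (qd_of_mem (fr_nonneg z) (fr_lt_one z)).symm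

theorem Q_neg (z : ZMod n) : Q (-z) = Q z := by
  rw [Q_eq_qd, Q_eq_qd, fr_neg, qd_fract, qd_neg]

omit [NeZero n] in
theorem Q_zero : Q (0 : ZMod n) = 0 := by
  unfold Q
  rw [fr_zero]
  ring

/-- the sum over the units -/
def M (z : ZMod n) : ℚ := ∑ u : (ZMod n)ˣ, Q ((u : ZMod n) * z)

theorem sum_Q_units : ∑ v : (ZMod n)ˣ, Q (v : ZMod n) = Sd n := by
  have h := sum_units_eq (n := n) (fun k => qd ((k : ℚ) / n))
  unfold Sd
  rw [← h]
  apply Finset.sum_congr rfl
  intro v _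
  rw [Q_eq_qd]
  rfl

theorem M_eq {z : ZMod n} {d e g : ℕ} (hg : 0 < g) (hn : n = g * d) (hz : z.val = g * e)
    (hde : Nat.Coprime e d) [NeZero d] :
    (Fintype.card (ZMod d)ˣ : ℚ) * M z = Fintype.card (ZMod n)ˣ * Sd d := by
  have hdn : d ∣ n := ⟨g, by rw [hn]; ring⟩
  have hd0 : (0 : ℚ) < d := cast_pos' (n := d)
  have hg0 : (0 : ℚ) < g := by exact_mod_cast hg
  have hnq : (n : ℚ) = g * d := by exact_mod_cast hn
  have key : ∀ u : (ZMod n)ˣ, Q ((u : ZMod n) * z) =
      qd ((((ZMod.unitsMap hdn u : (ZMod d)ˣ) : ZMod d).val : ℚ) * e / d) := by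
    intro u
    rw [Q_eq_qd, fr_mul, qd_fract]
    have h1 : (((u : ZMod n).val : ℚ) * fr z) = ((u : ZMod n).val : ℚ) * e / d := by
      unfold fr
      rw [hz, hnq]
      push_cast
      field_simp
    rw [h1]
    have h2 : ((ZMod.unitsMap hdn u : (ZMod d)ˣ) : ZMod d).val = (u : ZMod n).val % d := by
      rw [ZMod.unitsMap_val, ZMod.cast_eq_val, ZMod.val_natCast]
    rw [h2]
    have h3 := Nat.div_add_mod (u : ZMod n).val d
    generalize (u : ZMod n).val / d = q at h3
    generalize (u : ZMod n).val % d = r at h3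
    have h4 : (((u : ZMod n).val : ℕ) : ℚ) = (d : ℚ) * (q : ℚ) + (r : ℚ) := by
      exact_mod_cast h3.symm
    have h5 : (((u : ZMod n).val : ℕ) : ℚ) * e / d = (r : ℚ) * e / d +
        (((q : ℤ) * (e : ℤ) : ℤ) : ℚ) := by
      rw [h4]
      push_cast
      field_simp
      ring
    rw [h5, qd_add_int]
  unfold M
  rw [Finset.sum_congr rfl (fun u _ => key u)]
  rw [avg_surj (ZMod.unitsMap hdn) (ZMod.unitsMap_surjective hdn)
    (fun v : (ZMod d)ˣ => qd (((v : ZMod d).val : ℚ) * e / d))]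
  congr 1
  rw [← sum_Q_units]
  rw [← Equiv.sum_comp (Equiv.mulRight (ZMod.unitOfCoprime e hde)) (fun v : (ZMod d)ˣ => Q (v : ZMod d))]
  apply Finset.sum_congr rfl
  intro v _
  rw [Equiv.coe_mulRight, Units.val_mul, ZMod.coe_unitOfCoprime, Q_eq_qd]
  have h1 : ((v : ZMod d) * (e : ZMod d)) = (((((v : ZMod d).val : ℤ) * (e : ℤ) : ℤ)) : ZMod d) := by
    rw [Int.cast_mul, intCast_val, Int.cast_natCast]
  rw [h1, fr_intCast, qd_fract]
  push_cast
  rfl

/-- the function `chi` of the order -/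
noncomputable def X (z : ZMod n) : ℚ := chi (addOrderOf z)

/-- the mean value of `Q (u z)` over the units is `(1 - X z) / 6` -/
theorem M_main (z : ZMod n) : M z = (Fintype.card (ZMod n)ˣ : ℚ) * (1 - X z) / 6 := by
  have hn0 : 0 < n := Nat.pos_of_ne_zero (NeZero.ne n)
  obtain ⟨e, he⟩ := Nat.gcd_dvd_left z.val n
  obtain ⟨d, hd⟩ := Nat.gcd_dvd_right z.val n
  have hg0 : 0 < Nat.gcd z.val n := Nat.gcd_pos_of_pos_right _ hn0
  have hord : addOrderOf z = d := by
    have h1 := ZMod.addOrderOf_coe z.val hn0.ne'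
    rw [ZMod.natCast_zmod_val, Nat.gcd_comm] at h1
    rw [h1]
    exact Nat.div_eq_of_eq_mul_right hg0 hd
  set g := Nat.gcd z.val n with hg
  have hd0 : 0 < d := by
    rcases Nat.eq_zero_or_pos d with h | h
    · rw [h, mul_zero] at hd
      omega
    · exact h
  have : NeZero d := ⟨hd0.ne'⟩
  have hde : Nat.Coprime e d := by
    have h1 : g = Nat.gcd (g * e) (g * d) := by
      rw [← he, ← hd]
    rw [Nat.gcd_mul_left] at h1
    have h2 : g * 1 = g * Nat.gcd e d := by rw [mul_one]; exact h1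
    exact (Nat.eq_of_mul_eq_mul_left hg0 h2).symm
  have h := M_eq hg0 hd he hde
  rw [Sd_eq d hd0, ZMod.card_units_eq_totient d] at h
  have hc : (Nat.totient d : ℚ) ≠ 0 := by
    have := Nat.totient_pos.mpr hd0
    exact_mod_cast this.ne'
  unfold X
  rw [hord]
  have h2 : (Nat.totient d : ℚ) * M z =
      (Nat.totient d : ℚ) * ((Fintype.card (ZMod n)ˣ : ℚ) * (1 - chi d) / 6) := by
    rw [h]
    ring
  exact mul_left_cancel₀ hc h2

end

end Pool.Agent.U68.HX
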