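import Pool.Agent.U68.HX.Ord

set_option autoImplicit false

/-!
# The bound `G < 3 / 2`
-/

namespace Pool.Agent.U68.HX

open Finset Pool.Agent.U15.DP

variable {n : ℕ} [NeZero n] {x y z t α β : ZMod n}

/-- the contribution of one of the two triples -/
noncomputable def UU (t α β : ZMod n) : ℚ := psi t α + psi t β - X (α - β)

omit [NeZero n] in
theorem UU_comm (t α β : ZMod n) : UU t α β = UU t β α := by
  unfold UU
  rw [X_sub_comm α β]
  ring

theorem three_of_dvd {d : ℕ} (hd : Odd d) (h : 2 ≤ d) : 3 ≤ d := by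
  obtain ⟨e, he⟩ := hd
  omega

/-- if exactly one of the orders of `x`, `y` ... -/
theorem oo_three (hx : Odd (addOrderOf x)) (hy : Odd (addOrderOf y)) (hy0 : y ≠ 0)
    (ht : addOrderOf t = 2) (hx3 : addOrderOf x = 3) (hy3 : addOrderOf y ≠ 3) :
    UU t x y ≤ 4 / 5 := by
  unfold UU
  rw [psi_odd ht hx, psi_odd ht hy]
  have h1 : X x = -1 / 3 := by
    unfold X
    rw [hx3, chi_three]
  have h2 := le_X_odd' hy hy0 hy3
  by_cases h3 : 3 ∣ addOrderOf y
  · have h4 := le_X_three hy h3 hy3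
    have h5 : x - y ≠ 0 := by
      intro h
      rw [sub_eq_zero] at h
      rw [h] at hx3
      exact hy3 hx3
    have h6 : addOrderOf (x - y) ≠ 3 := by
      intro h
      rcases eq_or_neg_of_three hx3 h with h7 | h7
      · apply hy0
        have : y = x - (x - y) := by ring
        rw [this, h7, sub_self]
      · apply hy3
        have h8 : y = 3 • x - x := by
          have h9 : y = x - (x - y) := by ring
          rw [h9, h7]
          simp only [nsmul_eq_mul]
          push_cast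
          ring
        have h10 : (3 : ℕ) • x = 0 := by
          have := addOrderOf_nsmul_eq_zero x
          rwa [hx3] at this
        rw [h8, h10, zero_sub, addOrderOf_neg, hx3]
    have h7 := le_X_odd' (odd_sub hx hy) h5 h6
    rw [h1]
    linarith
  · have h4 : X (x - y) = -X y / 3 := by
      unfold X
      rw [sub_eq_add_neg, ord_add_coprime, hx3, addOrderOf_neg, chi_three_mul h3]
      rw [hx3, addOrderOf_neg]
      exact (Nat.Prime.coprime_iff_not_dvd Nat.prime_three).mpr h3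
    rw [h4, h1]
    linarith

theorem UU_oo (ht : addOrderOf t = 2) (hx : Odd (addOrderOf x)) (hy : Odd (addOrderOf y))
    (hx0 : x ≠ 0) (hy0 : y ≠ 0) (hxy : x ≠ y)
    (h33 : ¬ (addOrderOf x = 3 ∧ addOrderOf y = 3)) : UU t x y ≤ 4 / 5 := by
  by_cases hx3 : addOrderOf x = 3
  · exact oo_three hx hy hy0 ht hx3 (fun h => h33 ⟨hx3, h⟩)
  by_cases hy3 : addOrderOf y = 3
  · rw [UU_comm]
    exact oo_three hy hx hx0 ht hy3 hx3
  unfold UU
  rw [psi_odd ht hx, psi_odd ht hy]
  have h1 := le_X_odd' hx hx0 hx3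
  have h2 := le_X_odd' hy hy0 hy3
  have h0 : x - y ≠ 0 := sub_ne_zero.mpr hxy
  by_cases h3 : addOrderOf (x - y) = 3
  · have h4 := le_X_odd (odd_sub hx hy) h0
    by_cases h5 : 3 ∣ addOrderOf x
    · have := le_X_three hx h5 hx3
      linarith
    · have h6 : 3 ∣ addOrderOf y := by
        by_contra h7
        exact prime_sub Nat.prime_three h5 h7 (by rw [h3])
      have := le_X_three hy h6 hy3
      linarith
  · have h4 := le_X_odd' (odd_sub hx hy) h0 h3
    linarith

theorem UU_oh (ht : addOrderOf t = 2) (hx : Odd (addOrderOf x)) (hy : Odd (addOrderOf (y + t)))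
    (hx0 : x ≠ 0) (hyt : y + t ≠ 0) : UU t x y ≤ 19 / 30 := by
  unfold UU
  rw [psi_odd ht hx, psi_h ht hy]
  have h1 : X (x - y) = -X (x - (y + t)) / 2 := by
    have h2 := X_add_t ht (odd_sub hx hy)
    have h3 : x - (y + t) + t = x - y := by ring
    rwa [h3] at h2
  rw [h1]
  by_cases h : x = y + t
  · rw [h, sub_self, X_zero]
    linarith
  · have h2 := X_odd_le (odd_sub hx hy) (sub_ne_zero.mpr h)
    have h3 := le_X_odd hx hx0
    have h4 := X_odd_le hy hyt
    linarith

theorem UU_hh (ht : addOrderOf t = 2) (hx : Odd (addOrderOf (x + t)))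
    (hy : Odd (addOrderOf (y + t))) (hxt : x + t ≠ 0) (hyt : y + t ≠ 0) (hxy : x ≠ y) :
    UU t x y ≤ 19 / 30 := by
  unfold UU
  rw [psi_h ht hx, psi_h ht hy]
  have h1 : Odd (addOrderOf (x - y)) := by
    have h2 := odd_sub hx hy
    have h3 : x + t - (y + t) = x - y := by ring
    rwa [h3] at h2
  have h2 := X_odd_le hx hxt
  have h3 := X_odd_le hy hyt
  have h4 := le_X_odd h1 (sub_ne_zero.mpr hxy)
  linarith

omit [NeZero n] in
/-- differences with an element of the third type -/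
theorem four_sub_odd (hx : Odd (addOrderOf x)) (hy : Four t y) : Four t (y - x) := by
  refine ⟨?_, ?_⟩
  · intro h
    apply hy.1
    have := odd_add h hx
    rwa [sub_add_cancel] at this
  · intro h
    apply hy.2
    have := odd_add h hx
    have h3 : y - x + t + x = y + t := by ring
    rwa [h3] at this

omit [NeZero n] in
theorem four_sub_h (ht : addOrderOf t = 2) (hx : Odd (addOrderOf (x + t))) (hy : Four t y) :
    Four t (y - x) := by
  refine ⟨?_, ?_⟩
  · intro h
    apply hy.2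
    have := odd_add h hx
    have h3 : y - x + (x + t) = y + t := by ring
    rwa [h3] at this
  · intro h
    apply hy.1
    have := odd_add h hx
    have h3 : y - x + t + (x + t) = y + (t + t) := by ring
    rwa [h3, t_add_t ht, add_zero] at this

theorem UU_o4 (ht : addOrderOf t = 2) (hx : Odd (addOrderOf x)) (hy : Four t y) (hx0 : x ≠ 0) :
    UU t x y ≤ 5 / 8 := by
  unfold UU
  rw [psi_odd ht hx, psi_four ht hy, X_sub_comm]
  have h1 := le_X_odd hx hx0
  have h2 := le_X_four ht (four_sub_odd hx hy)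
  linarith

theorem UU_h4 (ht : addOrderOf t = 2) (hx : Odd (addOrderOf (x + t))) (hy : Four t y)
    (hxt : x + t ≠ 0) : UU t x y ≤ 5 / 8 := by
  unfold UU
  rw [psi_h ht hx, psi_four ht hy, X_sub_comm]
  have h1 := X_odd_le hx hxt
  have h2 := le_X_four ht (four_sub_h ht hx hy)
  linarith

theorem UU_44 (ht : addOrderOf t = 2) (hx : Four t x) (hy : Four t y) (hxy : x ≠ y) :
    UU t x y ≤ 1 / 2 := by
  unfold UU
  rw [psi_four ht hx, psi_four ht hy]
  have h1 := le_X (sub_ne_zero.mpr hxy)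
  linarith

/-- bound if one of the elements has the third type -/
theorem UU_four (ht : addOrderOf t = 2) (hx0 : x ≠ 0) (hxt : x + t ≠ 0) (hy : Four t y)
    (hxy : x ≠ y) : UU t x y ≤ 5 / 8 := by
  rcases trich t x with h | h | h
  · exact UU_o4 ht h hy hx0
  · exact UU_h4 ht h hy hxt
  · have := UU_44 ht h hy hxy
    linarith

/-- bound if one of the elements has the second type -/
theorem UU_h (ht : addOrderOf t = 2) (hx0 : x ≠ 0) (hxt : x + t ≠ 0)
    (hy : Odd (addOrderOf (y + t))) (hyt : y + t ≠ 0) (hxy : x ≠ y) : UU t x y ≤ 19 / 30 := by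
  rcases trich t x with h | h | h
  · exact UU_oh ht h hy hx0 hyt
  · exact UU_hh ht h hy hxt hyt hxy
  · rw [UU_comm]
    have := UU_h4 ht hy h hyt
    linarith

/-- the general bound -/
theorem UU_le (ht : addOrderOf t = 2) (hx0 : x ≠ 0) (hxt : x + t ≠ 0) (hy0 : y ≠ 0)
    (hyt : y + t ≠ 0) (hxy : x ≠ y) (h33 : ¬ (addOrderOf x = 3 ∧ addOrderOf y = 3)) :
    UU t x y ≤ 4 / 5 := by
  rcases trich t y with h | h | h
  · rcases trich t x with h' | h' | h'
    · exact UU_oo ht h' h hx0 hy0 hxy h33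
    · rw [UU_comm]
      have := UU_oh ht h h' hy0 hxt
      linarith
    · rw [UU_comm]
      have := UU_o4 ht h h' hy0
      linarith
  · have := UU_h ht hx0 hxt h hyt hxy
    linarith
  · have := UU_four ht hx0 hxt h hxy
    linarith

/-- **the even case** -/
theorem even_case {a₂ a₃ b₂ b₃ : ZMod n} (ht : addOrderOf t = 2)
    (ha2 : a₂ ≠ 0) (ha2t : a₂ + t ≠ 0) (ha3 : a₃ ≠ 0) (ha3t : a₃ + t ≠ 0) (ha : a₂ ≠ a₃)
    (hb2 : b₂ ≠ 0) (hb2t : b₂ + t ≠ 0) (hb3 : b₃ ≠ 0) (hb3t : b₃ + t ≠ 0) (hb : b₂ ≠ b₃)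
    (h22 : a₂ - b₂ + t ≠ 0) (h23 : a₂ - b₃ + t ≠ 0) (h32 : a₃ - b₂ + t ≠ 0)
    (h33 : a₃ - b₃ + t ≠ 0)
    (hca : ¬ (addOrderOf a₂ = 3 ∧ addOrderOf a₃ = 3))
    (hcb : ¬ (addOrderOf b₂ = 3 ∧ addOrderOf b₃ = 3))
    (hodd : Odd (addOrderOf (a₂ + t)) ∨ Odd (addOrderOf (a₃ + t)) ∨ Odd (addOrderOf (b₂ + t)) ∨
      Odd (addOrderOf (b₃ + t)) ∨ ((Four t a₂ ∨ Four t a₃) ∧ (Four t b₂ ∨ Four t b₃))) :
    UU t a₂ a₃ + UU t b₂ b₃ + (X (a₂ - b₂ + t) + X (a₂ - b₃ + t) + X (a₃ - b₂ + t) +
      X (a₃ - b₃ + t)) < 2 := by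
  have s22 := X_le h22
  have s23 := X_le h23
  have s32 := X_le h32
  have s33 := X_le h33
  -- an element of the second type
  have key : ∀ {a₂ a₃ b₂ b₃ : ZMod n}, a₂ ≠ 0 → a₂ + t ≠ 0 → a₃ ≠ 0 → a₃ + t ≠ 0 → a₂ ≠ a₃ →
      b₂ ≠ 0 → b₂ + t ≠ 0 → b₃ ≠ 0 → b₃ + t ≠ 0 → b₂ ≠ b₃ →
      a₂ - b₂ + t ≠ 0 → a₂ - b₃ + t ≠ 0 → a₃ - b₂ + t ≠ 0 → a₃ - b₃ + t ≠ 0 →
      ¬ (addOrderOf b₂ = 3 ∧ addOrderOf b₃ = 3) → Odd (addOrderOf (a₃ + t)) →
      UU t a₂ a₃ + UU t b₂ b₃ + (X (a₂ - b₂ + t) + X (a₂ - b₃ + t) + X (a₃ - b₂ + t) +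
      X (a₃ - b₃ + t)) < 2 := by
    intro a₂ a₃ b₂ b₃ ha2 ha2t ha3 ha3t ha hb2 hb2t hb3 hb3t hb h22 h23 h32 h33 hcb ho
    have u1 := UU_h ht ha2 ha2t ho ha3t ha
    have u2 := UU_le ht hb2 hb2t hb3 hb3t hb hcb
    have s22 := X_le h22
    have s23 := X_le h23
    have s32 := X_le h32
    have s33 := X_le h33
    have six : ∀ b : ZMod n, addOrderOf (a₃ - b + t) = 6 → Odd (addOrderOf (b + t)) := by
      intro b h6
      -- the element `a₃ - b + t` of order `6` has the second type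
      have h1 : Odd (addOrderOf (a₃ - b + t + t)) := by
        rcases trich t (a₃ - b + t) with h | h | h
        · rw [h6] at h
          exact absurd h (by decide)
        · exact h
        · have := four_dvd ht h
          rw [h6] at this
          omega
      have h2 := odd_sub ho h1
      have h3 : a₃ + t - (a₃ - b + t + t) = b - t := by ring
      have h4 : b - t = b + t := by rw [sub_eq_add_neg, neg_t ht]
      rwa [h3, h4] at h2
    by_cases h2 : addOrderOf (a₃ - b₂ + t) = 6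
    · have u3 := UU_h ht hb3 hb3t (six b₂ h2) hb2t (Ne.symm hb)
      rw [UU_comm] at u3
      linarith
    by_cases h3 : addOrderOf (a₃ - b₃ + t) = 6
    · have u3 := UU_h ht hb2 hb2t (six b₃ h3) hb3t hb
      linarith
    have s1 := X_le_tenth h32 h2
    have s2 := X_le_tenth h33 h3
    linarith
  have flip : ∀ a b : ZMod n, a - b + t = -(b - a + t) := by
    intro a b
    rw [neg_add, neg_t ht, neg_sub]
  have flip0 : ∀ a b : ZMod n, a - b + t ≠ 0 → b - a + t ≠ 0 := by
    intro a b h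
    rw [flip a b] at h
    exact neg_ne_zero.mp h
  have flipX : ∀ a b : ZMod n, X (a - b + t) = X (b - a + t) := by
    intro a b
    rw [flip a b, X_neg]
  rcases hodd with h | h | h | h | ⟨h, h'⟩
  · have := key ha3 ha3t ha2 ha2t (Ne.symm ha) hb2 hb2t hb3 hb3t hb h32 h33 h22 h23 hcb h
    rw [UU_comm t a₃ a₂] at this
    linarith
  · exact key ha2 ha2t ha3 ha3t ha hb2 hb2t hb3 hb3t hb h22 h23 h32 h33 hcb h
  · have := key hb3 hb3t hb2 hb2t (Ne.symm hb) ha2 ha2t ha3 ha3t ha (flip0 _ _ h23)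
      (flip0 _ _ h33) (flip0 _ _ h22) (flip0 _ _ h32) hca h
    rw [UU_comm t b₃ b₂, flipX b₃ a₂, flipX b₃ a₃, flipX b₂ a₂, flipX b₂ a₃] at this
    linarith
  · have := key hb2 hb2t hb3 hb3t hb ha2 ha2t ha3 ha3t ha (flip0 _ _ h22)
      (flip0 _ _ h32) (flip0 _ _ h23) (flip0 _ _ h33) hca h
    rw [flipX b₃ a₂, flipX b₃ a₃, flipX b₂ a₂, flipX b₂ a₃] at this
    linarith
  · have u1 : UU t a₂ a₃ ≤ 5 / 8 := by
      rcases h with h | h
      · rw [UU_comm]
        exact UU_four ht ha3 ha3t h (Ne.symm ha)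
      · exact UU_four ht ha2 ha2t h ha
    have u2 : UU t b₂ b₃ ≤ 5 / 8 := by
      rcases h' with h | h
      · rw [UU_comm]
        exact UU_four ht hb3 hb3t h (Ne.symm hb)
      · exact UU_four ht hb2 hb2t h hb
    linarith

/-- **the odd case**, one triple -/
theorem odd_triple (hx : Odd (addOrderOf x)) (hy : Odd (addOrderOf y)) (hx0 : x ≠ 0) (hy0 : y ≠ 0)
    (hxy : x ≠ y) (h33 : ¬ (addOrderOf x = 3 ∧ addOrderOf y = 3)) :
    -(X x + X y + X (x - y)) ≤ 3 / 5 := by
  have h0 : x - y ≠ 0 := sub_ne_zero.mpr hxy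
  have hz := odd_sub hx hy
  have nd : ∀ {u v w : ZMod n}, addOrderOf u = 3 → Odd (addOrderOf v) → Odd (addOrderOf w) →
      v ≠ 0 → w ≠ 0 → addOrderOf v ≠ 3 → addOrderOf w ≠ 3 → u = v + w ∨ u = v - w →
      -(X u + X v + X w) ≤ 3 / 5 := by
    intro u v w hu hv hw hv0 hw0 hv3 hw3 h
    have h1 : -(1 / 3 : ℚ) ≤ X u := by
      unfold X
      rw [hu, chi_three]
      norm_num
    have h2 := le_X_odd' hv hv0 hv3
    have h3 := le_X_odd' hw hw0 hw3
    by_cases h4 : 3 ∣ addOrderOf v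
    · have := le_X_three hv h4 hv3
      linarith
    · have h5 : 3 ∣ addOrderOf w := by
        by_contra h6
        rcases h with h | h
        · exact prime_add Nat.prime_three h4 h6 (by rw [← h, hu])
        · exact prime_sub Nat.prime_three h4 h6 (by rw [← h, hu])
      have := le_X_three hw h5 hw3
      linarith
  have three_sub : ∀ {u v : ZMod n}, addOrderOf u = 3 → addOrderOf v = 3 → u ≠ v →
      addOrderOf (u - v) = 3 := by
    intro u v hu hv huv
    rcases eq_or_neg_of_three hu hv with h | h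
    · exact absurd h.symm huv
    · have h1 : u - v = 3 • u - u := by
        rw [h]
        simp only [nsmul_eq_mul]
        push_cast
        ring
      have h10 : (3 : ℕ) • u = 0 := by
        have := addOrderOf_nsmul_eq_zero u
        rwa [hu] at this
      rw [h1, h10, zero_sub, addOrderOf_neg, hu]
  by_cases hx3 : addOrderOf x = 3
  · have hy3 : addOrderOf y ≠ 3 := fun h => h33 ⟨hx3, h⟩
    have hz3 : addOrderOf (x - y) ≠ 3 := by
      intro h
      apply hy3
      have h1 : x ≠ x - y := by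
        intro h2
        apply hy0
        have : y = x - (x - y) := by ring
        rw [this, ← h2, sub_self]
      have h2 := three_sub hx3 h h1
      have h3 : x - (x - y) = y := by ring
      rwa [h3] at h2
    exact nd hx3 hy hz hy0 h0 hy3 hz3 (Or.inl (by ring))
  by_cases hy3 : addOrderOf y = 3
  · have hz3 : addOrderOf (x - y) ≠ 3 := by
      intro h
      apply hx3
      have h4 : addOrderOf (y - x) = 3 := by rw [← neg_sub, addOrderOf_neg, h]
      have h1 : y ≠ y - x := by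
        intro h2
        apply hx0
        have : x = y - (y - x) := by ring
        rw [this, ← h2, sub_self]
      have h2 := three_sub hy3 h4 h1
      have h3 : y - (y - x) = x := by ring
      rwa [h3] at h2
    have := nd hy3 hx hz hx0 h0 hx3 hz3 (Or.inr (by ring))
    linarith
  by_cases hz3 : addOrderOf (x - y) = 3
  · have := nd hz3 hx hy hx0 hy0 hx3 hy3 (Or.inr rfl)
    linarith
  · have h1 := le_X_odd' hx hx0 hx3
    have h2 := le_X_odd' hy hy0 hy3
    have h3 := le_X_odd' hz h0 hz3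
    linarith

end Pool.Agent.U68.HX
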