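import Pool.Agent.U68.HX.Lst
import Pool.Agent.U15.DP.Num

set_option autoImplicit false

/-!
# The numerical theorem for families of nef classes
-/

namespace Pool.Agent.U68.HX

open Finset Pool.Agent.U15.DP

variable {ι : Type} [Fintype ι] {n : ℕ} [NeZero n]

/-- the list of the residues `c i ≠ 0`, with multiplicity `w i` -/
theorem exists_list (w : ι → ℕ) (c : ι → ZMod n) : ∃ M : List (ZMod n), (∀ x ∈ M, x ≠ 0) ∧
    M.sum = ∑ i, w i • c i ∧ ∀ m, SL M m = L w c m := by
  classical
  have key : ∀ s : Finset ι, ∃ M : List (ZMod n), (∀ x ∈ M, x ≠ 0) ∧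
      M.sum = ∑ i ∈ s, w i • c i ∧ ∀ m, SL M m = ∑ i ∈ s, (w i : ℚ) * fr (m * c i) := by
    intro s
    induction s using Finset.induction_on with
    | empty => exact ⟨[], by simp, by simp, fun m => by simp [SL]⟩
    | insert a s ha ih =>
      obtain ⟨M, h1, h2, h3⟩ := ih
      by_cases hc : c a = 0
      · refine ⟨M, h1, ?_, ?_⟩
        · rw [Finset.sum_insert ha, hc, smul_zero, zero_add, h2]
        · intro m
          rw [Finset.sum_insert ha, hc, mul_zero, fr_zero, mul_zero, zero_add, h3]
      · refine ⟨List.replicate (w a) (c a) ++ M, ?_, ?_, ?_⟩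
        · intro x hx
          rw [List.mem_append] at hx
          rcases hx with hx | hx
          · rw [List.eq_of_mem_replicate hx]
            exact hc
          · exact h1 x hx
        · rw [List.sum_append, List.sum_replicate, Finset.sum_insert ha, h2]
        · intro m
          rw [SL_append, Finset.sum_insert ha, h3]
          congr 1
          unfold SL
          rw [List.map_replicate, List.sum_replicate, nsmul_eq_mul]
  exact key Finset.univ

/-- the nef cone -/
structure Nef (p : Fin 3 → ι → ℕ) (d d' : ι → ℕ) : Prop where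
  pd : ∀ j i, p j i ≤ d i
  pd' : ∀ j i, p j i ≤ d' i
  sum : ∀ i, p 0 i + p 1 i + p 2 i = d i + d' i

/-- one of the alternatives -/
def AltN (p : Fin 3 → ι → ℕ) (d d' : ι → ℕ) (c : ι → ZMod n) (e l : Fin 3 → ZMod n)
    (m : ZMod n) : Prop :=
  (∃ j, L (p j) c m + fr (m * e j) + fr (m * l j) ≤ 1) ∨
    L d c m + ∑ k, fr (m * l k) ≤ 2 ∨ L d' c m + ∑ k, fr (m * e k) ≤ 2

variable {p : Fin 3 → ι → ℕ} {d d' : ι → ℕ} {c : ι → ZMod n} {e l : Fin 3 → ZMod n}

/-- **the numerical theorem** -/
theorem numeric (N : Nef p d d') (r : ∀ j, ∑ i, p j i • c i + e j + l j = 0)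
    (rD : ∑ i, d i • c i + ∑ k, l k = 0) (H : ∀ m, AltN p d d' c e l m) :
    (∃ j, ∑ i ∈ univ.filter (fun i => c i ≠ 0), p j i + ix (e j) + ix (l j) ≤ 3) ∨
    (L d c 1 + ∑ k, fr (1 * l k) ≤ 2 ∧ L d c (-1) + ∑ k, fr (-1 * l k) ≤ 2) ∨
    (L d' c 1 + ∑ k, fr (1 * e k) ≤ 2 ∧ L d' c (-1) + ∑ k, fr (-1 * e k) ≤ 2) := by
  classical
  set F : Fin 3 → ι → ℕ := fun j i => min (d i) (d' i) - p j i with hF
  set G : ι → ℕ := fun i => d' i - min (d i) (d' i) with hG
  set K : ι → ℕ := fun i => d i - min (d i) (d' i) with hK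
  have hP : ∀ j i, p j i + F j i = F 0 i + F 1 i + F 2 i + G i + K i := by
    intro j i
    have h0 := N.pd 0 i
    have h1 := N.pd 1 i
    have h2 := N.pd 2 i
    have h0' := N.pd' 0 i
    have h1' := N.pd' 1 i
    have h2' := N.pd' 2 i
    have hs := N.sum i
    simp only [hF, hG, hK]
    have hj : j = 0 ∨ j = 1 ∨ j = 2 := by omega
    rcases hj with rfl | rfl | rfl <;> omega
  have hd : ∀ i, d i = F 0 i + F 1 i + F 2 i + G i + 2 * K i := by
    intro i
    have h0 := N.pd 0 i
    have h1 := N.pd 1 i
    have h2 := N.pd 2 i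
    have h0' := N.pd' 0 i
    have h1' := N.pd' 1 i
    have h2' := N.pd' 2 i
    have hs := N.sum i
    simp only [hF, hG, hK]
    omega
  have hd' : ∀ i, d' i = F 0 i + F 1 i + F 2 i + K i + 2 * G i := by
    intro i
    have h0 := N.pd 0 i
    have h1 := N.pd 1 i
    have h2 := N.pd 2 i
    have h0' := N.pd' 0 i
    have h1' := N.pd' 1 i
    have h2' := N.pd' 2 i
    have hs := N.sum i
    simp only [hF, hG, hK]
    omega
  choose A hA1 hA2 hA3 using fun j => exists_list (F j) c
  obtain ⟨B, hB1, hB2, hB3⟩ := exists_list G c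
  obtain ⟨C, hC1, hC2, hC3⟩ := exists_list K c
  -- sums of rational numbers
  have lP : ∀ j m, L (p j) c m = ∑ k, L (F k) c m - L (F j) c m + L G c m + L K c m := by
    intro j m
    have h : L (p j) c m + L (F j) c m = L (F 0) c m + L (F 1) c m + L (F 2) c m + L G c m +
        L K c m := by
      unfold L
      simp only [← Finset.sum_add_distrib]
      apply Finset.sum_congr rfl
      intro i _
      have h1 : (p j i : ℚ) + F j i = F 0 i + F 1 i + F 2 i + G i + K i := by
        exact_mod_cast hP j i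
      linear_combination fr (m * c i) * h1
    rw [Fin.sum_univ_three]
    linarith
  have lD : ∀ m, L d c m = ∑ k, L (F k) c m + L G c m + 2 * L K c m := by
    intro m
    rw [Fin.sum_univ_three]
    unfold L
    rw [Finset.mul_sum]
    simp only [← Finset.sum_add_distrib]
    apply Finset.sum_congr rfl
    intro i _
    have h1 : (d i : ℚ) = F 0 i + F 1 i + F 2 i + G i + 2 * K i := by
      exact_mod_cast hd i
    linear_combination fr (m * c i) * h1
  have lD' : ∀ m, L d' c m = ∑ k, L (F k) c m + L K c m + 2 * L G c m := by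
    intro m
    rw [Fin.sum_univ_three]
    unfold L
    rw [Finset.mul_sum]
    simp only [← Finset.sum_add_distrib]
    apply Finset.sum_congr rfl
    intro i _
    have h1 : (d' i : ℚ) = F 0 i + F 1 i + F 2 i + K i + 2 * G i := by
      exact_mod_cast hd' i
    linear_combination fr (m * c i) * h1
  -- sums of residues
  have sP : ∀ j, ∑ i, p j i • c i = ∑ k, ∑ i, F k i • c i - ∑ i, F j i • c i + ∑ i, G i • c i +
      ∑ i, K i • c i := by
    intro j
    have h : ∑ i, p j i • c i + ∑ i, F j i • c i = ∑ i, F 0 i • c i + ∑ i, F 1 i • c i +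
        ∑ i, F 2 i • c i + ∑ i, G i • c i + ∑ i, K i • c i := by
      simp only [← Finset.sum_add_distrib]
      apply Finset.sum_congr rfl
      intro i _
      simp only [← add_smul]
      rw [hP]
    rw [Fin.sum_univ_three]
    linear_combination h
  have sD : ∑ i, d i • c i = ∑ k, ∑ i, F k i • c i + ∑ i, G i • c i + 2 * ∑ i, K i • c i := by
    rw [Fin.sum_univ_three, two_mul]
    simp only [← Finset.sum_add_distrib]
    apply Finset.sum_congr rfl
    intro i _
    simp only [← add_smul]
    rw [hd i, two_mul]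
  have S : DL A B C e l := by
    refine ⟨fun j => hA1 j, hB1, hC1, ?_, ?_⟩
    · intro j
      have := r j
      rw [sP] at this
      simp only [hA2, hB2, hC2]
      exact this
    · rw [sD] at rD
      simp only [hA2, hB2, hC2]
      exact rD
  have ePL : ∀ j m, PL A B C e l j m = L (p j) c m + fr (m * e j) + fr (m * l j) := by
    intro j m
    unfold PL
    simp only [hA3, hB3, hC3]
    rw [lP]
  have eHL : ∀ m, HL A B C l m = L d c m + ∑ k, fr (m * l k) := by
    intro m
    unfold HL
    simp only [hA3, hB3, hC3]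
    rw [lD]
  have eHL' : ∀ m, HL A C B e m = L d' c m + ∑ k, fr (m * e k) := by
    intro m
    unfold HL
    simp only [hA3, hB3, hC3]
    rw [lD']
  have main := S.main (by
    intro m
    unfold AltL
    simp only [ePL, eHL, eHL']
    exact H m)
  simp only [ePL, eHL, eHL'] at main
  rcases main with ⟨j, hj⟩ | h | h
  · left
    refine ⟨j, ?_⟩
    have h1 := L_add_neg (p j) c
    have h2 := fr_pair (e j)
    have h3 := fr_pair (l j)
    have h4 : ((∑ i ∈ univ.filter (fun i => c i ≠ 0), p j i + ix (e j) + ix (l j) : ℕ) : ℚ) ≤ 3 := by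
      push_cast at h1 ⊢
      linarith
    exact_mod_cast h4
  · right; left; exact h
  · right; right; exact h

end Pool.Agent.U68.HX
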