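import Pool.Agent.U68.HX.Quad

set_option autoImplicit false

/-!
# Eight branch curves: a line, a conic and the six boundary curves
-/

namespace Pool.Agent.U68.HX

open Finset Pool.Agent.U15.DP

variable {n : ℕ} [NeZero n]

/-- eight residues at the vertices of a cube, each side of the cube is a `Face` -/
structure Cube (p a₀ a₁ a₂ b₀ b₁ b₂ q : ZMod n) : Prop where
  F0 : Face p a₁ a₂ b₀
  F1 : Face p a₀ a₂ b₁
  F2 : Face p a₀ a₁ b₂
  G0 : Face q b₁ b₂ a₀
  G1 : Face q b₀ b₂ a₁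
  G2 : Face q b₀ b₁ a₂

variable {p a₀ a₁ a₂ b₀ b₁ b₂ q : ZMod n}

omit [NeZero n] in
theorem Face.swap23 {u v w z : ZMod n} (h : Face u v w z) : Face u w v z :=
  h.rot.swap12.rot.rot.rot

omit [NeZero n] in
theorem Face.swap34 {u v w z : ZMod n} (h : Face u v w z) : Face u v z w :=
  h.rot.rot.swap12.rot.rot

omit [NeZero n] in
theorem Cube.cyc (h : Cube p a₀ a₁ a₂ b₀ b₁ b₂ q) : Cube p a₁ a₂ a₀ b₁ b₂ b₀ q where
  F0 := h.F1.swap23
  F1 := h.F2.swap23
  F2 := h.F0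
  G0 := h.G1.swap23
  G1 := h.G2.swap23
  G2 := h.G0

omit [NeZero n] in
theorem Cube.refl (h : Cube p a₀ a₁ a₂ b₀ b₁ b₂ q) : Cube a₀ p b₂ b₁ q a₂ a₁ b₀ where
  F0 := h.G0.rot.rot.rot.swap23.swap34.swap23
  F1 := h.F1.swap12.swap34
  F2 := h.F2.swap12.swap34
  G0 := h.F0.rot.rot.rot.swap23.swap34.swap23
  G1 := h.G1.swap12.swap34
  G2 := h.G2.swap12.swap34

theorem three_mul_of_six {t x : ZMod n} (ht : addOrderOf t = 2) (hx : addOrderOf x = 6) :
    3 * x = t := by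
  apply eq_t ht
  · intro h
    have h1 : (3 : ℕ) • x = 0 := by
      rw [nsmul_eq_mul]
      exact_mod_cast h
    have h2 := addOrderOf_dvd_of_nsmul_eq_zero h1
    rw [hx] at h2
    omega
  · have h1 := addOrderOf_nsmul_eq_zero x
    rw [hx, nsmul_eq_mul] at h1
    push_cast at h1
    linear_combination h1

theorem Cube.two (h : Cube p a₀ a₁ a₂ b₀ b₁ b₂ q) (hp : addOrderOf p = 2) :
    3 * p = p ∧ 3 * a₀ = p ∧ 3 * a₁ = p ∧ 3 * a₂ = p ∧ 3 * b₀ = p ∧ 3 * b₁ = p ∧ 3 * b₂ = p ∧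
      3 * q = p := by
  obtain ⟨h1, h2, h3⟩ := h.F0.two hp
  obtain ⟨h4, h5, h6⟩ := h.F1.two hp
  obtain ⟨h7, h8, h9⟩ := h.F2.two hp
  have pp := t_add_t hp
  have e1 := three_mul_of_six hp h1
  have e2 := three_mul_of_six hp h2
  have e3 := three_mul_of_six hp h3
  have e4 := three_mul_of_six hp h4
  have e6 := three_mul_of_six hp h6
  have e9 := three_mul_of_six hp h9
  refine ⟨by linear_combination pp, e4, e1, e2, e3, e6, e9, ?_⟩
  have s := h.G0.sum
  linear_combination 3 * s - e6 - e9 - e4 - 2 * pp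

/-- if one of the vertices has order two, then all the multiples by three are this vertex -/
theorem Cube.exists_two (h : Cube p a₀ a₁ a₂ b₀ b₁ b₂ q)
    (h2 : addOrderOf p = 2 ∨ addOrderOf a₀ = 2 ∨ addOrderOf a₁ = 2 ∨ addOrderOf a₂ = 2 ∨
      addOrderOf b₀ = 2 ∨ addOrderOf b₁ = 2 ∨ addOrderOf b₂ = 2 ∨ addOrderOf q = 2) :
    ∃ t : ZMod n, addOrderOf t = 2 ∧ 3 * p = t ∧ 3 * a₀ = t ∧ 3 * a₁ = t ∧ 3 * a₂ = t ∧
      3 * b₀ = t ∧ 3 * b₁ = t ∧ 3 * b₂ = t ∧ 3 * q = t := by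
  rcases h2 with h2 | h2 | h2 | h2 | h2 | h2 | h2 | h2
  · obtain ⟨e1, e2, e3, e4, e5, e6, e7, e8⟩ := h.two h2
    refine ⟨_, h2, ?_, ?_, ?_, ?_, ?_, ?_, ?_, ?_⟩ <;> assumption
  · obtain ⟨e1, e2, e3, e4, e5, e6, e7, e8⟩ := h.refl.two h2
    refine ⟨_, h2, ?_, ?_, ?_, ?_, ?_, ?_, ?_, ?_⟩ <;> assumption
  · obtain ⟨e1, e2, e3, e4, e5, e6, e7, e8⟩ := h.cyc.refl.two h2
    refine ⟨_, h2, ?_, ?_, ?_, ?_, ?_, ?_, ?_, ?_⟩ <;> assumption
  · obtain ⟨e1, e2, e3, e4, e5, e6, e7, e8⟩ := h.cyc.cyc.refl.two h2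
    refine ⟨_, h2, ?_, ?_, ?_, ?_, ?_, ?_, ?_, ?_⟩ <;> assumption
  · obtain ⟨e1, e2, e3, e4, e5, e6, e7, e8⟩ := h.cyc.refl.cyc.refl.two h2
    refine ⟨_, h2, ?_, ?_, ?_, ?_, ?_, ?_, ?_, ?_⟩ <;> assumption
  · obtain ⟨e1, e2, e3, e4, e5, e6, e7, e8⟩ := h.refl.cyc.cyc.refl.two h2
    refine ⟨_, h2, ?_, ?_, ?_, ?_, ?_, ?_, ?_, ?_⟩ <;> assumption
  · obtain ⟨e1, e2, e3, e4, e5, e6, e7, e8⟩ := h.refl.cyc.refl.two h2
    refine ⟨_, h2, ?_, ?_, ?_, ?_, ?_, ?_, ?_, ?_⟩ <;> assumption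
  · obtain ⟨e1, e2, e3, e4, e5, e6, e7, e8⟩ := h.refl.cyc.refl.cyc.refl.two h2
    refine ⟨_, h2, ?_, ?_, ?_, ?_, ?_, ?_, ?_, ?_⟩ <;> assumption

omit [NeZero n] in
theorem three_mul_of_two {t : ZMod n} (ht : addOrderOf t = 2) : 3 * t = t := by
  linear_combination t_add_t ht

theorem fr_of_two {t : ZMod n} (ht : addOrderOf t = 2) : fr t = 1 / 2 := by
  have ht0 : t ≠ 0 := by
    rintro rfl
    simp at ht
  have h := fr_neg_of_ne ht0
  rw [neg_t ht] at h
  linarith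

/-- a list of residues with sum zero has integral sum of representatives -/
theorem exists_int (L : List (ZMod n)) : ∃ z : ℤ, (L.map fr).sum = fr L.sum + z := by
  induction L with
  | nil => exact ⟨0, by simp [fr_zero]⟩
  | cons x L ih =>
    obtain ⟨z, hz⟩ := ih
    refine ⟨z + ⌊fr x + fr L.sum⌋, ?_⟩
    rw [List.map_cons, List.sum_cons, List.sum_cons, hz, fr_add]
    have := Int.self_sub_floor (fr x + fr L.sum)
    push_cast
    linarith

theorem int_of_sum {L : List (ZMod n)} (h : L.sum = 0) : ∃ z : ℤ, (L.map fr).sum = z := by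
  obtain ⟨z, hz⟩ := exists_int L
  exact ⟨z, by rw [hz, h, fr_zero, zero_add]⟩

/-- a multiple such that each prime which divides an order is an order -/
theorem exists_red {κ : Type} [Fintype κ] (R : κ → ZMod n) (hR : ∀ i, R i ≠ 0) :
    ∃ m : ZMod n, (∀ i, m * R i ≠ 0) ∧
      ∀ p : ℕ, p.Prime → (∃ i, p ∣ addOrderOf (m * R i)) → ∃ i, addOrderOf (m * R i) = p := by
  classical
  set S : Finset (ZMod n) := Finset.univ.filter (fun m => ∀ i, m * R i ≠ 0) with hS
  have hSne : S.Nonempty := ⟨1, by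
    rw [hS, mem_filter]
    refine ⟨mem_univ _, ?_⟩
    intro i
    rw [one_mul]
    exact hR i⟩
  obtain ⟨m, hm, hmin⟩ := Finset.exists_min_image S (fun m => ∑ i, addOrderOf (m * R i)) hSne
  rw [hS, mem_filter] at hm
  have hm0 := hm.2
  refine ⟨m, hm0, ?_⟩
  intro p hp ⟨i₀, hd⟩
  by_contra hcon
  push Not at hcon
  have hp0 : ∀ i, (p : ZMod n) * m * R i ≠ 0 := by
    intro i h
    apply hcon i
    have h1 : p • (m * R i) = 0 := by
      rw [nsmul_eq_mul, ← mul_assoc]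
      exact h
    have h2 := addOrderOf_dvd_of_nsmul_eq_zero h1
    have h3 := two_le_ord (hm0 i)
    rcases (Nat.dvd_prime hp).mp h2 with h4 | h4
    · omega
    · exact h4
  have hmem : (p : ZMod n) * m ∈ S := by
    rw [hS, mem_filter]
    exact ⟨mem_univ _, hp0⟩
  have h1 := hmin _ hmem
  have hle : ∀ i, addOrderOf ((p : ZMod n) * m * R i) ≤ addOrderOf (m * R i) := by
    intro i
    apply Nat.le_of_dvd (ord_pos _)
    rw [addOrderOf_dvd_iff_nsmul_eq_zero, mul_assoc, ← nsmul_eq_mul, smul_comm,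
      addOrderOf_nsmul_eq_zero, smul_zero]
  have hlt : addOrderOf ((p : ZMod n) * m * R i₀) < addOrderOf (m * R i₀) := by
    obtain ⟨k, hk⟩ := hd
    have h2 : addOrderOf ((p : ZMod n) * m * R i₀) ∣ k := by
      rw [addOrderOf_dvd_iff_nsmul_eq_zero, mul_assoc, ← nsmul_eq_mul, smul_smul, mul_comm k p,
        ← hk, addOrderOf_nsmul_eq_zero]
    have h3 := ord_pos (m * R i₀)
    have hk0 : 0 < k := by
      rcases Nat.eq_zero_or_pos k with h | h
      · rw [h, mul_zero] at hk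
        omega
      · exact h
    have h4 := Nat.le_of_dvd hk0 h2
    have h5 : k < p * k := by
      have := hp.two_le
      nlinarith
    omega
  have h6 : ∑ i, addOrderOf ((p : ZMod n) * m * R i) < ∑ i, addOrderOf (m * R i) :=
    Finset.sum_lt_sum (fun i _ => hle i) ⟨i₀, mem_univ _, hlt⟩
  exact absurd h1 (not_le.mpr h6)

/-- the alternatives for the eight curves -/
def Alt8 (y y' : ZMod n) (e l : Fin 3 → ZMod n) : Prop :=
  (∃ j, fr y + fr y' + fr (e j) + fr (l j) ≤ 1) ∨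
    fr y + 2 * fr y' + fr (l 0) + fr (l 1) + fr (l 2) ≤ 2 ∨
    2 * fr y + fr y' + fr (e 0) + fr (e 1) + fr (e 2) ≤ 2

/-- the data of eight curves -/
structure Sys8 (y y' : ZMod n) (e l : Fin 3 → ZMod n) : Prop where
  hA : ∀ j, y + y' + e j + l j = 0
  hD : y + 2 * y' + l 0 + l 1 + l 2 = 0
  y0 : y ≠ 0
  y0' : y' ≠ 0
  e0 : ∀ j, e j ≠ 0
  l0 : ∀ j, l j ≠ 0

variable {y y' : ZMod n} {e l : Fin 3 → ZMod n}

/-- the type at one multiple -/
theorem Sys8.type (S : Sys8 y y' e l) (h1 : Alt8 y y' e l)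
    (h2 : Alt8 (-y) (-y') (fun j => -e j) (fun j => -l j)) :
    (∀ j, fr y + fr y' + fr (e j) + fr (l j) = 2) ∧
    ((fr y + 2 * fr y' + fr (l 0) + fr (l 1) + fr (l 2) = 2 ∧
      2 * fr y + fr y' + fr (e 0) + fr (e 1) + fr (e 2) = 4) ∨
    (fr y + 2 * fr y' + fr (l 0) + fr (l 1) + fr (l 2) = 4 ∧
      2 * fr y + fr y' + fr (e 0) + fr (e 1) + fr (e 2) = 2)) := by
  have hE : 2 * y + y' + e 0 + e 1 + e 2 = 0 := by
    linear_combination S.hA 0 + S.hA 1 + S.hA 2 - S.hD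
  have iA : ∀ j, ∃ z : ℤ, fr y + fr y' + fr (e j) + fr (l j) = z := by
    intro j
    obtain ⟨z, hz⟩ := int_of_sum (L := [y, y', e j, l j]) (by
      have := S.hA j
      simp only [List.sum_cons, List.sum_nil]
      linear_combination this)
    refine ⟨z, ?_⟩
    rw [← hz]
    simp only [List.map_cons, List.map_nil, List.sum_cons, List.sum_nil]
    ring
  obtain ⟨d, hd⟩ := int_of_sum (L := [y, y', y', l 0, l 1, l 2]) (by
      simp only [List.sum_cons, List.sum_nil]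
      linear_combination S.hD)
  obtain ⟨c, hc⟩ := int_of_sum (L := [y, y, y', e 0, e 1, e 2]) (by
      simp only [List.sum_cons, List.sum_nil]
      linear_combination hE)
  simp only [List.map_cons, List.map_nil, List.sum_cons, List.sum_nil] at hd hc
  obtain ⟨z0, h0⟩ := iA 0
  obtain ⟨z1, h1'⟩ := iA 1
  obtain ⟨z2, h2'⟩ := iA 2
  have py := fr_pos S.y0
  have py' := fr_pos S.y0'
  have pe0 := fr_pos (S.e0 0)
  have pe1 := fr_pos (S.e0 1)
  have pe2 := fr_pos (S.e0 2)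
  have pl0 := fr_pos (S.l0 0)
  have pl1 := fr_pos (S.l0 1)
  have pl2 := fr_pos (S.l0 2)
  have qy := fr_lt_one y
  have qy' := fr_lt_one y'
  have qe0 := fr_lt_one (e 0)
  have qe1 := fr_lt_one (e 1)
  have qe2 := fr_lt_one (e 2)
  have ql0 := fr_lt_one (l 0)
  have ql1 := fr_lt_one (l 1)
  have ql2 := fr_lt_one (l 2)
  -- bounds between the numbers
  have r1 : z0 ≤ d := by
    have : (z0 : ℚ) < (d + 1 : ℤ) := by push_cast; linarith
    have := Int.cast_lt.mp this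
    omega
  have r2 : z1 ≤ d := by
    have : (z1 : ℚ) < (d + 1 : ℤ) := by push_cast; linarith
    have := Int.cast_lt.mp this
    omega
  have r3 : z2 ≤ d := by
    have : (z2 : ℚ) < (d + 1 : ℤ) := by push_cast; linarith
    have := Int.cast_lt.mp this
    omega
  have r4 : z0 ≤ c := by
    have : (z0 : ℚ) < (c + 1 : ℤ) := by push_cast; linarith
    have := Int.cast_lt.mp this
    omega
  have r5 : z1 ≤ c := by
    have : (z1 : ℚ) < (c + 1 : ℤ) := by push_cast; linarith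
    have := Int.cast_lt.mp this
    omega
  have r6 : z2 ≤ c := by
    have : (z2 : ℚ) < (c + 1 : ℤ) := by push_cast; linarith
    have := Int.cast_lt.mp this
    omega
  have s1 : d ≤ z0 + 2 := by
    have : (d : ℚ) < (z0 + 3 : ℤ) := by push_cast; linarith
    have := Int.cast_lt.mp this
    omega
  have s2 : d ≤ z1 + 2 := by
    have : (d : ℚ) < (z1 + 3 : ℤ) := by push_cast; linarith
    have := Int.cast_lt.mp this
    omega
  have s3 : d ≤ z2 + 2 := by
    have : (d : ℚ) < (z2 + 3 : ℤ) := by push_cast; linarith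
    have := Int.cast_lt.mp this
    omega
  have s4 : c ≤ z0 + 2 := by
    have : (c : ℚ) < (z0 + 3 : ℤ) := by push_cast; linarith
    have := Int.cast_lt.mp this
    omega
  have s5 : c ≤ z1 + 2 := by
    have : (c : ℚ) < (z1 + 3 : ℤ) := by push_cast; linarith
    have := Int.cast_lt.mp this
    omega
  have s6 : c ≤ z2 + 2 := by
    have : (c : ℚ) < (z2 + 3 : ℤ) := by push_cast; linarith
    have := Int.cast_lt.mp this
    omega
  have tt : ∀ j j' : Fin 3, ∀ z z' : ℤ, fr y + fr y' + fr (e j) + fr (l j) = z →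
      fr y + fr y' + fr (e j') + fr (l j') = z' → z ≤ z' + 1 := by
    intro j j' z z' hz hz'
    have g1 := fr_lt_one (e j)
    have g2 := fr_lt_one (l j)
    have g3 := fr_pos (S.e0 j')
    have g4 := fr_pos (S.l0 j')
    have : (z : ℚ) < (z' + 2 : ℤ) := by push_cast; linarith
    have := Int.cast_lt.mp this
    omega
  have t1 := tt 0 1 _ _ h0 h1'
  have t2 := tt 1 0 _ _ h1' h0
  have t3 := tt 0 2 _ _ h0 h2'
  have t4 := tt 2 0 _ _ h2' h0
  have t5 := tt 1 2 _ _ h1' h2'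
  have t6 := tt 2 1 _ _ h2' h1'
  have hsum : d + c = z0 + z1 + z2 := by
    have : ((d + c : ℤ) : ℚ) = ((z0 + z1 + z2 : ℤ) : ℚ) := by push_cast; linarith
    exact_mod_cast this
  have k1 : z0 ≤ 1 ∨ z1 ≤ 1 ∨ z2 ≤ 1 ∨ d ≤ 2 ∨ c ≤ 2 := by
    rcases h1 with ⟨j, hj⟩ | h1 | h1
    · have hj3 : j = 0 ∨ j = 1 ∨ j = 2 := by omega
      rcases hj3 with rfl | rfl | rfl
      · left
        have : (z0 : ℚ) ≤ (1 : ℤ) := by push_cast; linarith
        exact Int.cast_le.mp this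
      · right; left
        have : (z1 : ℚ) ≤ (1 : ℤ) := by push_cast; linarith
        exact Int.cast_le.mp this
      · right; right; left
        have : (z2 : ℚ) ≤ (1 : ℤ) := by push_cast; linarith
        exact Int.cast_le.mp this
    · right; right; right; left
      have : (d : ℚ) ≤ (2 : ℤ) := by push_cast; linarith
      exact Int.cast_le.mp this
    · right; right; right; right
      have : (c : ℚ) ≤ (2 : ℤ) := by push_cast; linarith
      exact Int.cast_le.mp this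
  have k2 : 3 ≤ z0 ∨ 3 ≤ z1 ∨ 3 ≤ z2 ∨ 4 ≤ d ∨ 4 ≤ c := by
    unfold Alt8 at h2
    rw [fr_neg_of_ne S.y0, fr_neg_of_ne S.y0', fr_neg_of_ne (S.e0 0), fr_neg_of_ne (S.e0 1),
      fr_neg_of_ne (S.e0 2), fr_neg_of_ne (S.l0 0), fr_neg_of_ne (S.l0 1),
      fr_neg_of_ne (S.l0 2)] at h2
    rcases h2 with ⟨j, hj⟩ | h2 | h2
    · rw [fr_neg_of_ne (S.e0 j), fr_neg_of_ne (S.l0 j)] at hj
      have hj3 : j = 0 ∨ j = 1 ∨ j = 2 := by omega
      rcases hj3 with rfl | rfl | rfl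
      · left
        have : ((3 : ℤ) : ℚ) ≤ z0 := by push_cast; linarith
        exact Int.cast_le.mp this
      · right; left
        have : ((3 : ℤ) : ℚ) ≤ z1 := by push_cast; linarith
        exact Int.cast_le.mp this
      · right; right; left
        have : ((3 : ℤ) : ℚ) ≤ z2 := by push_cast; linarith
        exact Int.cast_le.mp this
    · right; right; right; left
      have : ((4 : ℤ) : ℚ) ≤ d := by push_cast; linarith
      exact Int.cast_le.mp this
    · right; right; right; right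
      have : ((4 : ℤ) : ℚ) ≤ c := by push_cast; linarith
      exact Int.cast_le.mp this
  have fin : z0 = 2 ∧ z1 = 2 ∧ z2 = 2 ∧ ((d = 2 ∧ c = 4) ∨ (d = 4 ∧ c = 2)) := by omega
  obtain ⟨f0, f1, f2, f3⟩ := fin
  subst f0 f1 f2
  refine ⟨?_, ?_⟩
  · intro j
    have hj3 : j = 0 ∨ j = 1 ∨ j = 2 := by omega
    rcases hj3 with rfl | rfl | rfl
    · rw [h0]; norm_num
    · rw [h1']; norm_num
    · rw [h2']; norm_num
  · rcases f3 with ⟨rfl, rfl⟩ | ⟨rfl, rfl⟩
    · left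
      push_cast at hd hc
      exact ⟨by linarith, by linarith⟩
    · right
      push_cast at hd hc
      exact ⟨by linarith, by linarith⟩

theorem Sys8.mul (S : Sys8 y y' e l) {m : ZMod n} (h1 : m * y ≠ 0) (h2 : m * y' ≠ 0)
    (h3 : ∀ j, m * e j ≠ 0) (h4 : ∀ j, m * l j ≠ 0) :
    Sys8 (m * y) (m * y') (fun j => m * e j) (fun j => m * l j) where
  hA j := by linear_combination m * S.hA j
  hD := by linear_combination m * S.hD
  y0 := h1
  y0' := h2
  e0 := h3
  l0 := h4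

/-- the cube of the eight residues -/
theorem Sys8.cube (S : Sys8 y y' e l)
    (H : ∀ m : ZMod n, Alt8 (m * y) (m * y') (fun j => m * e j) (fun j => m * l j)) :
    Cube y' (l 0) (l 1) (l 2) (-e 0) (-e 1) (-e 2) (-y) := by
  have hE : 2 * y + y' + e 0 + e 1 + e 2 = 0 := by
    linear_combination S.hA 0 + S.hA 1 + S.hA 2 - S.hD
  have key := fun k : (ZMod n)ˣ =>
    (S.mul (unit_mul_ne k S.y0) (unit_mul_ne k S.y0') (fun j => unit_mul_ne k (S.e0 j))
      (fun j => unit_mul_ne k (S.l0 j))).type (H k) (by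
        have := H (-k)
        simpa only [neg_mul] using this)
  have nmul : ∀ (k : (ZMod n)ˣ) {z : ZMod n}, z ≠ 0 →
      fr ((k : ZMod n) * -z) = 1 - fr ((k : ZMod n) * z) := by
    intro k z hz
    rw [mul_neg, fr_neg_of_ne (unit_mul_ne k hz)]
  have ny := neg_ne_zero.mpr S.y0
  have ne : ∀ j, -e j ≠ 0 := fun j => neg_ne_zero.mpr (S.e0 j)
  refine ⟨⟨?_, S.y0', S.l0 1, S.l0 2, ne 0, ?_⟩, ⟨?_, S.y0', S.l0 0, S.l0 2, ne 1, ?_⟩,
    ⟨?_, S.y0', S.l0 0, S.l0 1, ne 2, ?_⟩, ⟨?_, ny, ne 1, ne 2, S.l0 0, ?_⟩,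
    ⟨?_, ny, ne 0, ne 2, S.l0 1, ?_⟩, ⟨?_, ny, ne 0, ne 1, S.l0 2, ?_⟩⟩
  · linear_combination S.hD - S.hA 0
  · intro k
    rw [nmul k (S.e0 0)]
    obtain ⟨hA, ⟨h1, h2⟩ | ⟨h1, h2⟩⟩ := key k
    · have := hA 0; left; linarith
    · have := hA 0; right; linarith
  · linear_combination S.hD - S.hA 1
  · intro k
    rw [nmul k (S.e0 1)]
    obtain ⟨hA, ⟨h1, h2⟩ | ⟨h1, h2⟩⟩ := key k
    · have := hA 1; left; linarith
    · have := hA 1; right; linarith
  · linear_combination S.hD - S.hA 2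
  · intro k
    rw [nmul k (S.e0 2)]
    obtain ⟨hA, ⟨h1, h2⟩ | ⟨h1, h2⟩⟩ := key k
    · have := hA 2; left; linarith
    · have := hA 2; right; linarith
  · linear_combination S.hA 0 - hE
  · intro k
    rw [nmul k S.y0, nmul k (S.e0 1), nmul k (S.e0 2)]
    obtain ⟨hA, ⟨h1, h2⟩ | ⟨h1, h2⟩⟩ := key k
    · have := hA 0; left; linarith
    · have := hA 0; right; linarith
  · linear_combination S.hA 1 - hE
  · intro k
    rw [nmul k S.y0, nmul k (S.e0 0), nmul k (S.e0 2)]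
    obtain ⟨hA, ⟨h1, h2⟩ | ⟨h1, h2⟩⟩ := key k
    · have := hA 1; left; linarith
    · have := hA 1; right; linarith
  · linear_combination S.hA 2 - hE
  · intro k
    rw [nmul k S.y0, nmul k (S.e0 0), nmul k (S.e0 1)]
    obtain ⟨hA, ⟨h1, h2⟩ | ⟨h1, h2⟩⟩ := key k
    · have := hA 2; left; linarith
    · have := hA 2; right; linarith

/-- the final contradiction for a reduced system -/
theorem Sys8.false_of_red (S : Sys8 y y' e l)
    (H : ∀ m : ZMod n, Alt8 (m * y) (m * y') (fun j => m * e j) (fun j => m * l j))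
    (hred : ∀ p : ℕ, p.Prime →
      (p ∣ addOrderOf y ∨ p ∣ addOrderOf y' ∨ (∃ j, p ∣ addOrderOf (e j)) ∨
        ∃ j, p ∣ addOrderOf (l j)) →
      (addOrderOf y = p ∨ addOrderOf y' = p ∨ (∃ j, addOrderOf (e j) = p) ∨
        ∃ j, addOrderOf (l j) = p)) : False := by
  have C := S.cube H
  by_cases h2 : 2 ∣ addOrderOf y ∨ 2 ∣ addOrderOf y' ∨ (∃ j, 2 ∣ addOrderOf (e j)) ∨
      ∃ j, 2 ∣ addOrderOf (l j)
  · -- all multiples by three have order two
    have h2' := hred 2 Nat.prime_two h2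
    obtain ⟨t, ht, e1, e2, e3, e4, e5, e6, e7, e8⟩ := C.exists_two (by
      simp only [addOrderOf_neg]
      rcases h2' with h | h | ⟨j, h⟩ | ⟨j, h⟩
      · simp [h]
      · simp [h]
      · have hj3 : j = 0 ∨ j = 1 ∨ j = 2 := by omega
        rcases hj3 with rfl | rfl | rfl <;> simp [h]
      · have hj3 : j = 0 ∨ j = 1 ∨ j = 2 := by omega
        rcases hj3 with rfl | rfl | rfl <;> simp [h])
    have nt := neg_t ht
    have f : ∀ x : ZMod n, 3 * -x = t → 3 * x = t := by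
      intro x hx
      rw [mul_neg] at hx
      rw [← nt, ← hx, neg_neg]
    have e5' := f _ e5
    have e6' := f _ e6
    have e7' := f _ e7
    have e8' := f _ e8
    have h3 := H 3
    have hf := fr_of_two ht
    have he : ∀ j, (3 : ZMod n) * e j = t := by
      intro j
      have hj3 : j = 0 ∨ j = 1 ∨ j = 2 := by omega
      rcases hj3 with rfl | rfl | rfl <;> assumption
    have hl : ∀ j, (3 : ZMod n) * l j = t := by
      intro j
      have hj3 : j = 0 ∨ j = 1 ∨ j = 2 := by omega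
      rcases hj3 with rfl | rfl | rfl <;> assumption
    unfold Alt8 at h3
    simp only [he, hl, e8', e1, hf] at h3
    rcases h3 with ⟨_, h3⟩ | h3 | h3 <;> norm_num at h3
  · push Not at h2
    have odd : ∀ {x : ZMod n}, ¬ 2 ∣ addOrderOf x → Odd (addOrderOf x) := by
      intro x hx
      rw [← Nat.not_even_iff_odd]
      intro h
      exact hx (even_iff_two_dvd.mp h)
    obtain ⟨oy, oy', oe, ol⟩ := h2
    have on : ∀ {x : ZMod n}, ¬ 2 ∣ addOrderOf x → Odd (addOrderOf (-x)) := by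
      intro x hx
      rw [addOrderOf_neg]
      exact odd hx
    by_cases h3 : 3 ∣ addOrderOf y ∨ 3 ∣ addOrderOf y' ∨ (∃ j, 3 ∣ addOrderOf (e j)) ∨
      ∃ j, 3 ∣ addOrderOf (l j)
    · rcases hred 3 Nat.prime_three h3 with h | h | ⟨j, h⟩ | ⟨j, h⟩
      · exact C.G0.not_three (on oy) (on (oe 1)) (on (oe 2)) (odd (ol 0)) (by
          rw [addOrderOf_neg, h])
      · exact C.F0.not_three (odd oy') (odd (ol 1)) (odd (ol 2)) (on (oe 0)) h
      · have hj3 : j = 0 ∨ j = 1 ∨ j = 2 := by omega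
        rcases hj3 with rfl | rfl | rfl
        · exact C.F0.rot.rot.rot.not_three (on (oe 0)) (odd oy') (odd (ol 1)) (odd (ol 2)) (by
            rw [addOrderOf_neg, h])
        · exact C.F1.rot.rot.rot.not_three (on (oe 1)) (odd oy') (odd (ol 0)) (odd (ol 2)) (by
            rw [addOrderOf_neg, h])
        · exact C.F2.rot.rot.rot.not_three (on (oe 2)) (odd oy') (odd (ol 0)) (odd (ol 1)) (by
            rw [addOrderOf_neg, h])
      · have hj3 : j = 0 ∨ j = 1 ∨ j = 2 := by omega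
        rcases hj3 with rfl | rfl | rfl
        · exact C.F1.swap12.not_three (odd (ol 0)) (odd oy') (odd (ol 2)) (on (oe 1)) h
        · exact C.F0.swap12.not_three (odd (ol 1)) (odd oy') (odd (ol 2)) (on (oe 0)) h
        · exact C.F0.rot.rot.not_three (odd (ol 2)) (on (oe 0)) (odd oy') (odd (ol 1)) h
    · push Not at h3
      obtain ⟨ty, ty', te, tl⟩ := h3
      exact C.F0.false_of_coprime (odd oy') (odd (ol 1)) (odd (ol 2)) (on (oe 0)) ty' (tl 1) (tl 2)
        (by rw [addOrderOf_neg]; exact te 0)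

/-- **the case of eight branch curves** -/
theorem eight (S : Sys8 y y' e l)
    (H : ∀ m : ZMod n, Alt8 (m * y) (m * y') (fun j => m * e j) (fun j => m * l j)) : False := by
  obtain ⟨m, hm, hred⟩ := exists_red (κ := (Unit ⊕ Unit) ⊕ (Fin 3 ⊕ Fin 3))
    (fun i => Sum.elim (Sum.elim (fun _ => y) (fun _ => y')) (Sum.elim e l) i) (by
      rintro ((_ | _) | (j | j))
      · exact S.y0
      · exact S.y0'
      · exact S.e0 j
      · exact S.l0 j)
  have m1 : m * y ≠ 0 := hm (Sum.inl (Sum.inl ()))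
  have m2 : m * y' ≠ 0 := hm (Sum.inl (Sum.inr ()))
  have m3 : ∀ j, m * e j ≠ 0 := fun j => hm (Sum.inr (Sum.inl j))
  have m4 : ∀ j, m * l j ≠ 0 := fun j => hm (Sum.inr (Sum.inr j))
  refine (S.mul m1 m2 m3 m4).false_of_red ?_ ?_
  · intro k
    have := H (k * m)
    simpa only [mul_assoc] using this
  · intro p hp h
    obtain ⟨i, hi⟩ := hred p hp (by
      rcases h with h | h | ⟨j, h⟩ | ⟨j, h⟩
      · exact ⟨Sum.inl (Sum.inl ()), h⟩
      · exact ⟨Sum.inl (Sum.inr ()), h⟩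
      · exact ⟨Sum.inr (Sum.inl j), h⟩
      · exact ⟨Sum.inr (Sum.inr j), h⟩)
    rcases i with ((_ | _) | (j | j))
    · left; exact hi
    · right; left; exact hi
    · right; right; left; exact ⟨j, hi⟩
    · right; right; right; exact ⟨j, hi⟩

end Pool.Agent.U68.HX
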