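import Pool.Agent.N197.Pln.QMain

set_option autoImplicit false

/-!
# Monomial changes of the coordinates
-/

namespace Pool.Agent.U68.HX

open Pool.Agent.N197.Pln MvPolynomial

/-- the smallest value of `u` on the monomials of `f` -/
noncomputable def lowest (u : (Fin 2 →₀ ℕ) → ℕ) (f : MvPolynomial (Fin 2) ℂ) : ℕ :=
  sInf (u '' (f.support : Set (Fin 2 →₀ ℕ)))

theorem lowest_le (u : (Fin 2 →₀ ℕ) → ℕ) {f : MvPolynomial (Fin 2) ℂ} {m : Fin 2 →₀ ℕ}
    (h : m ∈ f.support) : lowest u f ≤ u m :=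
  Nat.sInf_le ⟨m, h, rfl⟩

theorem exists_lowest (u : (Fin 2 →₀ ℕ) → ℕ) {f : MvPolynomial (Fin 2) ℂ} (hf : f ≠ 0) :
    ∃ m ∈ f.support, u m = lowest u f := by
  have h1 : (u '' (f.support : Set (Fin 2 →₀ ℕ))).Nonempty := by
    obtain ⟨m, hm⟩ := support_nonempty.mpr hf
    exact ⟨u m, m, hm, rfl⟩
  obtain ⟨m, hm, h⟩ := Nat.sInf_mem h1
  exact ⟨m, hm, h⟩

theorem exists_degreeOf (j : Fin 2) {f : MvPolynomial (Fin 2) ℂ} (hf : f ≠ 0) :
    ∃ m ∈ f.support, m j = f.degreeOf j := by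
  obtain ⟨m, hm, h⟩ := Finset.exists_mem_eq_sup f.support (support_nonempty.mpr hf)
    (fun m => m j)
  exact ⟨m, hm, by rw [degreeOf_eq_sup, h]⟩

theorem le_degreeOf (j : Fin 2) {f : MvPolynomial (Fin 2) ℂ} {m : Fin 2 →₀ ℕ}
    (h : m ∈ f.support) : m j ≤ f.degreeOf j :=
  (degreeOf_le_iff.mp le_rfl) m h

theorem le_totalDegree' {f : MvPolynomial (Fin 2) ℂ} {m : Fin 2 →₀ ℕ}
    (h : m ∈ f.support) : m 0 + m 1 ≤ f.totalDegree := by
  have := le_totalDegree h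
  rw [Finsupp.sum_fintype _ _ (fun _ => rfl), Fin.sum_univ_two] at this
  exact this

theorem exists_totalDegree {f : MvPolynomial (Fin 2) ℂ} (hf : f ≠ 0) :
    ∃ m ∈ f.support, m 0 + m 1 = f.totalDegree := by
  obtain ⟨m, hm, h⟩ := Finset.exists_mem_eq_sup f.support (support_nonempty.mpr hf)
    (fun m => m.sum fun _ e => e)
  refine ⟨m, hm, ?_⟩
  rw [Finsupp.sum_fintype _ _ (fun _ => rfl), Fin.sum_univ_two] at h
  exact h.symm

/-- the polynomial with the monomials `x ^ u m * y ^ v m` -/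
noncomputable def tor (u v : (Fin 2 →₀ ℕ) → ℕ) (f : MvPolynomial (Fin 2) ℂ) :
    MvPolynomial (Fin 2) ℂ :=
  ∑ m ∈ f.support, monomial (Finsupp.single 0 (u m) + Finsupp.single 1 (v m)) (coeff m f)

theorem mem_support_tor {u v : (Fin 2 →₀ ℕ) → ℕ} {f : MvPolynomial (Fin 2) ℂ} {m' : Fin 2 →₀ ℕ}
    (h : m' ∈ (tor u v f).support) : ∃ m ∈ f.support, m' 0 = u m ∧ m' 1 = v m := by
  unfold tor at h
  have h1 := support_sum h
  rw [Finset.mem_biUnion] at h1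
  obtain ⟨m, hm, h2⟩ := h1
  have h3 := support_monomial_subset h2
  rw [Finset.mem_singleton] at h3
  refine ⟨m, hm, ?_, ?_⟩
  · rw [h3]
    simp
  · rw [h3]
    simp

theorem degreeOf_tor_le {u v : (Fin 2 →₀ ℕ) → ℕ} {f : MvPolynomial (Fin 2) ℂ} {d : ℕ}
    (h : ∀ m ∈ f.support, u m ≤ d) : (tor u v f).degreeOf 0 ≤ d := by
  rw [degreeOf_le_iff]
  intro m' hm'
  obtain ⟨m, hm, h1, _⟩ := mem_support_tor hm'
  rw [h1]
  exact h m hm

theorem degreeOf_tor_le' {u v : (Fin 2 →₀ ℕ) → ℕ} {f : MvPolynomial (Fin 2) ℂ} {d : ℕ}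
    (h : ∀ m ∈ f.support, v m ≤ d) : (tor u v f).degreeOf 1 ≤ d := by
  rw [degreeOf_le_iff]
  intro m' hm'
  obtain ⟨m, hm, _, h1⟩ := mem_support_tor hm'
  rw [h1]
  exact h m hm

theorem totalDegree_tor_le {u v : (Fin 2 →₀ ℕ) → ℕ} {f : MvPolynomial (Fin 2) ℂ} {d : ℕ}
    (h : ∀ m ∈ f.support, u m + v m ≤ d) : (tor u v f).totalDegree ≤ d := by
  unfold totalDegree
  apply Finset.sup_le
  intro m' hm'
  obtain ⟨m, hm, h1, h2⟩ := mem_support_tor hm'
  rw [Finsupp.sum_fintype _ _ (fun _ => rfl), Fin.sum_univ_two, h1, h2]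
  exact h m hm

section change

variable {Ω : Type} [Field Ω] [Algebra ℂ Ω]

theorem aeval_tor (u v : (Fin 2 →₀ ℕ) → ℕ) (f : MvPolynomial (Fin 2) ℂ) (x y : Ω) :
    aeval ![x, y] (tor u v f) =
      ∑ m ∈ f.support, algebraMap ℂ Ω (coeff m f) * (x ^ u m * y ^ v m) := by
  unfold tor
  rw [map_sum]
  apply Finset.sum_congr rfl
  intro m _
  rw [aeval_monomial, Finsupp.prod_fintype _ _ (fun _ => pow_zero _), Fin.prod_univ_two]
  simp

theorem aeval_change {f : MvPolynomial (Fin 2) ℂ} {u v : (Fin 2 →₀ ℕ) → ℕ} {α β γ δ a b : ℤ}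
    (hu : ∀ m ∈ f.support, α * m 0 + γ * m 1 = a + u m)
    (hv : ∀ m ∈ f.support, β * m 0 + δ * m 1 = b + v m) {x y : Ω} (hx : x ≠ 0) (hy : y ≠ 0) :
    aeval ![x ^ α * y ^ β, x ^ γ * y ^ δ] f = x ^ a * y ^ b * aeval ![x, y] (tor u v f) := by
  rw [aeval_tor, Finset.mul_sum, aeval_def, eval₂_eq']
  apply Finset.sum_congr rfl
  intro m hm
  rw [Fin.prod_univ_two]
  have h1 : (x ^ α * y ^ β) ^ m 0 * (x ^ γ * y ^ δ) ^ m 1 =
      x ^ a * y ^ b * (x ^ u m * y ^ v m) := by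
    have e1 : (x ^ α * y ^ β) ^ m 0 * (x ^ γ * y ^ δ) ^ m 1 =
        x ^ (α * m 0 + γ * m 1) * y ^ (β * m 0 + δ * m 1) := by
      rw [zpow_add₀ hx, zpow_add₀ hy, mul_pow, mul_pow, zpow_mul, zpow_mul, zpow_mul, zpow_mul,
        zpow_natCast, zpow_natCast, zpow_natCast, zpow_natCast]
      ring
    rw [e1, hu m hm, hv m hm, zpow_add₀ hx, zpow_add₀ hy, zpow_natCast, zpow_natCast]
    ring
  have h2 : ![x ^ α * y ^ β, x ^ γ * y ^ δ] 0 ^ m 0 * ![x ^ α * y ^ β, x ^ γ * y ^ δ] 1 ^ m 1 =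
      x ^ a * y ^ b * (x ^ u m * y ^ v m) := h1
  rw [h2]
  ring

theorem indep_change {x y : Ω} (h : AlgebraicIndependent ℂ ![x, y]) {α γ δ : ℤ}
    (hα : α = 1 ∨ α = -1) (hδ : δ = 1 ∨ δ = -1) :
    AlgebraicIndependent ℂ ![x ^ α * y ^ (0 : ℤ), x ^ γ * y ^ δ] := by
  have hx : Transcendental ℂ x := ((pair_iff x y).mp h).1
  have hx0 : x ≠ 0 := by
    rintro rfl
    exact hx (isAlgebraic_zero)
  have hxc : x ∈ cl x := self_mem_cl x
  have hy : y ∉ cl x := notMem_cl h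
  apply pair_of_cl (s := x)
  · rw [zpow_zero, mul_one]
    exact zpow_mem hxc α
  · rw [zpow_zero, mul_one]
    rcases hα with rfl | rfl
    · rw [zpow_one]
      exact hx
    · rw [zpow_neg, zpow_one]
      intro h1
      exact hx (IsAlgebraic.inv_iff.mp h1)
  · intro h1
    have h2 : y ^ δ ∈ cl x := by
      have h3 : y ^ δ = x ^ (-γ) * (x ^ γ * y ^ δ) := by
        rw [← mul_assoc, ← zpow_add₀ hx0, neg_add_cancel, zpow_zero, one_mul]
      rw [h3]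
      exact mul_mem (zpow_mem hxc _) h1
    rcases hδ with rfl | rfl
    · rw [zpow_one] at h2
      exact hy h2
    · rw [zpow_neg, zpow_one] at h2
      have h3 := inv_mem h2
      rw [inv_inv] at h3
      exact hy h3

end change

/-- two more members of a family -/
def ex {α ι : Type} (u v : α) (g : ι → α) : Option (Option ι) → α
  | none => u
  | some none => v
  | some (some i) => g i

theorem ne_zero_tor {f : MvPolynomial (Fin 2) ℂ} (hf : f ≠ 0) {u v : (Fin 2 →₀ ℕ) → ℕ}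
    {α γ δ a b : ℤ} (hα : α = 1 ∨ α = -1) (hδ : δ = 1 ∨ δ = -1)
    (hu : ∀ m ∈ f.support, α * m 0 + γ * m 1 = a + u m)
    (hv : ∀ m ∈ f.support, 0 * m 0 + δ * m 1 = b + v m) : tor u v f ≠ 0 := by
  intro h0
  obtain ⟨Ω, _, _, _, s, t, hst⟩ := exists_field
  have hs : s ≠ 0 := by
    rintro rfl
    exact ((pair_iff _ _).mp hst).1 isAlgebraic_zero
  have ht : t ≠ 0 := by
    rintro rfl
    exact notMem_cl hst (zero_mem _)
  have h1 := aeval_change (α := α) (β := 0) (γ := γ) (δ := δ) (a := a) (b := b) hu hv hs ht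
  rw [h0, map_zero, mul_zero] at h1
  have h2 := indep_change hst (γ := γ) hα hδ
  exact hf (h2 (by rw [h1, map_zero]))

variable {ι : Type} [Fintype ι] {n : ℕ} [NeZero n] {f : ι → MvPolynomial (Fin 2) ℂ}
  {c : ι → ZMod n}

/-- an integral exponent with given residue -/
theorem exists_exp {a : ι → ℤ} {r : ZMod n} (hr : ∑ i, (a i : ZMod n) * c i = r) :
    ∃ t : ℤ, ∑ i, a i * ((c i).val : ℤ) = r.val + n * t := by
  have h1 : ((∑ i, a i * ((c i).val : ℤ) : ℤ) : ZMod n) = ((r.val : ℤ) : ZMod n) := by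
    push_cast
    simp only [ZMod.natCast_val, ZMod.cast_id', id_eq]
    exact hr
  rw [ZMod.intCast_eq_intCast_iff_dvd_sub] at h1
  obtain ⟨t, ht⟩ := h1
  exact ⟨-t, by linear_combination -ht⟩

/-- **change of the coordinates** -/
theorem transfer {u v : ι → (Fin 2 →₀ ℕ) → ℕ} {α γ δ : ℤ} {a b : ι → ℤ} {r s : ZMod n}
    (hα : α = 1 ∨ α = -1) (hδ : δ = 1 ∨ δ = -1)
    (hu : ∀ i, ∀ m ∈ (f i).support, α * m 0 + γ * m 1 = a i + u i m)
    (hv : ∀ i, ∀ m ∈ (f i).support, 0 * m 0 + δ * m 1 = b i + v i m)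
    (hr : ∑ i, (a i : ZMod n) * c i = r) (hs : ∑ i, (b i : ZMod n) * c i = s)
    (h : AffineDominatedByCurves n (ex (X 0) (X 1) (fun i => tor (u i) (v i) (f i))) (ex r s c)) :
    AffineDominatedByCurves n f c := by
  obtain ⟨Ω, _, _, K₁, K₂, hK, x, hx, y, hy, z, hz, hind, hval⟩ := h
  have hx0 : x ≠ 0 := by
    rintro rfl
    exact ((pair_iff _ _).mp hind).1 isAlgebraic_zero
  have hy0 : y ≠ 0 := by
    rintro rfl
    exact notMem_cl hind (zero_mem _)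
  obtain ⟨t, ht⟩ := exists_exp hr
  obtain ⟨w, hw⟩ := exists_exp hs
  refine ⟨Ω, inferInstance, inferInstance, K₁, K₂, hK, x ^ α * y ^ (0 : ℤ),
    mul_mem (zpow_mem hx _) (zpow_mem hy _), x ^ γ * y ^ δ,
    mul_mem (zpow_mem hx _) (zpow_mem hy _), x ^ t * y ^ w * z,
    mul_mem (mul_mem (zpow_mem hx _) (zpow_mem hy _)) hz, indep_change hind hα hδ, ?_⟩
  rw [Fintype.prod_option, Fintype.prod_option] at hval
  simp only [ex, aeval_X, Matrix.cons_val_zero, Matrix.cons_val_one] at hval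
  rw [mul_pow, hval]
  have h1 : ∀ i, aeval ![x ^ α * y ^ (0 : ℤ), x ^ γ * y ^ δ] (f i) ^ (c i).val =
      x ^ (a i * ((c i).val : ℤ)) * y ^ (b i * ((c i).val : ℤ)) *
        aeval ![x, y] (tor (u i) (v i) (f i)) ^ (c i).val := by
    intro i
    rw [aeval_change (hu i) (hv i) hx0 hy0, mul_pow, mul_pow, zpow_mul, zpow_mul, zpow_natCast,
      zpow_natCast]
  have hprod : ∀ (g : ι → ℤ) {q : Ω}, q ≠ 0 → ∏ i, q ^ g i = q ^ (∑ i, g i) := by
    classical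
    intro g q hq
    have key : ∀ S : Finset ι, ∏ i ∈ S, q ^ g i = q ^ (∑ i ∈ S, g i) := by
      intro S
      induction S using Finset.induction_on with
      | empty => simp
      | insert i S hi ih => rw [Finset.prod_insert hi, Finset.sum_insert hi, zpow_add₀ hq, ih]
    exact key Finset.univ
  have hpow : ∀ {q : Ω} (_ : q ≠ 0) (k : ℕ) (t : ℤ), q ^ ((k : ℤ) + n * t) = q ^ k * (q ^ t) ^ n := by
    intro q hq k t
    rw [zpow_add₀ hq, zpow_natCast, mul_comm (n : ℤ) t, zpow_mul, zpow_natCast]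
  simp only [h1, Finset.prod_mul_distrib]
  rw [hprod _ hx0, hprod _ hy0, ht, hw, hpow hx0, hpow hy0, mul_pow]
  ring

end Pool.Agent.U68.HX
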