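import Pool.Agent.U68.HX.Dat
import Pool.Agent.U68.HX.Tor

set_option autoImplicit false

/-!
# Auxiliary facts for the final theorem
-/

namespace Pool.Agent.U68.HX

open Pool.Agent.N197.Pln Pool.Agent.U15.DP MvPolynomial Finset

section

variable {ι : Type} [Fintype ι] {n : ℕ} [NeZero n]

theorem lineDegree_eq (d : ι → ℕ) (c : ι → ZMod n) (m : ZMod n) :
    lineDegree n d (fun i => (m.val : ℤ) • c i) = L d c m := by
  unfold lineDegree L fr
  apply Finset.sum_congr rfl
  intro i _
  simp only [zsmul_eq_mul, intCast_val, mul_div_assoc]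

theorem fract_L (w : ι → ℕ) (c : ι → ZMod n) (m : ZMod n) :
    fr (m * ∑ i, w i • c i) = Int.fract (L w c m) := by
  obtain ⟨M, _, h2, h3⟩ := exists_list w c
  obtain ⟨z, hz⟩ := exists_int (M.map fun x => m * x)
  rw [List.sum_map_mul_left, List.map_id'' (fun _ => rfl), List.map_map] at hz
  have h4 : SL M m = fr (m * M.sum) + z := hz
  rw [← h3, ← h2, h4, Int.fract_add_intCast, fract_fr]

theorem fr_floor (w : ι → ℕ) (c : ι → ZMod n) (m : ZMod n) :
    fr (m * ∑ i, w i • c i) = L w c m - ⌊L w c m⌋ := by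
  rw [fract_L]
  exact (Int.self_sub_floor _).symm

theorem fr_ceil (w : ι → ℕ) (c : ι → ZMod n) (m : ZMod n) :
    fr (m * -∑ i, w i • c i) = ⌈L w c m⌉ - L w c m := by
  have h1 : fr (m * -∑ i, w i • c i) = Int.fract (-L w c m) := by
    rw [mul_neg, fr_neg, fract_L]
    have h2 : -Int.fract (L w c m) = -L w c m + (⌊L w c m⌋ : ℤ) := by
      rw [← Int.self_sub_floor]
      ring
    rw [h2, Int.fract_add_intCast]
  rw [h1, ← Int.self_sub_floor, Int.floor_neg]
  push_cast
  ring

theorem fr_le (w : ι → ℕ) (c : ι → ZMod n) (m : ZMod n) (h : 0 ≤ L w c m) :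
    fr (m * ∑ i, w i • c i) ≤ L w c m := by
  rw [fr_floor]
  have : (0 : ℚ) ≤ ⌊L w c m⌋ := by exact_mod_cast Int.floor_nonneg.mpr h
  linarith

theorem L_nonneg (w : ι → ℕ) (c : ι → ZMod n) (m : ZMod n) : 0 ≤ L w c m :=
  Finset.sum_nonneg fun i _ => mul_nonneg (Nat.cast_nonneg _) (fr_nonneg _)

theorem L_sub {w w' : ι → ℕ} (h : ∀ i, w' i ≤ w i) (c : ι → ZMod n) (m : ZMod n) :
    L (fun i => w i - w' i) c m = L w c m - L w' c m := by
  unfold L
  rw [← Finset.sum_sub_distrib]
  apply Finset.sum_congr rfl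
  intro i _
  rw [Nat.cast_sub (h i)]
  ring

theorem L_add (w w' : ι → ℕ) (c : ι → ZMod n) (m : ZMod n) :
    L (fun i => w i + w' i) c m = L w c m + L w' c m := by
  unfold L
  rw [← Finset.sum_add_distrib]
  apply Finset.sum_congr rfl
  intro i _
  push_cast
  ring

theorem smul_sub' {w w' : ι → ℕ} (h : ∀ i, w' i ≤ w i) (c : ι → ZMod n) :
    ∑ i, (w i - w' i) • c i = ∑ i, w i • c i - ∑ i, w' i • c i := by
  rw [← Finset.sum_sub_distrib]
  apply Finset.sum_congr rfl
  intro i _
  rw [nsmul_eq_mul, nsmul_eq_mul, nsmul_eq_mul, Nat.cast_sub (h i)]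
  ring

theorem smul_add' (w w' : ι → ℕ) (c : ι → ZMod n) :
    ∑ i, (w i + w' i) • c i = ∑ i, w i • c i + ∑ i, w' i • c i := by
  rw [← Finset.sum_add_distrib]
  apply Finset.sum_congr rfl
  intro i _
  rw [add_smul]

/-- the number of branch points of the extended family -/
theorem brn_ex (w : ι → ℕ) (c : ι → ZMod n) {u v : ℕ} {r s : ZMod n}
    (huv : (u = 1 ∧ v = 0) ∨ (u = 0 ∧ v = 1)) :
    brn (ex u v w) (ex r s c) = ∑ i ∈ univ.filter (fun i => c i ≠ 0), w i +
      ix (-(∑ i, w i • c i + (u • r + v • s))) + ix (u • r + v • s) := by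
  classical
  have h0 : ∑ o, ex u v w o • ex r s c o = ∑ i, w i • c i + (u • r + v • s) := by
    rw [Fintype.sum_option, Fintype.sum_option]
    simp only [ex]
    ring
  have h1 : ∑ o ∈ univ.filter (fun o => ex r s c o ≠ 0), ex u v w o =
      u * ix r + (v * ix s + ∑ i ∈ univ.filter (fun i => c i ≠ 0), w i) := by
    rw [Finset.sum_filter, Finset.sum_filter, Fintype.sum_option, Fintype.sum_option]
    congr 1
    · unfold ix
      by_cases hr : r = 0
      · simp [ex, hr]
      · simp [ex, hr]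
    · congr 1
      unfold ix
      by_cases hs : s = 0
      · simp [ex, hs]
      · simp [ex, hs]
  have h2 : u * ix r + v * ix s = ix (u • r + v • s) := by
    rcases huv with ⟨rfl, rfl⟩ | ⟨rfl, rfl⟩
    · simp
    · simp
  unfold brn
  rw [h0, h1, ix_neg, ← h2]
  have h3 : (if ∑ i, w i • c i + (u • r + v • s) = 0 then 0 else 1) =
    ix (∑ i, w i • c i + (u • r + v • s)) := rfl
  rw [h3]
  ring

theorem L_ex (w : ι → ℕ) (c : ι → ZMod n) (r s m : ZMod n) :
    L (ex 1 1 w) (ex r s c) m = L w c m + fr (m * r) + fr (m * s) := by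
  unfold L
  rw [Fintype.sum_option, Fintype.sum_option]
  simp only [ex]
  push_cast
  ring

end


end Pool.Agent.U68.HX
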