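import Pool.Agent.U68.HX.Eight

set_option autoImplicit false

/-!
# Degeneration to nine residues
-/

namespace Pool.Agent.U68.HX

open Finset Pool.Agent.U15.DP

variable {n : ℕ} [NeZero n]

/-- the sum over a list of residues -/
def SL (M : List (ZMod n)) (m : ZMod n) : ℚ := (M.map fun x => fr (m * x)).sum

theorem SL_cons (x : ZMod n) (M : List (ZMod n)) (m : ZMod n) :
    SL (x :: M) m = fr (m * x) + SL M m := by
  unfold SL
  rw [List.map_cons, List.sum_cons]

theorem SL_nonneg (M : List (ZMod n)) (m : ZMod n) : 0 ≤ SL M m := by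
  induction M with
  | nil => simp [SL]
  | cons x M ih =>
    rw [SL_cons]
    exact add_nonneg (fr_nonneg _) ih

theorem fr_add_le' (x y : ZMod n) : fr (x + y) ≤ fr x + fr y := by
  rw [fr_add]
  have h0 : 0 ≤ fr x + fr y := add_nonneg (fr_nonneg x) (fr_nonneg y)
  have h1 : (0 : ℚ) ≤ ⌊fr x + fr y⌋ := by exact_mod_cast Int.floor_nonneg.mpr h0
  have h2 := Int.self_sub_floor (fr x + fr y)
  linarith

theorem fr_sum_le (M : List (ZMod n)) (m : ZMod n) : fr (m * M.sum) ≤ SL M m := by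
  induction M with
  | nil => simp [SL, fr_zero]
  | cons x M ih =>
    rw [List.sum_cons, mul_add, SL_cons]
    exact (fr_add_le' _ _).trans (by linarith)

theorem fr_sum_eq (M : List (ZMod n)) (m : ZMod n) (h : SL M m < 1) : fr (m * M.sum) = SL M m := by
  induction M with
  | nil => simp [SL, fr_zero]
  | cons x M ih =>
    rw [SL_cons] at h
    have h1 := fr_nonneg (m * x)
    have h2 := ih (by linarith)
    rw [List.sum_cons, mul_add, SL_cons, fr_add_of_lt (by rw [h2]; exact h), h2]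

/-- indicator -/
def ix (x : ZMod n) : ℕ := if x = 0 then 0 else 1

/-- the data: two lists of fibres, a common fibre `c` and six boundary residues -/
structure St (M₁ M₀ : List (ZMod n)) (c e₀ l₀ e₁ l₁ e₂ l₂ : ZMod n) : Prop where
  n1 : ∀ x ∈ M₁, x ≠ 0
  n0 : ∀ x ∈ M₀, x ≠ 0
  nc : c ≠ 0
  c1 : 3 ≤ M₁.length + ix e₀ + ix l₀
  c0 : 3 ≤ M₀.length + ix e₁ + ix l₁
  r0 : M₁.sum + c + e₀ + l₀ = 0
  r1 : M₀.sum + c + e₁ + l₁ = 0
  rD : M₀.sum + M₁.sum + c + l₀ + l₁ + l₂ = 0
  rE : M₀.sum + M₁.sum + c + e₀ + e₁ + e₂ = 0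
  t0 : SL M₁ 1 + fr (1 * c) + fr (1 * e₀) + fr (1 * l₀) ≤ 1
  t1 : SL M₀ (-1) + fr (-1 * c) + fr (-1 * e₁) + fr (-1 * l₁) ≤ 1
  H : ∀ m : ZMod n, SL M₁ m + fr (m * c) + fr (m * e₀) + fr (m * l₀) ≤ 1 ∨
    SL M₀ m + fr (m * c) + fr (m * e₁) + fr (m * l₁) ≤ 1 ∨
    SL M₀ m + SL M₁ m + fr (m * e₂) + fr (m * l₂) ≤ 1 ∨
    SL M₀ m + SL M₁ m + fr (m * c) + fr (m * l₀) + fr (m * l₁) + fr (m * l₂) ≤ 2 ∨
    SL M₀ m + SL M₁ m + fr (m * c) + fr (m * e₀) + fr (m * e₁) + fr (m * e₂) ≤ 2

variable {M₁ M₀ : List (ZMod n)} {c e₀ l₀ e₁ l₁ e₂ l₂ x : ZMod n}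

/-- exchange of the exceptional curves and the lines -/
theorem St.swap (S : St M₁ M₀ c e₀ l₀ e₁ l₁ e₂ l₂) : St M₁ M₀ c l₀ e₀ l₁ e₁ l₂ e₂ where
  n1 := S.n1
  n0 := S.n0
  nc := S.nc
  c1 := by have := S.c1; omega
  c0 := by have := S.c0; omega
  r0 := by linear_combination S.r0
  r1 := by linear_combination S.r1
  rD := S.rE
  rE := S.rD
  t0 := by have := S.t0; linarith
  t1 := by have := S.t1; linarith
  H m := by
    rcases S.H m with h | h | h | h | h
    · left; linarith
    · right; left; linarith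
    · right; right; left; linarith
    · right; right; right; right; linarith
    · right; right; right; left; linarith

theorem SL_neg (M : List (ZMod n)) (m : ZMod n) : SL (M.map fun x => -x) m = SL M (-m) := by
  unfold SL
  rw [List.map_map]
  congr 1
  apply List.map_congr_left
  intro x _
  simp only [Function.comp_apply, mul_neg, neg_mul]

theorem sum_neg' (M : List (ZMod n)) : (M.map fun x => -x).sum = -M.sum := by
  induction M with
  | nil => simp
  | cons x M ih => rw [List.map_cons, List.sum_cons, List.sum_cons, ih]; ring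

theorem ix_neg (x : ZMod n) : ix (-x) = ix x := by
  unfold ix
  simp only [neg_eq_zero]

theorem neg_mul_neg_one (x : ZMod n) : (1 : ZMod n) * -x = -1 * x := by ring

/-- exchange of the two pencils -/
theorem St.neg (S : St M₁ M₀ c e₀ l₀ e₁ l₁ e₂ l₂) :
    St (M₀.map fun x => -x) (M₁.map fun x => -x) (-c) (-e₁) (-l₁) (-e₀) (-l₀) (-e₂) (-l₂) where
  n1 := by
    intro x hx
    rw [List.mem_map] at hx
    obtain ⟨y, hy, rfl⟩ := hx
    exact neg_ne_zero.mpr (S.n0 y hy)
  n0 := by
    intro x hx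
    rw [List.mem_map] at hx
    obtain ⟨y, hy, rfl⟩ := hx
    exact neg_ne_zero.mpr (S.n1 y hy)
  nc := neg_ne_zero.mpr S.nc
  c1 := by
    rw [ix_neg, ix_neg, List.length_map]
    exact S.c0
  c0 := by
    rw [ix_neg, ix_neg, List.length_map]
    exact S.c1
  r0 := by
    rw [sum_neg']
    linear_combination -S.r1
  r1 := by
    rw [sum_neg']
    linear_combination -S.r0
  rD := by
    rw [sum_neg', sum_neg']
    linear_combination -S.rD
  rE := by
    rw [sum_neg', sum_neg']
    linear_combination -S.rE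
  t0 := by
    rw [SL_neg, neg_mul_neg_one, neg_mul_neg_one, neg_mul_neg_one]
    exact S.t1
  t1 := by
    rw [SL_neg, neg_neg, neg_mul_neg, neg_mul_neg, neg_mul_neg]
    exact S.t0
  H m := by
    rw [SL_neg, SL_neg]
    have e : ∀ x : ZMod n, m * -x = -m * x := by intro x; ring
    simp only [e]
    rcases S.H (-m) with h | h | h | h | h
    · right; left; linarith
    · left; linarith
    · right; right; left; linarith
    · right; right; right; left; linarith
    · right; right; right; right; linarith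

/-- replace a member of the first list by a boundary curve -/
theorem St.fill (S : St (x :: M₁) M₀ c 0 l₀ e₁ l₁ e₂ l₂) : St M₁ M₀ c x l₀ e₁ l₁ e₂ (l₂ + x) where
  n1 := fun y hy => S.n1 y (List.mem_cons_of_mem _ hy)
  n0 := S.n0
  nc := S.nc
  c1 := by
    have h := S.c1
    have h0 : ix (0 : ZMod n) = 0 := by simp [ix]
    have h1 : ix x = 1 := by
      unfold ix
      rw [if_neg (S.n1 x List.mem_cons_self)]
    rw [List.length_cons, h0] at h
    rw [h1]
    omega
  c0 := S.c0
  r0 := by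
    have := S.r0
    rw [List.sum_cons] at this
    linear_combination this
  r1 := S.r1
  rD := by
    have := S.rD
    rw [List.sum_cons] at this
    linear_combination this
  rE := by
    have := S.rE
    rw [List.sum_cons] at this
    linear_combination this
  t0 := by
    have := S.t0
    rw [SL_cons, mul_zero, fr_zero] at this
    linarith
  t1 := S.t1
  H m := by
    have h2 := fr_add_le' (m * l₂) (m * x)
    rw [← mul_add] at h2
    have := S.H m
    rw [SL_cons, mul_zero, fr_zero] at this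
    rcases this with h | h | h | h | h
    · left; linarith
    · right; left; linarith
    · right; right; left; linarith
    · right; right; right; left; linarith
    · right; right; right; right; linarith

theorem ix_le (x : ZMod n) : ix x ≤ 1 := by
  unfold ix
  split_ifs <;> omega

theorem ix_zero : ix (0 : ZMod n) = 0 := by simp [ix]

theorem ix_one (h : x ≠ 0) : ix x = 1 := by
  unfold ix
  rw [if_neg h]

/-- make `e₀` nonzero -/
theorem St.fillE0 (S : St M₁ M₀ c e₀ l₀ e₁ l₁ e₂ l₂) :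
    ∃ M₁' e₀' l₂', e₀' ≠ 0 ∧ St M₁' M₀ c e₀' l₀ e₁ l₁ e₂ l₂' := by
  by_cases h : e₀ = 0
  · subst h
    cases M₁ with
    | nil =>
      have := S.c1
      have h1 := ix_le l₀
      rw [ix_zero] at this
      simp at this
      omega
    | cons x M₁ => exact ⟨M₁, x, l₂ + x, S.n1 x List.mem_cons_self, S.fill⟩
  · exact ⟨M₁, e₀, l₂, h, S⟩

/-- the nine residues of three fibres and six boundary curves -/
theorem nine_of {x₀ x₁ x₂ e₀ l₀ e₁ l₁ e₂ l₂ : ZMod n} (hx0 : x₀ ≠ 0) (hx1 : x₁ ≠ 0) (hx2 : x₂ ≠ 0)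
    (he0 : e₀ ≠ 0) (hl0 : l₀ ≠ 0) (he1 : e₁ ≠ 0) (hl1 : l₁ ≠ 0) (he2 : e₂ ≠ 0) (hl2 : l₂ ≠ 0)
    (r0 : x₁ + x₂ + e₀ + l₀ = 0) (r1 : x₀ + x₂ + e₁ + l₁ = 0)
    (rD : x₀ + x₁ + x₂ + l₀ + l₁ + l₂ = 0) (rE : x₀ + x₁ + x₂ + e₀ + e₁ + e₂ = 0)
    (H : ∀ m : ZMod n, fr (m * x₁) + fr (m * x₂) + fr (m * e₀) + fr (m * l₀) ≤ 1 ∨
      fr (m * x₀) + fr (m * x₂) + fr (m * e₁) + fr (m * l₁) ≤ 1 ∨
      fr (m * x₀) + fr (m * x₁) + fr (m * e₂) + fr (m * l₂) ≤ 1 ∨
      fr (m * x₀) + fr (m * x₁) + fr (m * x₂) + fr (m * l₀) + fr (m * l₁) + fr (m * l₂) ≤ 2 ∨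
      fr (m * x₀) + fr (m * x₁) + fr (m * x₂) + fr (m * e₀) + fr (m * e₁) + fr (m * e₂) ≤ 2) :
    False := by
  set a : Fin 3 → ZMod n := ![x₀, x₁ + (x₀ + l₂), x₂ + (x₁ + (x₀ + l₂) + l₀)] with ha
  set b : Fin 3 → ZMod n := ![0, x₀ + l₂, x₁ + (x₀ + l₂) + l₀] with hb
  have d00 : a 0 - b 0 = x₀ := by simp [ha, hb]
  have d11 : a 1 - b 1 = x₁ := by simp [ha, hb]
  have d22 : a 2 - b 2 = x₂ := by simp [ha, hb]
  have d01 : b 1 - a 0 = l₂ := by simp [ha, hb]
  have d12 : b 2 - a 1 = l₀ := by simp [ha, hb]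
  have d20 : b 0 - a 2 = l₁ := by
    simp only [ha, hb, Matrix.cons_val_zero, Matrix.cons_val]
    linear_combination -rD
  have d10 : b 0 - a 1 = e₂ := by
    simp only [ha, hb, Matrix.cons_val_zero, Matrix.cons_val_one]
    linear_combination r0 + r1 - rD - rE
  have d02 : b 2 - a 0 = e₁ := by
    simp only [ha, hb, Matrix.cons_val_zero, Matrix.cons_val]
    linear_combination rD - r1
  have d21 : b 1 - a 2 = e₀ := by
    simp only [ha, hb, Matrix.cons_val_one, Matrix.cons_val]
    linear_combination -r0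
  have ne_of : ∀ {u v w : ZMod n}, u - v = w → w ≠ 0 → u ≠ v := by
    intro u v w h hw huv
    exact hw (by rw [← h, huv, sub_self])
  have hne : ∀ i j, a i ≠ b j := by
    intro i j
    have hi : i = 0 ∨ i = 1 ∨ i = 2 := by omega
    have hj : j = 0 ∨ j = 1 ∨ j = 2 := by omega
    rcases hi with rfl | rfl | rfl <;> rcases hj with rfl | rfl | rfl
    · exact ne_of d00 hx0
    · exact (ne_of d01 hl2).symm
    · exact (ne_of d02 he1).symm
    · exact (ne_of d10 he2).symm
    · exact ne_of d11 hx1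
    · exact (ne_of d12 hl0).symm
    · exact (ne_of d20 hl1).symm
    · exact (ne_of d21 he0).symm
    · exact ne_of d22 hx2
  refine nine hne ?_
  intro m
  unfold Alt nA nB nC nD nE
  simp only [← mul_sub, d00, d11, d22, d01, d12, d20, d10, d02, d21]
  rcases H m with h | h | h | h | h
  · left; linarith
  · right; left; linarith
  · right; right; left; linarith
  · right; right; right; left; linarith
  · right; right; right; right; linarith

/-- the final step -/
theorem St.false_of_ne (S : St M₁ M₀ c e₀ l₀ e₁ l₁ e₂ l₂) (he0 : e₀ ≠ 0) (hl0 : l₀ ≠ 0)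
    (he1 : e₁ ≠ 0) (hl1 : l₁ ≠ 0) : False := by
  have pos1 : ∀ (M : List (ZMod n)) (m : ZMod n), (∀ x ∈ M, m * x ≠ 0) → 1 ≤ M.length →
      0 < SL M m := by
    intro M m hM hl
    cases M with
    | nil => simp at hl
    | cons x M =>
      rw [SL_cons]
      have := fr_pos (hM x List.mem_cons_self)
      linarith [SL_nonneg M m]
  have k1 : 1 ≤ M₁.length := by
    have := S.c1
    rw [ix_one he0, ix_one hl0] at this
    omega
  have k0 : 1 ≤ M₀.length := by
    have := S.c0
    rw [ix_one he1, ix_one hl1] at this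
    omega
  have p1 := pos1 M₁ 1 (by intro x hx; rw [one_mul]; exact S.n1 x hx) k1
  have p0 := pos1 M₀ (-1) (by
    intro x hx
    rw [neg_mul, one_mul]
    exact neg_ne_zero.mpr (S.n0 x hx)) k0
  have t0 := S.t0
  have t1 := S.t1
  simp only [one_mul, neg_mul] at t0 t1
  have qc := fr_pos S.nc
  have qc' := fr_neg_of_ne S.nc
  have lc := fr_lt_one c
  have qe0 := fr_pos he0
  have ql0 := fr_pos hl0
  have qe1 := fr_pos (neg_ne_zero.mpr he1)
  have ql1 := fr_pos (neg_ne_zero.mpr hl1)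
  have x1 : M₁.sum ≠ 0 := by
    intro h
    have h1 := fr_sum_eq M₁ 1 (by linarith)
    rw [h, mul_zero, fr_zero] at h1
    linarith
  have x0 : M₀.sum ≠ 0 := by
    intro h
    have h1 := fr_sum_eq M₀ (-1) (by linarith)
    rw [h, mul_zero, fr_zero] at h1
    linarith
  have hl2 : l₂ = c + e₀ + e₁ := by linear_combination S.rD - S.r0 - S.r1
  have he2 : e₂ = c + l₀ + l₁ := by linear_combination S.rE - S.r0 - S.r1
  have l2 : l₂ ≠ 0 := by
    intro h
    have h1 : c + e₀ = -e₁ := by rw [h] at hl2; linear_combination -hl2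
    have h2 := fr_add_of_lt (x := c) (y := e₀) (by linarith)
    rw [h1] at h2
    linarith
  have e2 : e₂ ≠ 0 := by
    intro h
    have h1 : c + l₀ = -l₁ := by rw [h] at he2; linear_combination -he2
    have h2 := fr_add_of_lt (x := c) (y := l₀) (by linarith)
    rw [h1] at h2
    linarith
  refine nine_of x0 x1 S.nc he0 hl0 he1 hl1 e2 l2 S.r0 S.r1 (by linear_combination S.rD)
    (by linear_combination S.rE) ?_
  intro m
  have s1 := fr_sum_le M₁ m
  have s0 := fr_sum_le M₀ m
  rcases S.H m with h | h | h | h | h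
  · left; linarith
  · right; left; linarith
  · right; right; left; linarith
  · right; right; right; left; linarith
  · right; right; right; right; linarith

/-- **no system with one common fibre** -/
theorem St.false (S : St M₁ M₀ c e₀ l₀ e₁ l₁ e₂ l₂) : False := by
  obtain ⟨M₁, e₀, l₂, h1, S⟩ := S.fillE0
  obtain ⟨M₁, l₀, e₂, h2, S⟩ := S.swap.fillE0
  obtain ⟨M₂, f₁, l₃, h3, S⟩ := S.swap.neg.fillE0
  obtain ⟨M₂, g₁, l₃, h4, S⟩ := S.swap.fillE0
  exact S.false_of_ne h4 h3 (neg_ne_zero.mpr h2) (neg_ne_zero.mpr h1)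

end Pool.Agent.U68.HX
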