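import Pool.Agent.U68.HX.Main

set_option autoImplicit false

/-!
# Interlacing

If the nine residues `a i - b j` are not zero and the five sums are of root type for `1` and `-1`, then the six points
interlace on the circle and the energy is at most `1 / 4`.
-/

namespace Pool.Agent.U68.HX

open Finset Pool.Agent.U15.DP

/-- the kernel on `[0, 1)` -/
def kk (u v : ℚ) : ℚ := |u - v| * (1 - |u - v|)

theorem kk_comm (u v : ℚ) : kk u v = kk v u := by
  unfold kk
  rw [abs_sub_comm]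

theorem kk_of_le {u v : ℚ} (h : u ≤ v) : kk u v = (v - u) * (1 - (v - u)) := by
  unfold kk
  rw [abs_sub_comm, abs_of_nonneg (by linarith)]

/-- the energy of six alternating points -/
theorem energy_sorted {y₀ x₀ y₁ x₁ y₂ x₂ : ℚ} (h1 : y₀ ≤ x₀) (h2 : x₀ ≤ y₁) (h3 : y₁ ≤ x₁)
    (h4 : x₁ ≤ y₂) (h5 : y₂ ≤ x₂) :
    kk y₀ x₀ + kk y₀ x₁ + kk y₀ x₂ + kk x₀ y₁ + kk y₁ x₁ + kk y₁ x₂ + kk x₀ y₂ + kk x₁ y₂ +
      kk y₂ x₂ - (kk x₀ x₁ + kk x₀ x₂ + kk x₁ x₂) - (kk y₀ y₁ + kk y₀ y₂ + kk y₁ y₂) ≤ 1 / 4 := by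
  rw [kk_of_le h1, kk_of_le (by linarith : y₀ ≤ x₁), kk_of_le (by linarith : y₀ ≤ x₂),
    kk_of_le h2, kk_of_le h3, kk_of_le (by linarith : y₁ ≤ x₂), kk_of_le (by linarith : x₀ ≤ y₂),
    kk_of_le h4, kk_of_le h5, kk_of_le (by linarith : x₀ ≤ x₁), kk_of_le (by linarith : x₀ ≤ x₂),
    kk_of_le (by linarith : x₁ ≤ x₂), kk_of_le (by linarith : y₀ ≤ y₁),
    kk_of_le (by linarith : y₀ ≤ y₂), kk_of_le (by linarith : y₁ ≤ y₂)]
  nlinarith [sq_nonneg ((x₀ + x₁ + x₂ - y₀ - y₁ - y₂) - 1 / 2)]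

theorem kk_self (x : ℚ) : kk x x = 0 := by
  unfold kk
  simp

theorem perm_sum (A B : Fin 3 → ℚ) {i j k u v : Fin 3} (hij : i ≠ j) (hik : i ≠ k) (hjk : j ≠ k)
    (hu : u ≠ 0) (hv : v ≠ 0) (huv : u ≠ v)
    (hs : kk (B 0) (A i) + kk (B 0) (A j) + kk (B 0) (A k) + kk (A i) (B u) + kk (B u) (A j) +
      kk (B u) (A k) + kk (A i) (B v) + kk (A j) (B v) + kk (B v) (A k) -
      (kk (A i) (A j) + kk (A i) (A k) + kk (A j) (A k)) -
      (kk (B 0) (B u) + kk (B 0) (B v) + kk (B u) (B v)) ≤ 1 / 4) :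
    ∑ i, ∑ j, kk (A i) (B j) - 1 / 2 * ∑ i, ∑ j, kk (A i) (A j) -
      1 / 2 * ∑ i, ∑ j, kk (B i) (B j) ≤ 1 / 4 := by
  have hperm : (i = 0 ∧ j = 1 ∧ k = 2) ∨ (i = 0 ∧ j = 2 ∧ k = 1) ∨ (i = 1 ∧ j = 0 ∧ k = 2) ∨
      (i = 1 ∧ j = 2 ∧ k = 0) ∨ (i = 2 ∧ j = 0 ∧ k = 1) ∨ (i = 2 ∧ j = 1 ∧ k = 0) := by
    omega
  have hperm' : (u = 1 ∧ v = 2) ∨ (u = 2 ∧ v = 1) := by omega
  clear hij hik hjk hu hv huv
  simp only [Fin.sum_univ_three, kk_self]
  rw [kk_comm (A 1) (A 0), kk_comm (A 2) (A 0), kk_comm (A 2) (A 1),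
    kk_comm (B 1) (B 0), kk_comm (B 2) (B 0), kk_comm (B 2) (B 1)]
  rw [kk_comm (B 0) (A i), kk_comm (B 0) (A j), kk_comm (B 0) (A k), kk_comm (B u) (A j),
    kk_comm (B u) (A k), kk_comm (B v) (A k)] at hs
  have a01 := kk_comm (A 1) (A 0)
  have a02 := kk_comm (A 2) (A 0)
  have a12 := kk_comm (A 2) (A 1)
  have b12 := kk_comm (B 2) (B 1)
  rcases hperm with ⟨rfl, rfl, rfl⟩ | ⟨rfl, rfl, rfl⟩ | ⟨rfl, rfl, rfl⟩ | ⟨rfl, rfl, rfl⟩ |
    ⟨rfl, rfl, rfl⟩ | ⟨rfl, rfl, rfl⟩ <;> rcases hperm' with ⟨rfl, rfl⟩ | ⟨rfl, rfl⟩ <;>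
  linarith

variable {n : ℕ} [NeZero n]

theorem fr_inj {x y : ZMod n} (h : fr x = fr y) : x = y := by
  unfold fr at h
  have h0 := cast_pos' (n := n)
  rw [div_left_inj' h0.ne'] at h
  exact ZMod.val_injective n (by exact_mod_cast h)

theorem fr_sub_of_le {x y : ZMod n} (h : fr y ≤ fr x) : fr (x - y) = fr x - fr y := by
  have h1 := fr_add x (-y)
  rw [← sub_eq_add_neg] at h1
  have h2 := fr_neg y
  have h3 : Int.fract (fr x - fr y) = fr x - fr y :=
    Int.fract_eq_self.mpr ⟨by linarith, by linarith [fr_lt_one x, fr_nonneg y]⟩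
  rw [h1, h2]
  have h4 : fr x + Int.fract (-fr y) = fr x - fr y + ((-⌊-fr y⌋ : ℤ) : ℚ) := by
    rw [← Int.self_sub_floor]
    push_cast
    ring
  rw [h4, Int.fract_add_intCast, h3]

theorem fr_sub_of_lt {x y : ZMod n} (h : fr x < fr y) : fr (x - y) = fr x - fr y + 1 := by
  have hne : y - x ≠ 0 := by
    intro h0
    rw [sub_eq_zero] at h0
    rw [h0] at h
    exact lt_irrefl _ h
  have h1 := fr_neg_of_ne hne
  rw [neg_sub, fr_sub_of_le h.le] at h1
  linarith

theorem Q_sub (x y : ZMod n) : Q (x - y) = kk (fr x) (fr y) := by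
  rcases le_or_gt (fr y) (fr x) with h | h
  · rw [kk_comm, kk_of_le h]
    unfold Q
    rw [fr_sub_of_le h]
  · rw [kk_of_le h.le]
    unfold Q
    rw [fr_sub_of_lt h]
    ring

/-- the indicator -/
theorem exists_ind {x y : ZMod n} (h : x ≠ y) : ∃ e : ℤ, fr (x - y) = fr x - fr y + e ∧
    ((e = 1 ∧ fr x < fr y) ∨ (e = 0 ∧ fr y < fr x)) := by
  rcases lt_trichotomy (fr x) (fr y) with h1 | h1 | h1
  · refine ⟨1, ?_, Or.inl ⟨rfl, h1⟩⟩
    rw [fr_sub_of_lt h1]
    push_cast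
    rfl
  · exact absurd (fr_inj h1) h
  · refine ⟨0, ?_, Or.inr ⟨rfl, h1⟩⟩
    rw [fr_sub_of_le h1.le]
    push_cast
    ring

/-- the five numbers -/
def nA (a b : Fin 3 → ZMod n) : ℚ :=
  fr (a 1 - b 1) + fr (a 2 - b 2) + fr (b 2 - a 1) + fr (b 1 - a 2)

def nB (a b : Fin 3 → ZMod n) : ℚ :=
  fr (a 0 - b 0) + fr (a 2 - b 2) + fr (b 2 - a 0) + fr (b 0 - a 2)

def nC (a b : Fin 3 → ZMod n) : ℚ :=
  fr (a 0 - b 0) + fr (a 1 - b 1) + fr (b 1 - a 0) + fr (b 0 - a 1)

def nD (a b : Fin 3 → ZMod n) : ℚ :=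
  fr (a 0 - b 0) + fr (a 1 - b 1) + fr (a 2 - b 2) + fr (b 1 - a 0) + fr (b 2 - a 1) +
    fr (b 0 - a 2)

def nE (a b : Fin 3 → ZMod n) : ℚ :=
  fr (a 0 - b 0) + fr (a 1 - b 1) + fr (a 2 - b 2) + fr (b 2 - a 0) + fr (b 0 - a 1) +
    fr (b 1 - a 2)

/-- one of the five alternatives -/
def Alt (a b : Fin 3 → ZMod n) : Prop :=
  nA a b ≤ 1 ∨ nB a b ≤ 1 ∨ nC a b ≤ 1 ∨ nD a b ≤ 2 ∨ nE a b ≤ 2

set_option maxHeartbeats 1600000 in
theorem inter0 {a b : Fin 3 → ZMod n} (hne : ∀ i j, a i ≠ b j) (hb0 : b 0 = 0)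
    (hp : Alt a b) (hm : Alt (fun i => -a i) (fun i => -b i)) :
    Function.Injective a ∧ Function.Injective b ∧ En a b ≤ 1 / 4 := by
  have hpa : ∀ i, 0 < fr (a i) := by
    intro i
    apply fr_pos
    intro h
    exact hne i 0 (by rw [h, hb0])
  have hf0 : fr (b 0) = 0 := by rw [hb0, fr_zero]
  have hq0 : ∀ j, 0 ≤ fr (b j) := fun j => fr_nonneg _
  obtain ⟨e01, f01, g01⟩ := exists_ind (hne 0 1)
  obtain ⟨e02, f02, g02⟩ := exists_ind (hne 0 2)
  obtain ⟨e11, f11, g11⟩ := exists_ind (hne 1 1)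
  obtain ⟨e12, f12, g12⟩ := exists_ind (hne 1 2)
  obtain ⟨e21, f21, g21⟩ := exists_ind (hne 2 1)
  obtain ⟨e22, f22, g22⟩ := exists_ind (hne 2 2)
  have f00 : fr (a 0 - b 0) = fr (a 0) := by rw [hb0, sub_zero]
  have f10 : fr (a 1 - b 0) = fr (a 1) := by rw [hb0, sub_zero]
  have f20 : fr (a 2 - b 0) = fr (a 2) := by rw [hb0, sub_zero]
  have fneg : ∀ i j, fr (b j - a i) = 1 - fr (a i - b j) := by
    intro i j
    rw [← fr_neg_of_ne (sub_ne_zero.mpr (hne i j)), neg_sub]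
  have e1 : ∀ i j, -a i - -b j = b j - a i := by intro i j; ring
  have e2 : ∀ i j, -b j - -a i = a i - b j := by intro i j; ring
  unfold Alt nA nB nC nD nE at hp hm
  simp only [e1, e2, fneg] at hp hm
  rw [f00, f10, f20, f01, f02, f11, f12, f21, f22] at hp hm
  have hp' : e11 + e22 - e12 - e21 ≤ -1 ∨ e22 - e02 ≤ -1 ∨ e11 - e01 ≤ -1 ∨
      e11 + e22 - e01 - e12 ≤ -1 ∨ e11 + e22 - e02 - e21 ≤ -1 := by
    rcases hp with h | h | h | h | h
    · left
      have : ((e11 + e22 - e12 - e21 : ℤ) : ℚ) ≤ ((-1 : ℤ) : ℚ) := by push_cast; linarith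
      exact_mod_cast this
    · right; left
      have : ((e22 - e02 : ℤ) : ℚ) ≤ ((-1 : ℤ) : ℚ) := by push_cast; linarith
      exact_mod_cast this
    · right; right; left
      have : ((e11 - e01 : ℤ) : ℚ) ≤ ((-1 : ℤ) : ℚ) := by push_cast; linarith
      exact_mod_cast this
    · right; right; right; left
      have : ((e11 + e22 - e01 - e12 : ℤ) : ℚ) ≤ ((-1 : ℤ) : ℚ) := by push_cast; linarith
      exact_mod_cast this
    · right; right; right; right
      have : ((e11 + e22 - e02 - e21 : ℤ) : ℚ) ≤ ((-1 : ℤ) : ℚ) := by push_cast; linarith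
      exact_mod_cast this
  have hm' : 1 ≤ e11 + e22 - e12 - e21 ∨ 1 ≤ e22 - e02 ∨ 1 ≤ e11 - e01 ∨
      1 ≤ e11 + e22 - e01 - e12 ∨ 1 ≤ e11 + e22 - e02 - e21 := by
    rcases hm with h | h | h | h | h
    · left
      have : ((1 : ℤ) : ℚ) ≤ ((e11 + e22 - e12 - e21 : ℤ) : ℚ) := by push_cast; linarith
      exact_mod_cast this
    · right; left
      have : ((1 : ℤ) : ℚ) ≤ ((e22 - e02 : ℤ) : ℚ) := by push_cast; linarith
      exact_mod_cast this
    · right; right; left
      have : ((1 : ℤ) : ℚ) ≤ ((e11 - e01 : ℤ) : ℚ) := by push_cast; linarith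
      exact_mod_cast this
    · right; right; right; left
      have : ((1 : ℤ) : ℚ) ≤ ((e11 + e22 - e01 - e12 : ℤ) : ℚ) := by push_cast; linarith
      exact_mod_cast this
    · right; right; right; right
      have : ((1 : ℤ) : ℚ) ≤ ((e11 + e22 - e02 - e21 : ℤ) : ℚ) := by push_cast; linarith
      exact_mod_cast this
  -- nestedness
  have nest : (fr (b 1) ≤ fr (b 2) ∧ e01 ≤ e02 ∧ e11 ≤ e12 ∧ e21 ≤ e22) ∨
      (fr (b 2) ≤ fr (b 1) ∧ e02 ≤ e01 ∧ e12 ≤ e11 ∧ e22 ≤ e21) := by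
    rcases le_total (fr (b 1)) (fr (b 2)) with h | h
    · left
      refine ⟨h, ?_, ?_, ?_⟩
      · rcases g01 with ⟨r1, r2⟩ | ⟨r1, r2⟩ <;> rcases g02 with ⟨r3, r4⟩ | ⟨r3, r4⟩ <;>
          first | omega | (exfalso; linarith)
      · rcases g11 with ⟨r1, r2⟩ | ⟨r1, r2⟩ <;> rcases g12 with ⟨r3, r4⟩ | ⟨r3, r4⟩ <;>
          first | omega | (exfalso; linarith)
      · rcases g21 with ⟨r1, r2⟩ | ⟨r1, r2⟩ <;> rcases g22 with ⟨r3, r4⟩ | ⟨r3, r4⟩ <;>
          first | omega | (exfalso; linarith)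
    · right
      refine ⟨h, ?_, ?_, ?_⟩
      · rcases g01 with ⟨r1, r2⟩ | ⟨r1, r2⟩ <;> rcases g02 with ⟨r3, r4⟩ | ⟨r3, r4⟩ <;>
          first | omega | (exfalso; linarith)
      · rcases g11 with ⟨r1, r2⟩ | ⟨r1, r2⟩ <;> rcases g12 with ⟨r3, r4⟩ | ⟨r3, r4⟩ <;>
          first | omega | (exfalso; linarith)
      · rcases g21 with ⟨r1, r2⟩ | ⟨r1, r2⟩ <;> rcases g22 with ⟨r3, r4⟩ | ⟨r3, r4⟩ <;>
          first | omega | (exfalso; linarith)
  -- the twelve orders
  have main : ∀ {i j k : Fin 3} {u v : Fin 3}, i ≠ j → i ≠ k → j ≠ k → u ≠ 0 → v ≠ 0 → u ≠ v →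
      fr (a i) < fr (b u) → fr (b u) < fr (a j) → fr (a j) < fr (b v) → fr (b v) < fr (a k) →
      Function.Injective a ∧ Function.Injective b ∧ En a b ≤ 1 / 4 := by
    intro i j k u v hij hik hjk hu hv huv h1 h2 h3 h4
    have h0 := hpa i
    have hs := energy_sorted (y₀ := fr (b 0)) (x₀ := fr (a i)) (y₁ := fr (b u)) (x₁ := fr (a j))
      (y₂ := fr (b v)) (x₂ := fr (a k)) (by linarith) h1.le h2.le h3.le h4.le
    have hperm : (i = 0 ∧ j = 1 ∧ k = 2) ∨ (i = 0 ∧ j = 2 ∧ k = 1) ∨ (i = 1 ∧ j = 0 ∧ k = 2) ∨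
        (i = 1 ∧ j = 2 ∧ k = 0) ∨ (i = 2 ∧ j = 0 ∧ k = 1) ∨ (i = 2 ∧ j = 1 ∧ k = 0) := by
      omega
    have hperm' : (u = 1 ∧ v = 2) ∨ (u = 2 ∧ v = 1) := by omega
    have inj3 : ∀ f : Fin 3 → ZMod n, fr (f 0) ≠ fr (f 1) → fr (f 0) ≠ fr (f 2) →
        fr (f 1) ≠ fr (f 2) → Function.Injective f := by
      intro f h01 h02 h12 r s hrs
      have h := congrArg fr hrs
      have hr : r = 0 ∨ r = 1 ∨ r = 2 := by omega
      have hs' : s = 0 ∨ s = 1 ∨ s = 2 := by omega
      rcases hr with rfl | rfl | rfl <;> rcases hs' with rfl | rfl | rfl <;>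
        first | rfl | exact absurd h h01 | exact absurd h h02 | exact absurd h h12 |
          exact absurd h.symm h01 | exact absurd h.symm h02 | exact absurd h.symm h12
    refine ⟨?_, ?_, ?_⟩
    · rcases hperm with ⟨rfl, rfl, rfl⟩ | ⟨rfl, rfl, rfl⟩ | ⟨rfl, rfl, rfl⟩ | ⟨rfl, rfl, rfl⟩ |
        ⟨rfl, rfl, rfl⟩ | ⟨rfl, rfl, rfl⟩ <;>
      · apply inj3 <;> intro h <;> linarith
    · rcases hperm' with ⟨rfl, rfl⟩ | ⟨rfl, rfl⟩ <;>
      · apply inj3 <;> intro h <;> linarith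
    · unfold En
      simp only [Q_sub]
      exact perm_sum (fun i => fr (a i)) (fun i => fr (b i)) hij hik hjk hu hv huv hs
  clear hp hm f01 f02 f11 f12 f21 f22 e1 e2 fneg f00 f10 f20
  rcases g01 with ⟨rfl, g01⟩ | ⟨rfl, g01⟩ <;> rcases g02 with ⟨rfl, g02⟩ | ⟨rfl, g02⟩ <;>
  rcases g11 with ⟨rfl, g11⟩ | ⟨rfl, g11⟩ <;> rcases g12 with ⟨rfl, g12⟩ | ⟨rfl, g12⟩ <;>
  rcases g21 with ⟨rfl, g21⟩ | ⟨rfl, g21⟩ <;> rcases g22 with ⟨rfl, g22⟩ | ⟨rfl, g22⟩ <;>
  first
    | (exfalso; omega)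
    | exact main (i := 0) (j := 1) (k := 2) (u := 1) (v := 2) (by decide) (by decide) (by decide)
        (by decide) (by decide) (by decide) (by assumption) (by assumption) (by assumption)
        (by assumption)
    | exact main (i := 0) (j := 2) (k := 1) (u := 1) (v := 2) (by decide) (by decide) (by decide)
        (by decide) (by decide) (by decide) (by assumption) (by assumption) (by assumption)
        (by assumption)
    | exact main (i := 1) (j := 0) (k := 2) (u := 1) (v := 2) (by decide) (by decide) (by decide)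
        (by decide) (by decide) (by decide) (by assumption) (by assumption) (by assumption)
        (by assumption)
    | exact main (i := 1) (j := 2) (k := 0) (u := 1) (v := 2) (by decide) (by decide) (by decide)
        (by decide) (by decide) (by decide) (by assumption) (by assumption) (by assumption)
        (by assumption)
    | exact main (i := 2) (j := 0) (k := 1) (u := 1) (v := 2) (by decide) (by decide) (by decide)
        (by decide) (by decide) (by decide) (by assumption) (by assumption) (by assumption)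
        (by assumption)
    | exact main (i := 2) (j := 1) (k := 0) (u := 1) (v := 2) (by decide) (by decide) (by decide)
        (by decide) (by decide) (by decide) (by assumption) (by assumption) (by assumption)
        (by assumption)
    | exact main (i := 0) (j := 1) (k := 2) (u := 2) (v := 1) (by decide) (by decide) (by decide)
        (by decide) (by decide) (by decide) (by assumption) (by assumption) (by assumption)
        (by assumption)
    | exact main (i := 0) (j := 2) (k := 1) (u := 2) (v := 1) (by decide) (by decide) (by decide)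
        (by decide) (by decide) (by decide) (by assumption) (by assumption) (by assumption)
        (by assumption)
    | exact main (i := 1) (j := 0) (k := 2) (u := 2) (v := 1) (by decide) (by decide) (by decide)
        (by decide) (by decide) (by decide) (by assumption) (by assumption) (by assumption)
        (by assumption)
    | exact main (i := 1) (j := 2) (k := 0) (u := 2) (v := 1) (by decide) (by decide) (by decide)
        (by decide) (by decide) (by decide) (by assumption) (by assumption) (by assumption)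
        (by assumption)
    | exact main (i := 2) (j := 0) (k := 1) (u := 2) (v := 1) (by decide) (by decide) (by decide)
        (by decide) (by decide) (by decide) (by assumption) (by assumption) (by assumption)
        (by assumption)
    | exact main (i := 2) (j := 1) (k := 0) (u := 2) (v := 1) (by decide) (by decide) (by decide)
        (by decide) (by decide) (by decide) (by assumption) (by assumption) (by assumption)
        (by assumption)

theorem inter {a b : Fin 3 → ZMod n} (hne : ∀ i j, a i ≠ b j)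
    (hp : Alt a b) (hm : Alt (fun i => -a i) (fun i => -b i)) :
    Function.Injective a ∧ Function.Injective b ∧ En a b ≤ 1 / 4 := by
  have h := inter0 (a := fun i => a i - b 0) (b := fun i => b i - b 0)
    (fun i j h => hne i j (sub_left_injective h)) (sub_self _)
    (by
      unfold Alt nA nB nC nD nE at hp ⊢
      simp only [sub_sub_sub_cancel_right]
      exact hp)
    (by
      unfold Alt nA nB nC nD nE at hm ⊢
      have e : ∀ x y z : ZMod n, -(x - z) - -(y - z) = -x - -y := by intro x y z; ring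
      simp only [e]
      exact hm)
  refine ⟨?_, ?_, ?_⟩
  · intro i j hij
    exact h.1 (by simp only [hij])
  · intro i j hij
    exact h.2.1 (by simp only [hij])
  · have h3 := h.2.2
    unfold En at h3 ⊢
    simp only [sub_sub_sub_cancel_right] at h3
    exact h3

/-- **the case of nine branch curves** -/
theorem nine {a b : Fin 3 → ZMod n} (hne : ∀ i j, a i ≠ b j)
    (H : ∀ m : ZMod n, Alt (fun i => m * a i) (fun i => m * b i)) : False := by
  apply no_config hne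
  intro m hm
  have h := inter (a := fun i => m * a i) (b := fun i => m * b i)
    (fun i j h => hm i j (by rw [mul_sub, h, sub_self])) (H m) (by
      have := H (-m)
      simpa only [neg_mul] using this)
  exact h

end Pool.Agent.U68.HX
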