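import Pool.Agent.U68.HX.Fill

set_option autoImplicit false

/-!
# The numerical theorem for lists of residues
-/

namespace Pool.Agent.U68.HX

open Finset Pool.Agent.U15.DP

variable {n : ℕ} [NeZero n]

theorem fr_pair (x : ZMod n) : fr (1 * x) + fr (-1 * x) = ix x := by
  by_cases h : x = 0
  · subst h
    simp [fr_zero, ix]
  · rw [one_mul, neg_mul, one_mul, fr_neg_of_ne h, ix_one h]
    push_cast
    ring

theorem SL_nil (m : ZMod n) : SL ([] : List (ZMod n)) m = 0 := by simp [SL]

theorem SL_pair (M : List (ZMod n)) (h : ∀ x ∈ M, x ≠ 0) : SL M 1 + SL M (-1) = M.length := by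
  induction M with
  | nil => simp [SL]
  | cons x M ih =>
    have h1 := ih (fun y hy => h y (List.mem_cons_of_mem _ hy))
    have h2 := fr_pair x
    rw [ix_one (h x List.mem_cons_self)] at h2
    rw [SL_cons, SL_cons, List.length_cons]
    push_cast at h2 ⊢
    linarith

theorem SL_append (M N : List (ZMod n)) (m : ZMod n) : SL (M ++ N) m = SL M m + SL N m := by
  unfold SL
  rw [List.map_append, List.sum_append]

theorem SL_add_le (M : List (ZMod n)) (k m : ZMod n) : SL M (k + m) ≤ SL M k + SL M m := by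
  induction M with
  | nil => simp [SL]
  | cons x M ih =>
    rw [SL_cons, SL_cons, SL_cons, add_mul]
    have := fr_add_le' (k * x) (m * x)
    linarith

theorem fr_eq_zero {x : ZMod n} (h : fr x ≤ 0) : x = 0 := by
  by_contra hx
  exact absurd h (not_le.mpr (fr_pos hx))

theorem SL_neg_of (M : List (ZMod n)) (m : ZMod n) (h : SL M m ≤ 0) : SL M (-m) = 0 := by
  induction M with
  | nil => simp [SL]
  | cons x M ih =>
    rw [SL_cons] at h ⊢
    have h1 := fr_nonneg (m * x)
    have h2 := SL_nonneg M m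
    rw [ih (by linarith)]
    have h3 := fr_eq_zero (x := m * x) (by linarith)
    rw [neg_mul, h3, neg_zero, fr_zero, add_zero]

theorem SL_len (M : List (ZMod n)) (hM : ∀ x ∈ M, x ≠ 0) (h : SL M 1 ≤ 0) : M.length = 0 := by
  have h1 := SL_neg_of M 1 h
  have h2 := SL_pair M hM
  have h3 := SL_nonneg M 1
  have h4 : (M.length : ℚ) = 0 := by linarith
  exact_mod_cast h4

theorem SL_int (M : List (ZMod n)) (h : M.sum = 0) (m : ZMod n) : ∃ z : ℤ, SL M m = z := by
  obtain ⟨z, hz⟩ := int_of_sum (L := M.map fun x => m * x) (by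
    rw [List.sum_map_mul_left, List.map_id'' (fun _ => rfl), h, mul_zero])
  refine ⟨z, ?_⟩
  rw [← hz, List.map_map]
  rfl

theorem sum3 {N : Type} [AddCommMonoid N] {j k t : Fin 3} (hjk : j ≠ k) (hjt : j ≠ t) (hkt : k ≠ t)
    (f : Fin 3 → N) : ∑ i, f i = f j + f k + f t := by
  have h : (univ : Finset (Fin 3)) = {j, k, t} := by
    revert j k t
    decide
  rw [h, sum_insert, sum_insert, sum_singleton, add_assoc]
  · simpa using hkt
  · simp only [Finset.mem_insert, Finset.mem_singleton, not_or]
    exact ⟨hjk, hjt⟩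

theorem exists_third {j k : Fin 3} (hjk : j ≠ k) : ∃ t, j ≠ t ∧ k ≠ t := by
  revert j k
  decide

theorem exists_others (j : Fin 3) : ∃ k t, j ≠ k ∧ j ≠ t ∧ k ≠ t := by
  revert j
  decide

/-- the degree on the fibres of the pencil `j` -/
def PL (A : Fin 3 → List (ZMod n)) (B C : List (ZMod n)) (e l : Fin 3 → ZMod n) (j : Fin 3)
    (m : ZMod n) : ℚ :=
  ∑ k, SL (A k) m - SL (A j) m + SL B m + SL C m + fr (m * e j) + fr (m * l j)

/-- the degree on the lines -/
def HL (A : Fin 3 → List (ZMod n)) (B C : List (ZMod n)) (l : Fin 3 → ZMod n) (m : ZMod n) : ℚ :=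
  ∑ k, SL (A k) m + SL B m + 2 * SL C m + ∑ k, fr (m * l k)

/-- the data -/
structure DL (A : Fin 3 → List (ZMod n)) (B C : List (ZMod n)) (e l : Fin 3 → ZMod n) : Prop where
  nA : ∀ j, ∀ x ∈ A j, x ≠ 0
  nB : ∀ x ∈ B, x ≠ 0
  nC : ∀ x ∈ C, x ≠ 0
  r : ∀ j, ∑ k, (A k).sum - (A j).sum + B.sum + C.sum + e j + l j = 0
  rD : ∑ k, (A k).sum + B.sum + 2 * C.sum + ∑ k, l k = 0

/-- one of the alternatives -/
def AltL (A : Fin 3 → List (ZMod n)) (B C : List (ZMod n)) (e l : Fin 3 → ZMod n) (m : ZMod n) :
    Prop :=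
  (∃ j, PL A B C e l j m ≤ 1) ∨ HL A B C l m ≤ 2 ∨ HL A C B e m ≤ 2

variable {A : Fin 3 → List (ZMod n)} {B C : List (ZMod n)} {e l : Fin 3 → ZMod n}

theorem PL_swap (j : Fin 3) (m : ZMod n) : PL A C B l e j m = PL A B C e l j m := by
  unfold PL
  ring

theorem DL.rE (S : DL A B C e l) : ∑ k, (A k).sum + C.sum + 2 * B.sum + ∑ k, e k = 0 := by
  have h0 := S.r 0
  have h1 := S.r 1
  have h2 := S.r 2
  have h3 := S.rD
  rw [Fin.sum_univ_three] at h0 h1 h2 h3
  rw [Fin.sum_univ_three] at h3
  rw [Fin.sum_univ_three, Fin.sum_univ_three]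
  linear_combination h0 + h1 + h2 - h3

theorem DL.swap (S : DL A B C e l) : DL A C B l e where
  nA := S.nA
  nB := S.nC
  nC := S.nB
  r j := by linear_combination S.r j
  rD := S.rE

theorem PL_eq {j k t : Fin 3} (hjk : j ≠ k) (hjt : j ≠ t) (hkt : k ≠ t) (m : ZMod n) :
    PL A B C e l j m =
      SL (A k) m + SL (A t) m + SL B m + SL C m + fr (m * e j) + fr (m * l j) := by
  unfold PL
  rw [sum3 hjk hjt hkt]
  ring

theorem HL_eq {j k t : Fin 3} (hjk : j ≠ k) (hjt : j ≠ t) (hkt : k ≠ t) (m : ZMod n) :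
    HL A B C l m = SL (A j) m + SL (A k) m + SL (A t) m + SL B m + 2 * SL C m +
      (fr (m * l j) + fr (m * l k) + fr (m * l t)) := by
  unfold HL
  rw [sum3 hjk hjt hkt, sum3 hjk hjt hkt]

theorem DL.intP (S : DL A B C e l) (j : Fin 3) (m : ZMod n) : ∃ z : ℤ, PL A B C e l j m = z := by
  obtain ⟨k, t, hjk, hjt, hkt⟩ := exists_others j
  obtain ⟨z, hz⟩ := SL_int (A k ++ (A t ++ (B ++ (C ++ [e j, l j])))) (by
    have := S.r j
    rw [sum3 hjk hjt hkt] at this
    simp only [List.sum_append, List.sum_cons, List.sum_nil]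
    linear_combination this) m
  refine ⟨z, ?_⟩
  rw [← hz, PL_eq hjk hjt hkt]
  simp only [SL_append, SL_cons, SL_nil]
  ring

theorem DL.intH (S : DL A B C e l) (m : ZMod n) : ∃ z : ℤ, HL A B C l m = z := by
  obtain ⟨z, hz⟩ := SL_int (A 0 ++ (A 1 ++ (A 2 ++ (B ++ (C ++ (C ++ [l 0, l 1, l 2])))))) (by
    have := S.rD
    rw [Fin.sum_univ_three, Fin.sum_univ_three] at this
    simp only [List.sum_append, List.sum_cons, List.sum_nil]
    linear_combination this) m
  refine ⟨z, ?_⟩
  rw [← hz]
  unfold HL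
  rw [Fin.sum_univ_three, Fin.sum_univ_three]
  simp only [SL_append, SL_cons, SL_nil]
  ring

theorem le_of_int {x y : ℚ} (hx : ∃ z : ℤ, x = z) (hy : ∃ z : ℤ, y = z) (h : x < y + 1) :
    x ≤ y := by
  obtain ⟨a, rfl⟩ := hx
  obtain ⟨b, rfl⟩ := hy
  have h1 : a < b + 1 := by exact_mod_cast h
  have h2 : a ≤ b := by omega
  exact_mod_cast h2

theorem DL.P_le_H (S : DL A B C e l) (j : Fin 3) (m : ZMod n) :
    PL A B C e l j m ≤ HL A B C l m := by
  apply le_of_int (S.intP j m) (S.intH m)
  obtain ⟨k, t, hjk, hjt, hkt⟩ := exists_others j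
  rw [PL_eq hjk hjt hkt, HL_eq hjk hjt hkt]
  have h1 := fr_lt_one (m * e j)
  have h2 := fr_nonneg (m * l k)
  have h3 := fr_nonneg (m * l t)
  have h4 := SL_nonneg (A j) m
  have h5 := SL_nonneg C m
  linarith

theorem DL.P_le_H' (S : DL A B C e l) (j : Fin 3) (m : ZMod n) :
    PL A B C e l j m ≤ HL A C B e m := by
  rw [← PL_swap]
  exact S.swap.P_le_H j m

theorem sum_P (j k t : Fin 3) (hjk : j ≠ k) (hjt : j ≠ t) (hkt : k ≠ t) (m : ZMod n) :
    PL A B C e l j m + PL A B C e l k m + PL A B C e l t m = HL A B C l m + HL A C B e m := by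
  rw [HL_eq hjk hjt hkt, HL_eq hjk hjt hkt, PL_eq hjk hjt hkt, PL_eq hjk.symm hkt hjt,
    PL_eq hjt.symm hkt.symm hjk]
  ring

theorem PL_pair (hA : ∀ j, ∀ x ∈ A j, x ≠ 0) (hB : ∀ x ∈ B, x ≠ 0) (hC : ∀ x ∈ C, x ≠ 0)
    {j k t : Fin 3} (hjk : j ≠ k) (hjt : j ≠ t) (hkt : k ≠ t) :
    PL A B C e l j 1 + PL A B C e l j (-1) =
      ((A k).length + (A t).length + B.length + C.length + ix (e j) + ix (l j) : ℕ) := by
  rw [PL_eq hjk hjt hkt, PL_eq hjk hjt hkt]
  push_cast
  rw [← SL_pair (A k) (hA k), ← SL_pair (A t) (hA t), ← SL_pair B hB, ← SL_pair C hC,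
    ← fr_pair (e j), ← fr_pair (l j)]
  ring

/-- two subadditive functions -/
theorem no_mixed_abs {a b : ZMod n → ℚ} (ha : ∀ k m, a (k + m) ≤ a k + a m)
    (hb : ∀ k m, b (k + m) ≤ b k + b m) (H' : ∀ k, a k ≤ 1 ∨ b k ≤ 1) (hx : a 1 ≤ 1)
    (hy : b (-1) ≤ 1) (hx2 : 2 < a (-1)) (hy2 : 2 < b 1) : False := by
  have hP : ∀ k : ℕ, a ((k : ZMod n) + 1) ≤ 1 ∧ b (-((k : ZMod n) + 1)) ≤ 1 := by
    intro k
    induction k with
    | zero => simpa using ⟨hx, hy⟩
    | succ k ih =>
      obtain ⟨ih1, ih2⟩ := ih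
      have e1 := hb (((k + 1 : ℕ) : ZMod n) + 1) (-((k : ZMod n) + 1))
      have e2 : (((k + 1 : ℕ) : ZMod n) + 1) + -((k : ZMod n) + 1) = 1 := by
        push_cast
        ring
      rw [e2] at e1
      have e3 := ha (-(((k + 1 : ℕ) : ZMod n) + 1)) ((k : ZMod n) + 1)
      have e4 : -(((k + 1 : ℕ) : ZMod n) + 1) + ((k : ZMod n) + 1) = -1 := by
        push_cast
        ring
      rw [e4] at e3
      constructor
      · rcases H' (((k + 1 : ℕ) : ZMod n) + 1) with h | h
        · exact h
        · linarith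
      · rcases H' (-(((k + 1 : ℕ) : ZMod n) + 1)) with h | h
        · linarith
        · exact h
  have h3 := (hP (2 * n - 2)).1
  have hn : 0 < n := Nat.pos_of_ne_zero (NeZero.ne n)
  have h4 : ((2 * n - 2 : ℕ) : ZMod n) + 1 = -1 := by
    have h5 : ((2 * n - 2 : ℕ) : ZMod n) + 2 = 0 := by
      have h6 : ((2 * n - 2 + 2 : ℕ) : ZMod n) = 0 := by
        have : 2 * n - 2 + 2 = 2 * n := by omega
        rw [this]
        push_cast
        rw [ZMod.natCast_self, mul_zero]
      rw [← h6]
      push_cast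
      ring
    linear_combination h5
  rw [h4] at h3
  linarith

theorem two_le_of_int {x : ℚ} (hx : ∃ z : ℤ, x = z) (h : 1 < x) : 2 ≤ x := by
  obtain ⟨a, rfl⟩ := hx
  have h1 : 1 < a := by exact_mod_cast h
  have h2 : 2 ≤ a := by omega
  exact_mod_cast h2

/-- **different pencils** for `1` and `-1` -/
theorem DL.caseX (S : DL A B C e l) (H : ∀ m, AltL A B C e l m) {j k : Fin 3} (hjk : j ≠ k)
    (hj : PL A B C e l j 1 ≤ 1) (hk : PL A B C e l k (-1) ≤ 1)
    (tj : 3 < PL A B C e l j 1 + PL A B C e l j (-1))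
    (tk : 3 < PL A B C e l k 1 + PL A B C e l k (-1)) : False := by
  obtain ⟨t, hjt, hkt⟩ := exists_third hjk
  have ej := fun m => PL_eq (A := A) (B := B) (C := C) (e := e) (l := l) hjk hjt hkt m
  have ek := fun m => PL_eq (A := A) (B := B) (C := C) (e := e) (l := l) hjk.symm hkt hjt m
  have et := fun m => PL_eq (A := A) (B := B) (C := C) (e := e) (l := l) hjt.symm hkt.symm hjk m
  have eD := fun m => HL_eq (A := A) (B := B) (C := C) (l := l) hjk hjt hkt m
  have eE := fun m => HL_eq (A := A) (B := C) (C := B) (l := e) hjk hjt hkt m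
  have tj' := tj
  have tk' := tk
  rw [PL_pair S.nA S.nB S.nC hjk hjt hkt] at tj'
  rw [PL_pair S.nA S.nB S.nC hjk.symm hkt hjt] at tk'
  have tj2 : 4 ≤ (A k).length + (A t).length + B.length + C.length + ix (e j) + ix (l j) := by
    have : 3 < (A k).length + (A t).length + B.length + C.length + ix (e j) + ix (l j) := by
      exact_mod_cast tj'
    omega
  have tk2 : 4 ≤ (A j).length + (A t).length + B.length + C.length + ix (e k) + ix (l k) := by
    have : 3 < (A j).length + (A t).length + B.length + C.length + ix (e k) + ix (l k) := by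
      exact_mod_cast tk'
    omega
  have pt := SL_pair (A t) (S.nA t)
  have pB := SL_pair B S.nB
  have pC := SL_pair C S.nC
  have hj' := hj
  have hk' := hk
  rw [ej] at hj'
  rw [ek] at hk'
  have q1 := SL_nonneg (A k) 1
  have q2 := SL_nonneg (A j) (-1)
  have q3 := fr_nonneg (1 * e j)
  have q4 := fr_nonneg (1 * l j)
  have q5 := fr_nonneg (-1 * e k)
  have q6 := fr_nonneg (-1 * l k)
  have hw : (A t).length + B.length + C.length ≤ 1 := by
    by_contra hcon
    push Not at hcon
    have h2 : (2 : ℚ) ≤ (A t).length + B.length + C.length := by exact_mod_cast hcon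
    have h3 : (A k).length = 0 := SL_len (A k) (S.nA k) (by linarith)
    have h4 := fr_eq_zero (x := 1 * e j) (by linarith)
    have h5 := fr_eq_zero (x := 1 * l j) (by linarith)
    rw [one_mul] at h4 h5
    rw [h3, h4, h5, ix_zero] at tj2
    have h6 : ((A t).length + B.length + C.length : ℚ) ≤ 2 := by linarith
    have h7 : (A t).length + B.length + C.length ≤ 2 := by exact_mod_cast h6
    omega
  rcases Nat.eq_zero_or_pos ((A t).length + B.length + C.length) with hw0 | hw1
  · -- no common component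
    have z1 : A t = [] := List.length_eq_zero_iff.mp (by omega)
    have z2 : B = [] := List.length_eq_zero_iff.mp (by omega)
    have z3 : C = [] := List.length_eq_zero_iff.mp (by omega)
    refine no_mixed_abs (a := PL A B C e l j) (b := PL A B C e l k) ?_ ?_ ?_ hj hk (by linarith)
      (by linarith)
    · intro u v
      rw [ej, ej, ej, add_mul, add_mul]
      have h1 := SL_add_le (A k) u v
      have h2 := SL_add_le (A t) u v
      have h3 := SL_add_le B u v
      have h4 := SL_add_le C u v
      have h5 := fr_add_le' (u * e j) (v * e j)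
      have h6 := fr_add_le' (u * l j) (v * l j)
      linarith
    · intro u v
      rw [ek, ek, ek, add_mul, add_mul]
      have h1 := SL_add_le (A j) u v
      have h2 := SL_add_le (A t) u v
      have h3 := SL_add_le B u v
      have h4 := SL_add_le C u v
      have h5 := fr_add_le' (u * e k) (v * e k)
      have h6 := fr_add_le' (u * l k) (v * l k)
      linarith
    · intro m
      by_contra hcon
      push Not at hcon
      obtain ⟨c1, c2⟩ := hcon
      have d1 := two_le_of_int (S.intP j m) c1
      have d2 := two_le_of_int (S.intP k m) c2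
      have iH := S.intH m
      have iE := S.swap.intH m
      have iS : ∃ z : ℤ, PL A B C e l j m + PL A B C e l k m - 1 = z := by
        obtain ⟨u, hu⟩ := S.intP j m
        obtain ⟨v, hv⟩ := S.intP k m
        exact ⟨u + v - 1, by rw [hu, hv]; push_cast; ring⟩
      have s1 := SL_nonneg (A k) m
      have s2 := SL_nonneg (A j) m
      have s3 := fr_nonneg (m * l t)
      have s4 := fr_nonneg (m * e t)
      have s5 := fr_lt_one (m * e j)
      have s6 := fr_lt_one (m * e k)
      have s7 := fr_lt_one (m * l j)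
      have s8 := fr_lt_one (m * l k)
      have ejm := ej m
      have ekm := ek m
      have eDm := eD m
      have eEm := eE m
      rw [z1, z2, z3, SL_nil] at ejm ekm eDm eEm
      have g1 : PL A B C e l j m + PL A B C e l k m - 1 ≤ HL A B C l m := by
        apply le_of_int iS iH
        rw [z2, z3] at *
        linarith
      have g2 : PL A B C e l j m + PL A B C e l k m - 1 ≤ HL A C B e m := by
        apply le_of_int iS iE
        rw [z2, z3] at *
        linarith
      have g3 := sum_P (A := A) (B := B) (C := C) (e := e) (l := l) j k t hjk hjt hkt m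
      rcases H m with ⟨i, hi⟩ | h | h
      · have hi' : i = j ∨ i = k ∨ i = t := by
          clear * - hjk hjt hkt
          revert i j k t
          decide
        rcases hi' with rfl | rfl | rfl
        · linarith
        · linarith
        · linarith
      · linarith
      · linarith
  · -- one common component
    have hw2 : (A t).length + B.length + C.length = 1 := by omega
    obtain ⟨c, hc0, hcm, hcs⟩ : ∃ c : ZMod n, c ≠ 0 ∧
        (∀ m, SL (A t) m + SL B m + SL C m = fr (m * c)) ∧ (A t).sum + B.sum + C.sum = c := by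
      have hcases : ((A t).length = 1 ∧ B.length = 0 ∧ C.length = 0) ∨
          ((A t).length = 0 ∧ B.length = 1 ∧ C.length = 0) ∨
          ((A t).length = 0 ∧ B.length = 0 ∧ C.length = 1) := by omega
      rcases hcases with ⟨h1, h2, h3⟩ | ⟨h1, h2, h3⟩ | ⟨h1, h2, h3⟩
      · obtain ⟨c, hc⟩ := List.length_eq_one_iff.mp h1
        rw [List.length_eq_zero_iff] at h2 h3
        refine ⟨c, S.nA t c (by rw [hc]; simp), ?_, ?_⟩
        · intro m
          rw [hc, h2, h3, SL_cons, SL_nil]
          ring
        · rw [hc, h2, h3]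
          simp
      · obtain ⟨c, hc⟩ := List.length_eq_one_iff.mp h2
        rw [List.length_eq_zero_iff] at h1 h3
        refine ⟨c, S.nB c (by rw [hc]; simp), ?_, ?_⟩
        · intro m
          rw [hc, h1, h3, SL_cons, SL_nil]
          ring
        · rw [hc, h1, h3]
          simp
      · obtain ⟨c, hc⟩ := List.length_eq_one_iff.mp h3
        rw [List.length_eq_zero_iff] at h1 h2
        refine ⟨c, S.nC c (by rw [hc]; simp), ?_, ?_⟩
        · intro m
          rw [hc, h1, h2, SL_cons, SL_nil]
          ring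
        · rw [hc, h1, h2]
          simp
    have rj := S.r j
    have rk := S.r k
    have rD := S.rD
    have rE := S.rE
    rw [sum3 hjk hjt hkt] at rj rk rD rE
    rw [sum3 hjk hjt hkt] at rD rE
    refine St.false (M₁ := A k) (M₀ := A j) (c := c) (e₀ := e j) (l₀ := l j) (e₁ := e k)
      (l₁ := l k) (e₂ := e t + B.sum) (l₂ := l t + C.sum) ?_
    refine ⟨S.nA k, S.nA j, hc0, by omega, by omega, ?_, ?_, ?_, ?_, ?_, ?_, ?_⟩
    · linear_combination rj - hcs
    · linear_combination rk - hcs
    · linear_combination rD - hcs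
    · linear_combination rE - hcs
    · have := hcm 1
      linarith
    · have := hcm (-1)
      linarith
    · intro m
      have c0 := hcm m
      have f1 := fr_add_le' (m * e t) (m * B.sum)
      have f2 := fr_add_le' (m * l t) (m * C.sum)
      rw [← mul_add] at f1 f2
      have f3 := fr_sum_le B m
      have f4 := fr_sum_le C m
      rcases H m with ⟨i, hi⟩ | h | h
      · have hi' : i = j ∨ i = k ∨ i = t := by
          clear * - hjk hjt hkt
          revert i j k t
          decide
        rcases hi' with rfl | rfl | rfl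
        · left
          rw [ej] at hi
          linarith
        · right; left
          rw [ek] at hi
          linarith
        · right; right; left
          rw [et] at hi
          linarith
      · right; right; right; left
        rw [eD] at h
        linarith
      · right; right; right; right
        rw [eE] at h
        linarith

theorem DL.e_ne (j : Fin 3) (m : ZMod n)
    (h1 : HL A B C l m = PL A B C e l j m) (h2 : HL A B C l (-m) ≠ PL A B C e l j (-m)) :
    e j ≠ 0 := by
  intro h
  obtain ⟨k, t, hjk, hjt, hkt⟩ := exists_others j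
  rw [HL_eq hjk hjt hkt, PL_eq hjk hjt hkt, h, mul_zero, fr_zero] at h1
  apply h2
  rw [HL_eq hjk hjt hkt, PL_eq hjk hjt hkt, h, mul_zero, fr_zero]
  have q1 := SL_nonneg (A j) m
  have q2 := SL_nonneg C m
  have q3 := fr_nonneg (m * l k)
  have q4 := fr_nonneg (m * l t)
  have r1 := SL_neg_of (A j) m (by linarith)
  have r2 := SL_neg_of C m (by linarith)
  have r3 := fr_eq_zero (x := m * l k) (by linarith)
  have r4 := fr_eq_zero (x := m * l t) (by linarith)
  rw [r1, r2, neg_mul, neg_mul, neg_mul, r3, r4, neg_zero, fr_zero]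
  ring

/-- **lines for `1`, conics for `-1`** -/
theorem DL.caseDE (S : DL A B C e l) (H : ∀ m, AltL A B C e l m)
    (hD : HL A B C l 1 ≤ 2) (hE : HL A C B e (-1) ≤ 2)
    (ht : ∀ j, 3 < PL A B C e l j 1 + PL A B C e l j (-1)) : False := by
  have h2 : ∀ j, PL A B C e l j 1 = 2 ∧ PL A B C e l j (-1) = 2 := by
    intro j
    have h1 := (S.P_le_H j 1).trans hD
    have h2 := (S.P_le_H' j (-1)).trans hE
    have h3 := ht j
    have h4 := two_le_of_int (S.intP j 1) (by linarith)
    have h5 := two_le_of_int (S.intP j (-1)) (by linarith)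
    exact ⟨le_antisymm h1 h4, le_antisymm h2 h5⟩
  have h01 : (0 : Fin 3) ≠ 1 := by decide
  have h02 : (0 : Fin 3) ≠ 2 := by decide
  have h12 : (1 : Fin 3) ≠ 2 := by decide
  have D1 : HL A B C l 1 = 2 := le_antisymm hD (by rw [← (h2 0).1]; exact S.P_le_H 0 1)
  have E1' : HL A C B e (-1) = 2 := le_antisymm hE (by rw [← (h2 0).2]; exact S.P_le_H' 0 (-1))
  have s1 := sum_P (A := A) (B := B) (C := C) (e := e) (l := l) 0 1 2 h01 h02 h12 1
  have s2 := sum_P (A := A) (B := B) (C := C) (e := e) (l := l) 0 1 2 h01 h02 h12 (-1)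
  rw [(h2 0).1, (h2 1).1, (h2 2).1, D1] at s1
  rw [(h2 0).2, (h2 1).2, (h2 2).2, E1'] at s2
  have E1 : HL A C B e 1 = 4 := by linarith
  have D1' : HL A B C l (-1) = 4 := by linarith
  have he : ∀ j, e j ≠ 0 := by
    intro j
    refine DL.e_ne (A := A) (B := B) (C := C) (l := l) j 1 (by rw [D1, (h2 j).1]) ?_
    rw [D1', (h2 j).2]
    norm_num
  have hl : ∀ j, l j ≠ 0 := by
    intro j
    refine DL.e_ne (A := A) (B := C) (C := B) (e := l) (l := e) j (-1)
      (by rw [E1', PL_swap, (h2 j).2]) ?_
    rw [neg_neg, E1, PL_swap, (h2 j).1]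
    norm_num
  have p0 := PL_pair (e := e) (l := l) S.nA S.nB S.nC h01 h02 h12
  have p1 := PL_pair (e := e) (l := l) S.nA S.nB S.nC h01.symm h12 h02
  have p2 := PL_pair (e := e) (l := l) S.nA S.nB S.nC h02.symm h12.symm h01
  rw [(h2 0).1, (h2 0).2, ix_one (he 0), ix_one (hl 0)] at p0
  rw [(h2 1).1, (h2 1).2, ix_one (he 1), ix_one (hl 1)] at p1
  rw [(h2 2).1, (h2 2).2, ix_one (he 2), ix_one (hl 2)] at p2
  have q0 : (A 1).length + (A 2).length + B.length + C.length + 1 + 1 = 4 := by
    have : (((A 1).length + (A 2).length + B.length + C.length + 1 + 1 : ℕ) : ℚ) = 4 := by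
      rw [← p0]; norm_num
    exact_mod_cast this
  have q1 : (A 0).length + (A 2).length + B.length + C.length + 1 + 1 = 4 := by
    have : (((A 0).length + (A 2).length + B.length + C.length + 1 + 1 : ℕ) : ℚ) = 4 := by
      rw [← p1]; norm_num
    exact_mod_cast this
  have q2 : (A 0).length + (A 1).length + B.length + C.length + 1 + 1 = 4 := by
    have : (((A 0).length + (A 1).length + B.length + C.length + 1 + 1 : ℕ) : ℚ) = 4 := by
      rw [← p2]; norm_num
    exact_mod_cast this
  have qD : (A 0).length + (A 1).length + (A 2).length + B.length + 2 * C.length + 3 = 6 := by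
    have h : (((A 0).length + (A 1).length + (A 2).length + B.length + 2 * C.length + 3 : ℕ) : ℚ)
        = 6 := by
      push_cast
      rw [← SL_pair (A 0) (S.nA 0), ← SL_pair (A 1) (S.nA 1), ← SL_pair (A 2) (S.nA 2),
        ← SL_pair B S.nB, ← SL_pair C S.nC]
      have f0 := fr_pair (l 0)
      have f1 := fr_pair (l 1)
      have f2 := fr_pair (l 2)
      rw [ix_one (hl 0)] at f0
      rw [ix_one (hl 1)] at f1
      rw [ix_one (hl 2)] at f2
      rw [HL_eq h01 h02 h12] at D1 D1'
      push_cast at f0 f1 f2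
      linarith
    exact_mod_cast h
  have r0 := S.r 0
  have r1 := S.r 1
  have r2 := S.r 2
  have rD := S.rD
  have rE := S.rE
  rw [Fin.sum_univ_three] at r0 r1 r2 rD rE
  rw [Fin.sum_univ_three] at rD rE
  have e0 := fun m => PL_eq (A := A) (B := B) (C := C) (e := e) (l := l) h01 h02 h12 m
  have e1 := fun m => PL_eq (A := A) (B := B) (C := C) (e := e) (l := l) h01.symm h12 h02 m
  have e2 := fun m => PL_eq (A := A) (B := B) (C := C) (e := e) (l := l) h02.symm h12.symm h01 m
  have eD := fun m => HL_eq (A := A) (B := B) (C := C) (l := l) h01 h02 h12 m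
  have eE := fun m => HL_eq (A := A) (B := C) (C := B) (l := e) h01 h02 h12 m
  have hcases : ((A 0).length = 1 ∧ (A 1).length = 1 ∧ (A 2).length = 1 ∧ B.length = 0 ∧
      C.length = 0) ∨ ((A 0).length = 0 ∧ (A 1).length = 0 ∧ (A 2).length = 0 ∧ B.length = 1 ∧
      C.length = 1) := by omega
  rcases hcases with ⟨k0, k1, k2, kB, kC⟩ | ⟨k0, k1, k2, kB, kC⟩
  · obtain ⟨x0, hx0⟩ := List.length_eq_one_iff.mp k0
    obtain ⟨x1, hx1⟩ := List.length_eq_one_iff.mp k1
    obtain ⟨x2, hx2⟩ := List.length_eq_one_iff.mp k2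
    rw [List.length_eq_zero_iff] at kB kC
    have n0 : x0 ≠ 0 := S.nA 0 x0 (by rw [hx0]; simp)
    have n1 : x1 ≠ 0 := S.nA 1 x1 (by rw [hx1]; simp)
    have n2 : x2 ≠ 0 := S.nA 2 x2 (by rw [hx2]; simp)
    simp only [hx0, hx1, hx2, kB, kC, List.sum_cons, List.sum_nil] at r0 r1 r2 rD rE
    refine nine_of (x₀ := x0) (x₁ := x1) (x₂ := x2) n0 n1 n2 (he 0) (hl 0) (he 1) (hl 1) (he 2)
      (hl 2) (by linear_combination r0) (by linear_combination r1) (by linear_combination rD)
      (by linear_combination rE) ?_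
    intro m
    rcases H m with ⟨i, hi⟩ | h | h
    · have hi' : i = 0 ∨ i = 1 ∨ i = 2 := by omega
      rcases hi' with rfl | rfl | rfl
      · left
        rw [e0, hx1, hx2, kB, kC, SL_cons, SL_nil, SL_cons, SL_nil] at hi
        linarith
      · right; left
        rw [e1, hx0, hx2, kB, kC, SL_cons, SL_nil, SL_cons, SL_nil] at hi
        linarith
      · right; right; left
        rw [e2, hx0, hx1, kB, kC, SL_cons, SL_nil, SL_cons, SL_nil] at hi
        linarith
    · right; right; right; left
      rw [eD, hx0, hx1, hx2, kB, kC, SL_cons, SL_nil, SL_cons, SL_nil, SL_cons, SL_nil] at h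
      linarith
    · right; right; right; right
      rw [eE, hx0, hx1, hx2, kB, kC, SL_cons, SL_nil, SL_cons, SL_nil, SL_cons, SL_nil] at h
      linarith
  · obtain ⟨y, hy⟩ := List.length_eq_one_iff.mp kB
    obtain ⟨y', hy'⟩ := List.length_eq_one_iff.mp kC
    rw [List.length_eq_zero_iff] at k0 k1 k2
    have ny : y ≠ 0 := S.nB y (by rw [hy]; simp)
    have ny' : y' ≠ 0 := S.nC y' (by rw [hy']; simp)
    simp only [k0, k1, k2, hy, hy', List.sum_cons, List.sum_nil] at r0 r1 r2 rD rE
    refine eight (y := y) (y' := y') (e := e) (l := l) ⟨?_, ?_, ny, ny', he, hl⟩ ?_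
    · intro j
      have hj : j = 0 ∨ j = 1 ∨ j = 2 := by omega
      rcases hj with rfl | rfl | rfl
      · linear_combination r0
      · linear_combination r1
      · linear_combination r2
    · linear_combination rD
    · intro m
      rcases H m with ⟨i, hi⟩ | h | h
      · left
        refine ⟨i, ?_⟩
        have hi' : i = 0 ∨ i = 1 ∨ i = 2 := by omega
        rcases hi' with rfl | rfl | rfl
        · rw [e0, k1, k2, hy, hy', SL_nil, SL_cons, SL_nil, SL_cons, SL_nil] at hi
          linarith
        · rw [e1, k0, k2, hy, hy', SL_nil, SL_cons, SL_nil, SL_cons, SL_nil] at hi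
          linarith
        · rw [e2, k0, k1, hy, hy', SL_nil, SL_cons, SL_nil, SL_cons, SL_nil] at hi
          linarith
      · right; left
        rw [eD, k0, k1, k2, hy, hy', SL_nil, SL_cons, SL_nil, SL_cons, SL_nil] at h
        linarith
      · right; right
        rw [eE, k0, k1, k2, hy, hy', SL_nil, SL_cons, SL_nil, SL_cons, SL_nil] at h
        linarith

theorem SL_map_neg (M : List (ZMod n)) (m : ZMod n) : SL (M.map fun x => -x) m = SL M (-m) :=
  SL_neg M m

theorem PL_neg (j : Fin 3) (m : ZMod n) :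
    PL (fun k => (A k).map fun x => -x) (B.map fun x => -x) (C.map fun x => -x) (fun k => -e k)
      (fun k => -l k) j m = PL A B C e l j (-m) := by
  unfold PL
  simp only [SL_map_neg]
  have e' : ∀ x : ZMod n, m * -x = -m * x := by intro x; ring
  simp only [e']

theorem HL_neg (m : ZMod n) :
    HL (fun k => (A k).map fun x => -x) (B.map fun x => -x) (C.map fun x => -x)
      (fun k => -l k) m = HL A B C l (-m) := by
  unfold HL
  simp only [SL_map_neg]
  have e' : ∀ x : ZMod n, m * -x = -m * x := by intro x; ring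
  simp only [e']

theorem DL.neg (S : DL A B C e l) : DL (fun k => (A k).map fun x => -x) (B.map fun x => -x)
    (C.map fun x => -x) (fun k => -e k) (fun k => -l k) where
  nA := by
    intro j x hx
    rw [List.mem_map] at hx
    obtain ⟨y, hy, rfl⟩ := hx
    exact neg_ne_zero.mpr (S.nA j y hy)
  nB := by
    intro x hx
    rw [List.mem_map] at hx
    obtain ⟨y, hy, rfl⟩ := hx
    exact neg_ne_zero.mpr (S.nB y hy)
  nC := by
    intro x hx
    rw [List.mem_map] at hx
    obtain ⟨y, hy, rfl⟩ := hx
    exact neg_ne_zero.mpr (S.nC y hy)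
  r j := by
    have := S.r j
    simp only [sum_neg', Finset.sum_neg_distrib]
    linear_combination -this
  rD := by
    have := S.rD
    simp only [sum_neg', Finset.sum_neg_distrib]
    linear_combination -this

theorem AltL_neg {m : ZMod n} (h : AltL A B C e l (-m)) :
    AltL (fun k => (A k).map fun x => -x) (B.map fun x => -x) (C.map fun x => -x) (fun k => -e k)
      (fun k => -l k) m := by
  unfold AltL at *
  simp only [PL_neg, HL_neg]
  exact h

/-- **the numerical theorem for lists** -/
theorem DL.main (S : DL A B C e l) (H : ∀ m, AltL A B C e l m) :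
    (∃ j, PL A B C e l j 1 + PL A B C e l j (-1) ≤ 3) ∨
    (HL A B C l 1 ≤ 2 ∧ HL A B C l (-1) ≤ 2) ∨ (HL A C B e 1 ≤ 2 ∧ HL A C B e (-1) ≤ 2) := by
  by_contra hcon
  push Not at hcon
  obtain ⟨ht, hDD, hEE⟩ := hcon
  have A1 : (∃ j, PL A B C e l j 1 ≤ 1) → ∀ j, PL A B C e l j 1 ≤ 1 → ¬ PL A B C e l j (-1) ≤ 2 := by
    intro _ j h1 h2
    have := ht j
    linarith
  rcases H 1 with ⟨j, hj⟩ | hD | hE
  · rcases H (-1) with ⟨k, hk⟩ | hD' | hE'
    · by_cases hjk : j = k
      · subst hjk
        have := ht j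
        linarith
      · exact S.caseX H hjk hj hk (ht j) (ht k)
    · have := (S.P_le_H j (-1)).trans hD'
      have := ht j
      linarith
    · have := (S.P_le_H' j (-1)).trans hE'
      have := ht j
      linarith
  · rcases H (-1) with ⟨k, hk⟩ | hD' | hE'
    · have := (S.P_le_H k 1).trans hD
      have := ht k
      linarith
    · exact absurd hD' (not_le.mpr (hDD hD))
    · exact S.caseDE H hD hE' ht
  · rcases H (-1) with ⟨k, hk⟩ | hD' | hE'
    · have := (S.P_le_H' k 1).trans hE
      have := ht k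
      linarith
    · refine S.neg.caseDE (fun m => AltL_neg (H (-m))) ?_ ?_ ?_
      · rw [HL_neg]
        exact hD'
      · rw [HL_neg, neg_neg]
        exact hE
      · intro j
        rw [PL_neg, PL_neg, neg_neg]
        have := ht j
        linarith
    · exact absurd hE' (not_le.mpr (hEE hE))

end Pool.Agent.U68.HX
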