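import Pool.Agent.U68.HX.Bound

set_option autoImplicit false

/-!
# Two triples of residues whose multiples have small energy

Let `a`, `b` be two triples of elements of `ZMod n` with `a i ≠ b j` for all `i`, `j`.  It is impossible that for every multiple
`m` with `m (a i - b j) ≠ 0` for all `i`, `j` the energy `∑ Q (a i - b j) - ∑ Q (a i - a j) - ∑ Q (b i - b j)` of the
triples `m a`, `m b` is at most `1 / 4`.  Here `Q z = {z / n} (1 - {z / n})`.
-/

namespace Pool.Agent.U68.HX

open Finset Pool.Agent.U15.DP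

variable {n : ℕ} [NeZero n]

/-- the energy -/
def En (a b : Fin 3 → ZMod n) : ℚ :=
  ∑ i, ∑ j, Q (a i - b j) - 1 / 2 * ∑ i, ∑ j, Q (a i - a j) - 1 / 2 * ∑ i, ∑ j, Q (b i - b j)

/-- the mean energy is `(3 - Gf a b) / 6` -/
noncomputable def Gf (a b : Fin 3 → ZMod n) : ℚ :=
  ∑ i, ∑ j, X (a i - b j) - 1 / 2 * ∑ i, ∑ j, X (a i - a j) - 1 / 2 * ∑ i, ∑ j, X (b i - b j) + 3

theorem sum_units_Q (a b : Fin 3 → ZMod n) :
    ∑ u : (ZMod n)ˣ, ∑ i, ∑ j, Q ((u : ZMod n) * a i - (u : ZMod n) * b j) =
      ∑ i, ∑ j, M (a i - b j) := by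
  rw [Finset.sum_comm]
  apply Finset.sum_congr rfl
  intro i _
  rw [Finset.sum_comm]
  apply Finset.sum_congr rfl
  intro j _
  unfold M
  apply Finset.sum_congr rfl
  intro u _
  rw [mul_sub]

theorem sum_M (a b : Fin 3 → ZMod n) :
    ∑ i, ∑ j, M (a i - b j) = (Fintype.card (ZMod n)ˣ : ℚ) / 6 * (9 - ∑ i, ∑ j, X (a i - b j)) := by
  simp only [M_main, Fin.sum_univ_three]
  ring

/-- the average over the units -/
theorem G_ge {a b : Fin 3 → ZMod n}
    (h : ∀ u : (ZMod n)ˣ, En (fun i => (u : ZMod n) * a i) (fun i => (u : ZMod n) * b i) ≤ 1 / 4) :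
    3 / 2 ≤ Gf a b := by
  have h1 : ∑ u : (ZMod n)ˣ, En (fun i => (u : ZMod n) * a i) (fun i => (u : ZMod n) * b i) ≤
      ∑ _u : (ZMod n)ˣ, (1 / 4 : ℚ) := Finset.sum_le_sum (fun u _ => h u)
  rw [Finset.sum_const, Finset.card_univ, nsmul_eq_mul] at h1
  have h2 : ∑ u : (ZMod n)ˣ, En (fun i => (u : ZMod n) * a i) (fun i => (u : ZMod n) * b i) =
      ∑ i, ∑ j, M (a i - b j) - 1 / 2 * ∑ i, ∑ j, M (a i - a j) -
        1 / 2 * ∑ i, ∑ j, M (b i - b j) := by
    unfold En
    rw [Finset.sum_sub_distrib, Finset.sum_sub_distrib, ← Finset.mul_sum, ← Finset.mul_sum,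
      sum_units_Q, sum_units_Q, sum_units_Q]
  rw [h2, sum_M, sum_M, sum_M] at h1
  have hc : (0 : ℚ) < (Fintype.card (ZMod n)ˣ : ℚ) := by exact_mod_cast Fintype.card_pos
  unfold Gf
  by_contra hcon
  push Not at hcon
  have h3 := mul_pos hc (sub_pos.mpr hcon)
  nlinarith

/-- every prime dividing the order of a difference is itself such an order -/
def Red (a b : Fin 3 → ZMod n) : Prop :=
  ∀ p : ℕ, p.Prime → (∃ i j, p ∣ addOrderOf (a i - b j)) → ∃ i j, addOrderOf (a i - b j) = p

omit [NeZero n] in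
theorem Red.symm {a b : Fin 3 → ZMod n} (h : Red a b) : Red b a := by
  intro p hp ⟨i, j, hij⟩
  rw [← neg_sub, addOrderOf_neg] at hij
  obtain ⟨i', j', h'⟩ := h p hp ⟨j, i, hij⟩
  exact ⟨j', i', by rw [← neg_sub, addOrderOf_neg, h']⟩

/-- no coset of the subgroup of order three -/
theorem no_coset {a b : Fin 3 → ZMod n} (hne : ∀ i j, a i ≠ b j) (hred : Red a b)
    (h1 : addOrderOf (a 1 - a 0) = 3) (h2 : addOrderOf (a 2 - a 0) = 3) (h12 : a 1 ≠ a 2) :
    False := by
  have hx : a 2 - a 0 = -(a 1 - a 0) := by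
    rcases eq_or_neg_of_three h1 h2 with h | h
    · exact absurd (sub_left_injective h).symm h12
    · exact h
  have h3 : ∃ i j, 3 ∣ addOrderOf (a i - b j) := by
    by_contra hcon
    push Not at hcon
    have := prime_sub Nat.prime_three (hcon 1 0) (hcon 0 0)
    apply this
    have h4 : a 1 - b 0 - (a 0 - b 0) = a 1 - a 0 := by ring
    rw [h4, h1]
  obtain ⟨i, j, hij⟩ := hred 3 Nat.prime_three h3
  have h30 : (3 : ZMod n) * (a 1 - a 0) = 0 := by
    have := addOrderOf_nsmul_eq_zero (a 1 - a 0)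
    rw [h1, nsmul_eq_mul] at this
    exact_mod_cast this
  have e2 : a 2 = a 0 - (a 1 - a 0) := by rw [← neg_add_eq_sub, ← hx]; ring
  have hb : b j = a i - (a i - b j) := by ring
  rcases eq_or_neg_of_three h1 hij with h | h
  · rw [h] at hb
    have hi : i = 0 ∨ i = 1 ∨ i = 2 := by omega
    rcases hi with rfl | rfl | rfl
    · apply hne 2 j
      rw [hb, e2]
    · apply hne 0 j
      rw [hb]
      ring
    · apply hne 1 j
      rw [hb, e2]
      linear_combination h30
  · rw [h] at hb
    have hi : i = 0 ∨ i = 1 ∨ i = 2 := by omega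
    rcases hi with rfl | rfl | rfl
    · apply hne 1 j
      rw [hb]
      ring
    · apply hne 2 j
      rw [hb, e2]
      linear_combination (-1 : ZMod n) * h30
    · apply hne 0 j
      rw [hb, e2]
      ring

/-- the even case in terms of the triples -/
theorem bound_even {a b : Fin 3 → ZMod n} (hne : ∀ i j, a i ≠ b j) (ha : Function.Injective a)
    (hb : Function.Injective b) (hred : Red a b) (h00 : addOrderOf (a 0 - b 0) = 2) :
    Gf a b < 3 / 2 := by
  set t := a 0 - b 0 with htd
  have ht : addOrderOf t = 2 := h00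
  have hc0 : ∀ i j, a i - b j ≠ 0 := fun i j => sub_ne_zero.mpr (hne i j)
  have ea : ∀ i, a i - a 0 + t = a i - b 0 := by intro i; rw [htd]; ring
  have eb : ∀ j, b j - b 0 + t = -(a 0 - b j) := by
    intro j
    have : b j - b 0 + t = b j - b 0 - t := by rw [sub_eq_add_neg _ t, neg_t ht]
    rw [this, htd]
    ring
  have ec : ∀ i j, a i - a 0 - (b j - b 0) + t = a i - b j := by intro i j; rw [htd]; ring
  have n01 : (1 : Fin 3) ≠ 0 := by decide
  have n02 : (2 : Fin 3) ≠ 0 := by decide
  have n12 : (1 : Fin 3) ≠ 2 := by decide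
  have hod : Odd (addOrderOf (a 1 - a 0 + t)) ∨ Odd (addOrderOf (a 2 - a 0 + t)) ∨
      Odd (addOrderOf (b 1 - b 0 + t)) ∨ Odd (addOrderOf (b 2 - b 0 + t)) ∨
      ((Four t (a 1 - a 0) ∨ Four t (a 2 - a 0)) ∧
        (Four t (b 1 - b 0) ∨ Four t (b 2 - b 0))) := by
    by_cases hA : ∃ i j, Odd (addOrderOf (a i - b j))
    · obtain ⟨i, j, hij⟩ := hA
      have key : ∀ i j : Fin 3, Odd (addOrderOf (a i - b j)) →
          Odd (addOrderOf (a i - a 0 + t)) ∨ Odd (addOrderOf (b j - b 0 + t)) ∨
          (Four t (a i - a 0) ∧ Four t (b j - b 0)) := by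
        intro i j hij
        rw [← ec i j] at hij
        rcases trich t (a i - a 0) with h | h | h
        · right; left
          have h1 := odd_sub h hij
          have h2 : a i - a 0 - (a i - a 0 - (b j - b 0) + t) = b j - b 0 - t := by ring
          have h3 : b j - b 0 - t = b j - b 0 + t := by rw [sub_eq_add_neg, neg_t ht]
          rwa [h2, h3] at h1
        · left; exact h
        · rcases trich t (b j - b 0) with h' | h' | h'
          · left
            have h1 := odd_add h' hij
            have h2 : b j - b 0 + (a i - a 0 - (b j - b 0) + t) = a i - a 0 + t := by ring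
            rwa [h2] at h1
          · right; left; exact h'
          · right; right; exact ⟨h, h'⟩
      have hz : ∀ c : ZMod n, ¬ Odd (addOrderOf (c - c + t)) := by
        intro c
        rw [sub_self, zero_add, ht]
        decide
      have hz' : ∀ c : ZMod n, ¬ Four t (c - c) := by
        intro c h
        apply h.1
        rw [sub_self, addOrderOf_zero]
        decide
      have hi : i = 0 ∨ i = 1 ∨ i = 2 := by omega
      have hj : j = 0 ∨ j = 1 ∨ j = 2 := by omega
      rcases key i j hij with h | h | ⟨h, h'⟩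
      · rcases hi with rfl | rfl | rfl
        · exact absurd h (hz _)
        · left; exact h
        · right; left; exact h
      · rcases hj with rfl | rfl | rfl
        · exact absurd h (hz _)
        · right; right; left; exact h
        · right; right; right; left; exact h
      · right; right; right; right
        refine ⟨?_, ?_⟩
        · rcases hi with rfl | rfl | rfl
          · exact absurd h (hz' _)
          · left; exact h
          · right; exact h
        · rcases hj with rfl | rfl | rfl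
          · exact absurd h' (hz' _)
          · left; exact h'
          · right; exact h'
    · push Not at hA
      have hp : ∀ p : ℕ, p.Prime → p ≠ 2 → ∀ i j, ¬ p ∣ addOrderOf (a i - b j) := by
        intro p hp hp2 i j hd
        obtain ⟨i', j', h'⟩ := hred p hp ⟨i, j, hd⟩
        apply hA i' j'
        rw [h']
        exact hp.odd_of_ne_two hp2
      have noodd : ∀ z : ZMod n, z ≠ 0 → (∀ p : ℕ, p.Prime → p ≠ 2 → ¬ p ∣ addOrderOf z) →
          ¬ Odd (addOrderOf z) := by
        intro z hz hzp ho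
        have h2 := two_le_ord hz
        obtain ⟨p, hp, hpd⟩ := Nat.exists_prime_and_dvd (n := addOrderOf z) (by omega)
        apply hzp p hp ?_ hpd
        rintro rfl
        rw [← Nat.not_even_iff_odd] at ho
        exact ho (even_iff_two_dvd.mpr hpd)
      right; right; right; right
      refine ⟨Or.inl ⟨?_, ?_⟩, Or.inl ⟨?_, ?_⟩⟩
      · apply noodd _ (sub_ne_zero.mpr (fun h => n01 (ha h)))
        intro p hpp hp2
        have := prime_sub hpp (hp p hpp hp2 1 0) (hp p hpp hp2 0 0)
        have h4 : a 1 - b 0 - (a 0 - b 0) = a 1 - a 0 := by ring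
        rwa [h4] at this
      · rw [ea]
        exact hA 1 0
      · apply noodd _ (sub_ne_zero.mpr (fun h => n01 (hb h)))
        intro p hpp hp2
        have := prime_sub hpp (hp p hpp hp2 0 0) (hp p hpp hp2 0 1)
        have h4 : a 0 - b 0 - (a 0 - b 1) = b 1 - b 0 := by ring
        rwa [h4] at this
      · rw [eb, addOrderOf_neg]
        exact hA 0 1
  have main := even_case (t := t) (a₂ := a 1 - a 0) (a₃ := a 2 - a 0) (b₂ := b 1 - b 0)
    (b₃ := b 2 - b 0) ht (sub_ne_zero.mpr (fun h => n01 (ha h))) (by rw [ea]; exact hc0 _ _)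
    (sub_ne_zero.mpr (fun h => n02 (ha h))) (by rw [ea]; exact hc0 _ _)
    (fun h => n12 (ha (sub_left_injective h)))
    (sub_ne_zero.mpr (fun h => n01 (hb h))) (by rw [eb]; exact neg_ne_zero.mpr (hc0 _ _))
    (sub_ne_zero.mpr (fun h => n02 (hb h))) (by rw [eb]; exact neg_ne_zero.mpr (hc0 _ _))
    (fun h => n12 (hb (sub_left_injective h)))
    (by rw [ec]; exact hc0 _ _) (by rw [ec]; exact hc0 _ _) (by rw [ec]; exact hc0 _ _)
    (by rw [ec]; exact hc0 _ _)
    (fun h => no_coset hne hred h.1 h.2 (fun h' => n12 (ha h')))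
    (fun h => no_coset (fun i j => (hne j i).symm) hred.symm h.1 h.2 (fun h' => n12 (hb h')))
    hod
  unfold UU psi at main
  simp only [ec, ea, eb, X_neg] at main
  have xt : X (a 0 - b 0) = -1 / 2 := by
    unfold X
    rw [h00, chi_two]
  have d1 : a 1 - a 0 - (a 2 - a 0) = a 1 - a 2 := by ring
  have d2 : b 1 - b 0 - (b 2 - b 0) = b 1 - b 2 := by ring
  rw [d1, d2] at main
  unfold Gf
  simp only [Fin.sum_univ_three, sub_self, X_zero]
  rw [X_sub_comm (a 0) (a 1), X_sub_comm (a 0) (a 2), X_sub_comm (a 2) (a 1),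
    X_sub_comm (b 0) (b 1), X_sub_comm (b 0) (b 2), X_sub_comm (b 2) (b 1), xt]
  linarith

theorem bound_odd {a b : Fin 3 → ZMod n} (hne : ∀ i j, a i ≠ b j) (ha : Function.Injective a)
    (hb : Function.Injective b) (hred : Red a b) (ho : ∀ i j, Odd (addOrderOf (a i - b j))) :
    Gf a b < 3 / 2 := by
  have hc0 : ∀ i j, a i - b j ≠ 0 := fun i j => sub_ne_zero.mpr (hne i j)
  have n01 : (1 : Fin 3) ≠ 0 := by decide
  have n02 : (2 : Fin 3) ≠ 0 := by decide
  have n12 : (1 : Fin 3) ≠ 2 := by decide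
  have oa : ∀ i j, Odd (addOrderOf (a i - a j)) := by
    intro i j
    have := odd_sub (ho i 0) (ho j 0)
    have h4 : a i - b 0 - (a j - b 0) = a i - a j := by ring
    rwa [h4] at this
  have ob : ∀ i j, Odd (addOrderOf (b i - b j)) := by
    intro i j
    have := odd_sub (ho 0 j) (ho 0 i)
    have h4 : a 0 - b j - (a 0 - b i) = b i - b j := by ring
    rwa [h4] at this
  have d1 : a 1 - a 0 - (a 2 - a 0) = a 1 - a 2 := by ring
  have d2 : b 1 - b 0 - (b 2 - b 0) = b 1 - b 2 := by ring
  have ta := odd_triple (oa 1 0) (oa 2 0) (sub_ne_zero.mpr (fun h => n01 (ha h)))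
    (sub_ne_zero.mpr (fun h => n02 (ha h))) (fun h => n12 (ha (sub_left_injective h)))
    (fun h => no_coset hne hred h.1 h.2 (fun h' => n12 (ha h')))
  have tb := odd_triple (ob 1 0) (ob 2 0) (sub_ne_zero.mpr (fun h => n01 (hb h)))
    (sub_ne_zero.mpr (fun h => n02 (hb h))) (fun h => n12 (hb (sub_left_injective h)))
    (fun h => no_coset (fun i j => (hne j i).symm) hred.symm h.1 h.2 (fun h' => n12 (hb h')))
  rw [d1] at ta
  rw [d2] at tb
  have hS : ∑ i, ∑ j, X (a i - b j) ≤ 9 / 35 := by
    by_cases h3 : ∃ i j, 3 ∣ addOrderOf (a i - b j)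
    · obtain ⟨i, j, hij⟩ := hred 3 Nat.prime_three h3
      have hX : X (a i - b j) = -1 / 3 := by
        unfold X
        rw [hij, chi_three]
      have hle : ∀ i j, X (a i - b j) ≤ 1 / 15 := fun i j => X_odd_le (ho i j) (hc0 i j)
      have h0 := hle 0 0
      have h1 := hle 0 1
      have h2 := hle 0 2
      have h3 := hle 1 0
      have h4 := hle 1 1
      have h5 := hle 1 2
      have h6 := hle 2 0
      have h7 := hle 2 1
      have h8 := hle 2 2
      simp only [Fin.sum_univ_three]
      have hi : i = 0 ∨ i = 1 ∨ i = 2 := by omega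
      have hj : j = 0 ∨ j = 1 ∨ j = 2 := by omega
      rcases hi with rfl | rfl | rfl <;> rcases hj with rfl | rfl | rfl <;> linarith
    · push Not at h3
      have hle : ∀ i j, X (a i - b j) ≤ 1 / 35 := by
        intro i j
        refine coprime_six ?_ (h3 i j) (two_le_ord (hc0 i j))
        intro h2
        have := ho i j
        rw [← Nat.not_even_iff_odd] at this
        exact this (even_iff_two_dvd.mpr h2)
      calc ∑ i, ∑ j, X (a i - b j) ≤ ∑ _i : Fin 3, ∑ _j : Fin 3, (1 / 35 : ℚ) :=
            Finset.sum_le_sum (fun i _ => Finset.sum_le_sum (fun j _ => hle i j))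
        _ = 9 / 35 := by simp; norm_num
  unfold Gf
  have ea : ∑ i, ∑ j, X (a i - a j) = 3 + 2 * (X (a 1 - a 0) + X (a 2 - a 0) + X (a 1 - a 2)) := by
    simp only [Fin.sum_univ_three, sub_self, X_zero]
    rw [X_sub_comm (a 0) (a 1), X_sub_comm (a 0) (a 2), X_sub_comm (a 2) (a 1)]
    ring
  have eb : ∑ i, ∑ j, X (b i - b j) = 3 + 2 * (X (b 1 - b 0) + X (b 2 - b 0) + X (b 1 - b 2)) := by
    simp only [Fin.sum_univ_three, sub_self, X_zero]
    rw [X_sub_comm (b 0) (b 1), X_sub_comm (b 0) (b 2), X_sub_comm (b 2) (b 1)]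
    ring
  rw [ea, eb]
  linarith

theorem Gf_perm (a b : Fin 3 → ZMod n) (σ τ : Equiv.Perm (Fin 3)) :
    Gf (a ∘ σ) (b ∘ τ) = Gf a b := by
  unfold Gf
  have h : ∀ (f g : Fin 3 → ZMod n) (σ τ : Equiv.Perm (Fin 3)),
      ∑ i, ∑ j, X ((f ∘ σ) i - (g ∘ τ) j) = ∑ i, ∑ j, X (f i - g j) := by
    intro f g σ τ
    rw [← Equiv.sum_comp σ (fun i => ∑ j, X (f i - g j))]
    apply Finset.sum_congr rfl
    intro i _
    exact Equiv.sum_comp τ (fun j => X (f (σ i) - g j))
  rw [h, h, h]

theorem bound {a b : Fin 3 → ZMod n} (hne : ∀ i j, a i ≠ b j) (ha : Function.Injective a)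
    (hb : Function.Injective b) (hred : Red a b) : Gf a b < 3 / 2 := by
  by_cases h2 : ∃ i j, 2 ∣ addOrderOf (a i - b j)
  · obtain ⟨i, j, hij⟩ := hred 2 Nat.prime_two h2
    rw [← Gf_perm a b (Equiv.swap 0 i) (Equiv.swap 0 j)]
    apply bound_even (fun i' j' => hne _ _) (ha.comp (Equiv.injective _))
      (hb.comp (Equiv.injective _))
    · intro p hp ⟨i', j', h'⟩
      obtain ⟨k, l, hkl⟩ := hred p hp ⟨_, _, h'⟩
      refine ⟨Equiv.swap 0 i k, Equiv.swap 0 j l, ?_⟩
      simp only [Equiv.swap_apply_self]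
      exact hkl
    · simp only [Equiv.swap_apply_left]
      exact hij
  · push Not at h2
    apply bound_odd hne ha hb hred
    intro i j
    rw [← Nat.not_even_iff_odd]
    intro h
    exact h2 i j (even_iff_two_dvd.mp h)

/-- **Main theorem.** -/
theorem no_config {a b : Fin 3 → ZMod n} (hne : ∀ i j, a i ≠ b j)
    (H : ∀ m : ZMod n, (∀ i j, m * (a i - b j) ≠ 0) →
      Function.Injective (fun i => m * a i) ∧ Function.Injective (fun i => m * b i) ∧
        En (fun i => m * a i) (fun i => m * b i) ≤ 1 / 4) : False := by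
  classical
  set S : Finset (ZMod n) := Finset.univ.filter (fun m => ∀ i j, m * (a i - b j) ≠ 0) with hS
  have hSne : S.Nonempty := ⟨1, by
    rw [hS, mem_filter]
    refine ⟨mem_univ _, ?_⟩
    intro i j
    rw [one_mul]
    exact sub_ne_zero.mpr (hne i j)⟩
  obtain ⟨m, hm, hmin⟩ := Finset.exists_min_image S
    (fun m => ∑ i, ∑ j, addOrderOf (m * (a i - b j))) hSne
  rw [hS, mem_filter] at hm
  have hm0 := hm.2
  have e : ∀ i j, m * a i - m * b j = m * (a i - b j) := fun i j => by rw [mul_sub]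
  have hred : Red (fun i => m * a i) (fun i => m * b i) := by
    intro p hp ⟨i₀, j₀, hd⟩
    by_contra hcon
    push Not at hcon
    have hp0 : ∀ i j, (p : ZMod n) * m * (a i - b j) ≠ 0 := by
      intro i j h
      apply hcon i j
      rw [e]
      have h1 : p • (m * (a i - b j)) = 0 := by
        rw [nsmul_eq_mul, ← mul_assoc]
        exact h
      have h2 := addOrderOf_dvd_of_nsmul_eq_zero h1
      have h3 := two_le_ord (hm0 i j)
      rcases (Nat.dvd_prime hp).mp h2 with h4 | h4
      · omega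
      · exact h4
    have hmem : (p : ZMod n) * m ∈ S := by
      rw [hS, mem_filter]
      exact ⟨mem_univ _, hp0⟩
    have h1 := hmin _ hmem
    have hle : ∀ i j, addOrderOf ((p : ZMod n) * m * (a i - b j)) ≤
        addOrderOf (m * (a i - b j)) := by
      intro i j
      apply Nat.le_of_dvd (ord_pos _)
      rw [addOrderOf_dvd_iff_nsmul_eq_zero, mul_assoc, ← nsmul_eq_mul, smul_comm,
        addOrderOf_nsmul_eq_zero, smul_zero]
    have hlt : addOrderOf ((p : ZMod n) * m * (a i₀ - b j₀)) <
        addOrderOf (m * (a i₀ - b j₀)) := by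
      simp only [e] at hd
      obtain ⟨k, hk⟩ := hd
      have h2 : addOrderOf ((p : ZMod n) * m * (a i₀ - b j₀)) ∣ k := by
        rw [addOrderOf_dvd_iff_nsmul_eq_zero, mul_assoc, ← nsmul_eq_mul, smul_smul, mul_comm k p,
          ← hk, addOrderOf_nsmul_eq_zero]
      have h3 := ord_pos (m * (a i₀ - b j₀))
      have hk0 : 0 < k := by
        rcases Nat.eq_zero_or_pos k with h | h
        · rw [h, mul_zero] at hk
          omega
        · exact h
      have h4 := Nat.le_of_dvd hk0 h2
      have h5 : k < p * k := by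
        have := hp.two_le
        nlinarith
      omega
    have h6 : ∑ i, ∑ j, addOrderOf ((p : ZMod n) * m * (a i - b j)) <
        ∑ i, ∑ j, addOrderOf (m * (a i - b j)) := by
      apply Finset.sum_lt_sum
      · intro i _
        exact Finset.sum_le_sum (fun j _ => hle i j)
      · exact ⟨i₀, mem_univ _, Finset.sum_lt_sum (fun j _ => hle i₀ j) ⟨j₀, mem_univ _, hlt⟩⟩
    exact absurd h1 (not_le.mpr h6)
  obtain ⟨hia, hib, _⟩ := H m hm0
  have hne' : ∀ i j, m * a i ≠ m * b j := by
    intro i j h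
    apply hm0 i j
    rw [mul_sub, h, sub_self]
  have hb := bound hne' hia hib hred
  have hG := G_ge (a := fun i => m * a i) (b := fun i => m * b i) (by
    intro u
    have hu : ∀ i j, (u : ZMod n) * m * (a i - b j) ≠ 0 := by
      intro i j h
      rw [mul_assoc, Units.mul_right_eq_zero] at h
      exact hm0 i j h
    have h3 := (H _ hu).2.2
    simp only [mul_assoc] at h3
    exact h3)
  linarith

end Pool.Agent.U68.HX
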