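import Pool.Agent.U68.HX.Avg

set_option autoImplicit false

/-!
# Orders of elements of `ZMod n` and the function `X`
-/

namespace Pool.Agent.U68.HX

open Finset Pool.Agent.U15.DP

variable {n : ℕ} [NeZero n] {x y z t : ZMod n}

theorem ord_pos (z : ZMod n) : 0 < addOrderOf z := addOrderOf_pos z

theorem two_le_ord (h : z ≠ 0) : 2 ≤ addOrderOf z := by
  have h1 := ord_pos z
  have h2 : addOrderOf z ≠ 1 := by rwa [Ne, AddMonoid.addOrderOf_eq_one_iff]
  omega

omit [NeZero n] in
theorem X_neg (z : ZMod n) : X (-z) = X z := by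
  unfold X
  rw [addOrderOf_neg]

omit [NeZero n] in
theorem X_sub_comm (x y : ZMod n) : X (x - y) = X (y - x) := by
  rw [← X_neg, neg_sub]

omit [NeZero n] in
theorem X_zero : X (0 : ZMod n) = 1 := by
  unfold X
  rw [addOrderOf_zero, chi_one]

theorem X_le (h : z ≠ 0) : X z ≤ 1 / 6 := chi_le_sixth (two_le_ord h)

theorem X_le_tenth (h : z ≠ 0) (h6 : addOrderOf z ≠ 6) : X z ≤ 1 / 10 :=
  chi_le_tenth (two_le_ord h) h6

theorem le_X (h : z ≠ 0) : -(1 / 2 : ℚ) ≤ X z := neg_half_le_chi (two_le_ord h)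

theorem X_odd_le (ho : Odd (addOrderOf z)) (h : z ≠ 0) : X z ≤ 1 / 15 := odd_le ho (two_le_ord h)

theorem le_X_odd (ho : Odd (addOrderOf z)) (h : z ≠ 0) : -(1 / 3 : ℚ) ≤ X z :=
  odd_ge ho (two_le_ord h)

theorem le_X_odd' (ho : Odd (addOrderOf z)) (h : z ≠ 0) (h3 : addOrderOf z ≠ 3) :
    -(1 / 5 : ℚ) ≤ X z := odd_ge_fifth ho (two_le_ord h) h3

omit [NeZero n] in
theorem le_X_three (ho : Odd (addOrderOf z)) (h : 3 ∣ addOrderOf z) (h3 : addOrderOf z ≠ 3) :
    -(1 / 15 : ℚ) ≤ X z := odd_three ho h h3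

omit [NeZero n] in
theorem ord_add_dvd (x y : ZMod n) : addOrderOf (x + y) ∣ addOrderOf x * addOrderOf y := by
  rw [addOrderOf_dvd_iff_nsmul_eq_zero, smul_add, mul_comm, mul_smul, addOrderOf_nsmul_eq_zero,
    smul_zero, mul_comm, mul_smul, addOrderOf_nsmul_eq_zero, smul_zero, add_zero]

omit [NeZero n] in
theorem odd_add (hx : Odd (addOrderOf x)) (hy : Odd (addOrderOf y)) : Odd (addOrderOf (x + y)) :=
  (hx.mul hy).of_dvd_nat (ord_add_dvd x y)

omit [NeZero n] in
theorem odd_neg (hx : Odd (addOrderOf x)) : Odd (addOrderOf (-x)) := by rwa [addOrderOf_neg]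

omit [NeZero n] in
theorem odd_sub (hx : Odd (addOrderOf x)) (hy : Odd (addOrderOf y)) : Odd (addOrderOf (x - y)) := by
  rw [sub_eq_add_neg]
  exact odd_add hx (odd_neg hy)

omit [NeZero n] in
theorem prime_add {p : ℕ} (hp : p.Prime) (hx : ¬ p ∣ addOrderOf x) (hy : ¬ p ∣ addOrderOf y) :
    ¬ p ∣ addOrderOf (x + y) := by
  intro h
  rcases (hp.dvd_mul).mp (h.trans (ord_add_dvd x y)) with h | h
  · exact hx h
  · exact hy h

omit [NeZero n] in
theorem prime_sub {p : ℕ} (hp : p.Prime) (hx : ¬ p ∣ addOrderOf x) (hy : ¬ p ∣ addOrderOf y) :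
    ¬ p ∣ addOrderOf (x - y) := by
  rw [sub_eq_add_neg]
  exact prime_add hp hx (by rwa [addOrderOf_neg])

omit [NeZero n] in
theorem ord_add_coprime (h : Nat.Coprime (addOrderOf x) (addOrderOf y)) :
    addOrderOf (x + y) = addOrderOf x * addOrderOf y :=
  (AddCommute.all x y).addOrderOf_add_eq_mul_addOrderOf_of_coprime h

omit [NeZero n] in
theorem t_add_t (ht : addOrderOf t = 2) : t + t = 0 := by
  have := addOrderOf_nsmul_eq_zero t
  rwa [ht, two_smul] at this

omit [NeZero n] in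
theorem neg_t (ht : addOrderOf t = 2) : -t = t := neg_eq_of_add_eq_zero_left (t_add_t ht)

theorem val_of_two (hz : z ≠ 0) (h : z + z = 0) : 2 * z.val = n := by
  have hn : 0 < n := Nat.pos_of_ne_zero (NeZero.ne n)
  have h1 : (z + z).val = 0 := by rw [h, ZMod.val_zero]
  rw [ZMod.val_add] at h1
  have h2 : z.val < n := ZMod.val_lt z
  have h3 : z.val ≠ 0 := by rwa [Ne, ZMod.val_eq_zero]
  obtain ⟨k, hk⟩ := Nat.dvd_of_mod_eq_zero h1
  have : k = 1 := by
    have h4 : k < 2 := by
      by_contra hc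
      have : n * 2 ≤ n * k := Nat.mul_le_mul_left n (by omega)
      omega
    have h5 : k ≠ 0 := by
      rintro rfl
      omega
    omega
  subst this
  omega

theorem eq_t (ht : addOrderOf t = 2) (hz : z ≠ 0) (h : z + z = 0) : z = t := by
  have h1 := val_of_two hz h
  have ht0 : t ≠ 0 := by
    rintro rfl
    simp at ht
  have h2 := val_of_two ht0 (t_add_t ht)
  apply ZMod.val_injective n
  omega

theorem val_of_three (hz : addOrderOf z = 3) : 3 * z.val = n ∨ 3 * z.val = 2 * n := by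
  have hn : 0 < n := Nat.pos_of_ne_zero (NeZero.ne n)
  have hz0 : z ≠ 0 := by
    rintro rfl
    simp at hz
  have h : (3 : ℕ) • z = 0 := by
    have := addOrderOf_nsmul_eq_zero z
    rwa [hz] at this
  have h1 : ((3 * z.val : ℕ) : ZMod n) = 0 := by
    rw [Nat.cast_mul, ZMod.natCast_zmod_val, ← nsmul_eq_mul]
    exact h
  rw [ZMod.natCast_eq_zero_iff] at h1
  have h2 : z.val < n := ZMod.val_lt z
  have h3 : z.val ≠ 0 := by rwa [Ne, ZMod.val_eq_zero]
  obtain ⟨k, hk⟩ := h1
  have h4 : k < 3 := by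
    by_contra hc
    have : n * 3 ≤ n * k := Nat.mul_le_mul_left n (by omega)
    omega
  have h5 : k ≠ 0 := by
    rintro rfl
    omega
  have : k = 1 ∨ k = 2 := by omega
  rcases this with rfl | rfl
  · left; omega
  · right; omega

theorem eq_or_neg_of_three (hx : addOrderOf x = 3) (hz : addOrderOf z = 3) : z = x ∨ z = -x := by
  have hn : 0 < n := Nat.pos_of_ne_zero (NeZero.ne n)
  have h1 := val_of_three hx
  have h2 := val_of_three hz
  by_cases h : z.val = x.val
  · left
    exact ZMod.val_injective n h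
  · right
    have h3 : z.val + x.val = n := by omega
    rw [eq_neg_iff_add_eq_zero]
    have h4 : ((z.val + x.val : ℕ) : ZMod n) = 0 := by
      rw [h3, ZMod.natCast_self]
    rwa [Nat.cast_add, ZMod.natCast_zmod_val, ZMod.natCast_zmod_val] at h4

/-! ### the type of an element with respect to `t` -/

omit [NeZero n] in
theorem ord_add_t (ht : addOrderOf t = 2) (hz : Odd (addOrderOf z)) :
    addOrderOf (z + t) = 2 * addOrderOf z := by
  rw [ord_add_coprime, ht, mul_comm]
  rw [ht]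
  exact (Nat.coprime_two_left.mpr hz).symm

omit [NeZero n] in
theorem X_add_t (ht : addOrderOf t = 2) (hz : Odd (addOrderOf z)) : X (z + t) = -X z / 2 := by
  unfold X
  rw [ord_add_t ht hz, chi_two_mul hz]

/-- neither `z` nor `z + t` has odd order -/
def Four (t z : ZMod n) : Prop := ¬ Odd (addOrderOf z) ∧ ¬ Odd (addOrderOf (z + t))

omit [NeZero n] in
theorem trich (t z : ZMod n) : Odd (addOrderOf z) ∨ Odd (addOrderOf (z + t)) ∨ Four t z := by
  unfold Four
  tauto

theorem four_dvd (ht : addOrderOf t = 2) (h : Four t z) : 4 ∣ addOrderOf z := by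
  obtain ⟨h1, h2⟩ := h
  rw [Nat.not_odd_iff_even] at h1
  obtain ⟨m, hm⟩ := h1
  by_contra h4
  have hmo : Odd m := by
    rw [← Nat.not_even_iff_odd]
    rintro ⟨k, hk⟩
    exact h4 ⟨k, by omega⟩
  have hz : (m : ℕ) • z = t := by
    apply eq_t ht
    · intro h0
      have h5 := addOrderOf_dvd_of_nsmul_eq_zero h0
      have h6 := Nat.le_of_dvd hmo.pos h5
      have h7 := hmo.pos
      omega
    · rw [← add_smul, ← hm, addOrderOf_nsmul_eq_zero]
  apply h2
  refine hmo.of_dvd_nat ?_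
  rw [addOrderOf_dvd_iff_nsmul_eq_zero, smul_add, hz]
  obtain ⟨k, rfl⟩ := hmo
  rw [add_smul, one_smul, mul_comm, mul_smul, two_smul, t_add_t ht, smul_zero, zero_add,
    t_add_t ht]

omit [NeZero n] in
theorem ord_four (ht : addOrderOf t = 2) (h : Four t z) : addOrderOf (z + t) = addOrderOf z := by
  obtain ⟨h1, h2⟩ := h
  rw [Nat.not_odd_iff_even] at h1 h2
  apply Nat.dvd_antisymm
  · rw [addOrderOf_dvd_iff_nsmul_eq_zero, smul_add, addOrderOf_nsmul_eq_zero, zero_add]
    obtain ⟨m, hm⟩ := h1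
    rw [hm, ← two_mul, mul_comm, mul_smul, two_smul, t_add_t ht, smul_zero]
  · rw [addOrderOf_dvd_iff_nsmul_eq_zero]
    have h3 := addOrderOf_nsmul_eq_zero (z + t)
    obtain ⟨m, hm⟩ := h2
    have h4 : addOrderOf (z + t) • t = 0 := by
      rw [hm, ← two_mul, mul_comm, mul_smul, two_smul, t_add_t ht, smul_zero]
    rwa [smul_add, h4, add_zero] at h3

omit [NeZero n] in
theorem X_four_add (ht : addOrderOf t = 2) (h : Four t z) : X (z + t) = X z := by
  unfold X
  rw [ord_four ht h]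

theorem le_X_four (ht : addOrderOf t = 2) (h : Four t z) : -(1 / 8 : ℚ) ≤ X z := by
  have h4 := four_dvd ht h
  have := ord_pos z
  exact four_ge h4 (by have := Nat.le_of_dvd this h4; omega)

/-- the difference of the values -/
noncomputable def psi (t z : ZMod n) : ℚ := X (z + t) - X z

omit [NeZero n] in
theorem psi_odd (ht : addOrderOf t = 2) (hz : Odd (addOrderOf z)) : psi t z = -(3 / 2) * X z := by
  unfold psi
  rw [X_add_t ht hz]
  ring

omit [NeZero n] in
theorem psi_h (ht : addOrderOf t = 2) (hz : Odd (addOrderOf (z + t))) :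
    psi t z = 3 / 2 * X (z + t) := by
  unfold psi
  have h := X_add_t ht hz
  rw [add_assoc, t_add_t ht, add_zero] at h
  rw [h]
  ring

omit [NeZero n] in
theorem psi_four (ht : addOrderOf t = 2) (hz : Four t z) : psi t z = 0 := by
  unfold psi
  rw [X_four_add ht hz, sub_self]

end Pool.Agent.U68.HX
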