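import Pool.Agent.U68.HX.Inter

set_option autoImplicit false

/-!
# Four residues whose sum is `1` or `3` at each unit
-/

namespace Pool.Agent.U68.HX

open Finset Pool.Agent.U15.DP

variable {n : ℕ} [NeZero n] {u v w z t : ZMod n}

/-- four residues with sum `0`, whose representatives have sum `1` or `3` at each unit -/
structure Face (u v w z : ZMod n) : Prop where
  sum : u + v + w + z = 0
  hu : u ≠ 0
  hv : v ≠ 0
  hw : w ≠ 0
  hz : z ≠ 0
  unit : ∀ k : (ZMod n)ˣ, fr ((k : ZMod n) * u) + fr ((k : ZMod n) * v) + fr ((k : ZMod n) * w) +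
    fr ((k : ZMod n) * z) = 1 ∨ fr ((k : ZMod n) * u) + fr ((k : ZMod n) * v) +
    fr ((k : ZMod n) * w) + fr ((k : ZMod n) * z) = 3

omit [NeZero n] in
theorem Face.swap12 (h : Face u v w z) : Face v u w z where
  sum := by rw [← h.sum]; ring
  hu := h.hv
  hv := h.hu
  hw := h.hw
  hz := h.hz
  unit k := by
    rcases h.unit k with h | h
    · left; linarith
    · right; linarith

omit [NeZero n] in
theorem Face.rot (h : Face u v w z) : Face v w z u where
  sum := by rw [← h.sum]; ring
  hu := h.hv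
  hv := h.hw
  hw := h.hz
  hz := h.hu
  unit k := by
    rcases h.unit k with h | h
    · left; linarith
    · right; linarith

omit [NeZero n] in
theorem unit_mul_ne (k : (ZMod n)ˣ) (h : z ≠ 0) : (k : ZMod n) * z ≠ 0 := by
  intro h0
  rw [Units.mul_right_eq_zero] at h0
  exact h h0

theorem fr_add_of_lt {x y : ZMod n} (h : fr x + fr y < 1) : fr (x + y) = fr x + fr y := by
  rw [fr_add, Int.fract_eq_self.mpr ⟨add_nonneg (fr_nonneg x) (fr_nonneg y), h⟩]

theorem Q_add_of_lt {x y : ZMod n} (h : fr x + fr y < 1) :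
    Q (x + y) = (fr x + fr y) * (1 - (fr x + fr y)) := by
  unfold Q
  rw [fr_add_of_lt h]

theorem Q_identity {u v w z : ZMod n} (hu : u ≠ 0) (hv : v ≠ 0) (hw : w ≠ 0) (hz : z ≠ 0)
    (h : fr u + fr v + fr w + fr z = 1) :
    Q u + Q v + Q w + Q z = Q (u + v) + Q (u + w) + Q (u + z) := by
  have pu := fr_pos hu
  have pv := fr_pos hv
  have pw := fr_pos hw
  have pz := fr_pos hz
  rw [Q_add_of_lt (by linarith), Q_add_of_lt (by linarith), Q_add_of_lt (by linarith)]
  unfold Q
  have e : fr z = 1 - fr u - fr v - fr w := by linarith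
  rw [e]
  ring

theorem Face.identity (h : Face u v w z) :
    X u + X v + X w + X z = 1 + X (u + v) + X (u + w) + X (u + z) := by
  have key : ∀ k : (ZMod n)ˣ, Q ((k : ZMod n) * u) + Q ((k : ZMod n) * v) +
      Q ((k : ZMod n) * w) + Q ((k : ZMod n) * z) =
      Q ((k : ZMod n) * (u + v)) + Q ((k : ZMod n) * (u + w)) + Q ((k : ZMod n) * (u + z)) := by
    intro k
    have hu := unit_mul_ne k h.hu
    have hv := unit_mul_ne k h.hv
    have hw := unit_mul_ne k h.hw
    have hz := unit_mul_ne k h.hz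
    rw [mul_add, mul_add, mul_add]
    rcases h.unit k with h1 | h1
    · exact Q_identity hu hv hw hz h1
    · have := Q_identity (neg_ne_zero.mpr hu) (neg_ne_zero.mpr hv) (neg_ne_zero.mpr hw)
        (neg_ne_zero.mpr hz) (by
          rw [fr_neg_of_ne hu, fr_neg_of_ne hv, fr_neg_of_ne hw, fr_neg_of_ne hz]
          linarith)
      simp only [← neg_add, Q_neg] at this
      exact this
  have h1 := Finset.sum_congr (rfl : (univ : Finset (ZMod n)ˣ) = univ) (fun k _ => key k)
  simp only [Finset.sum_add_distrib] at h1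
  change M u + M v + M w + M z = M (u + v) + M (u + w) + M (u + z) at h1
  simp only [M_main] at h1
  have hc : (0 : ℚ) < (Fintype.card (ZMod n)ˣ : ℚ) := by exact_mod_cast Fintype.card_pos
  have h2 : (Fintype.card (ZMod n)ˣ : ℚ) * (X u + X v + X w + X z) =
      (Fintype.card (ZMod n)ˣ : ℚ) * (1 + X (u + v) + X (u + w) + X (u + z)) := by linarith
  exact mul_left_cancel₀ hc.ne' h2

theorem Face.add_ne (h : Face u v w z) : u + v ≠ 0 := by
  intro h0
  have pu := fr_pos h.hu
  have pv := fr_pos h.hv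
  have pw := fr_pos h.hw
  have pz := fr_pos h.hz
  have h1 := h.unit 1
  simp only [Units.val_one, one_mul] at h1
  have e : v = -u := by rw [← add_eq_zero_iff_neg_eq.mp h0]
  have h2 := fr_neg_of_ne h.hu
  rw [← e] at h2
  have lw := fr_lt_one w
  have lz := fr_lt_one z
  rcases h1 with h1 | h1 <;> linarith

/-- the function `-psi` is at most `1 / 2` -/
theorem neg_psi_le (ht : addOrderOf t = 2) (hz : z ≠ 0) (hzt : z + t ≠ 0) :
    -psi t z ≤ 1 / 2 ∧ (-psi t z = 1 / 2 → addOrderOf z = 6) := by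
  rcases trich t z with h | h | h
  · rw [psi_odd ht h]
    have := X_odd_le h hz
    exact ⟨by linarith, fun h' => by linarith⟩
  · rw [psi_h ht h]
    have h1 := le_X_odd h hzt
    refine ⟨by linarith, fun h' => ?_⟩
    have h2 : X (z + t) = -(1 / 3) := by linarith
    have h3 : addOrderOf (z + t) = 3 := by
      by_contra h3
      have := le_X_odd' h hzt h3
      linarith
    have h4 := ord_add_t ht h
    rw [add_assoc, t_add_t ht, add_zero, h3] at h4
    exact h4
  · rw [psi_four ht h]
    exact ⟨by linarith, fun h' => by linarith⟩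

theorem Face.two (h : Face t v w z) (ht : addOrderOf t = 2) :
    addOrderOf v = 6 ∧ addOrderOf w = 6 ∧ addOrderOf z = 6 := by
  have h1 := h.identity
  have xt : X t = -1 / 2 := by
    unfold X
    rw [ht, chi_two]
  have nv := h.add_ne
  have nw : t + w ≠ 0 := h.swap12.rot.add_ne
  have nz : t + z ≠ 0 := h.rot.rot.rot.swap12.add_ne
  rw [add_comm] at nv nw nz
  have a1 := neg_psi_le ht h.hv nv
  have a2 := neg_psi_le ht h.hw nw
  have a3 := neg_psi_le ht h.hz nz
  have p : ∀ x, psi t x = X (t + x) - X x := by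
    intro x
    unfold psi
    rw [add_comm]
  have s : -psi t v + -psi t w + -psi t z = 3 / 2 := by
    rw [p, p, p]
    linarith
  exact ⟨a1.2 (by linarith [a2.1, a3.1]), a2.2 (by linarith [a1.1, a3.1]),
    a3.2 (by linarith [a1.1, a2.1])⟩

theorem Face.not_three (h : Face u v w z) (hu : Odd (addOrderOf u)) (hv : Odd (addOrderOf v))
    (hw : Odd (addOrderOf w)) (hz : Odd (addOrderOf z)) (h3 : addOrderOf u = 3) : False := by
  have h1 := h.identity
  have xt : X u = -1 / 3 := by
    unfold X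
    rw [h3, chi_three]
  have nv := h.add_ne
  have nw : u + w ≠ 0 := h.swap12.rot.add_ne
  have nz : u + z ≠ 0 := h.rot.rot.rot.swap12.add_ne
  have a1 := X_odd_le hv h.hv
  have a2 := X_odd_le hw h.hw
  have a3 := X_odd_le hz h.hz
  have b1 := le_X_odd (odd_add hu hv) nv
  have b2 := le_X_odd (odd_add hu hw) nw
  have b3 := le_X_odd (odd_add hu hz) nz
  linarith

theorem Face.false_of_coprime (h : Face u v w z) (hu : Odd (addOrderOf u))
    (hv : Odd (addOrderOf v)) (hw : Odd (addOrderOf w)) (hz : Odd (addOrderOf z))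
    (tu : ¬ 3 ∣ addOrderOf u) (tv : ¬ 3 ∣ addOrderOf v) (tw : ¬ 3 ∣ addOrderOf w)
    (tz : ¬ 3 ∣ addOrderOf z) : False := by
  have h1 := h.identity
  have nv := h.add_ne
  have nw : u + w ≠ 0 := h.swap12.rot.add_ne
  have nz : u + z ≠ 0 := h.rot.rot.rot.swap12.add_ne
  have key : ∀ {x : ZMod n}, Odd (addOrderOf x) → ¬ 3 ∣ addOrderOf x → x ≠ 0 →
      X x ≤ 1 / 35 := by
    intro x ho h3 h0
    refine coprime_six ?_ h3 (two_le_ord h0)
    intro h2
    rw [← Nat.not_even_iff_odd] at ho
    exact ho (even_iff_two_dvd.mpr h2)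
  have ne3 : ∀ {x : ZMod n}, ¬ 3 ∣ addOrderOf x → addOrderOf x ≠ 3 := by
    intro x h3 h
    exact h3 (by rw [h])
  have a0 := key hu tu h.hu
  have a1 := key hv tv h.hv
  have a2 := key hw tw h.hw
  have a3 := key hz tz h.hz
  have b1 := le_X_odd' (odd_add hu hv) nv (ne3 (prime_add Nat.prime_three tu tv))
  have b2 := le_X_odd' (odd_add hu hw) nw (ne3 (prime_add Nat.prime_three tu tw))
  have b3 := le_X_odd' (odd_add hu hz) nz (ne3 (prime_add Nat.prime_three tu tz))
  linarith

end Pool.Agent.U68.HX
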